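import Pool.Agent.N786.E.Fou

/-!
# Products of truncated exponentials over disjoint blocks of primes (owner helper786)
-/

set_option autoImplicit false
set_option linter.unusedSectionVars false

open UniqueFactorizationMonoid

namespace Pool.Agent.N786.F

open Pool.Agent.N786.D
open Pool.Agent.N786.E

/-- a part of the exponential series -/
noncomputable def TN (N : Finset ℕ) (w : ℂ) : ℂ := ∑ n ∈ N, w ^ n / (n.factorial : ℂ)

section

variable {ι : Type} [Fintype ι]

open Classical in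
/-- the exponents below `e` whose sum is in `N` -/
noncomputable def bn (N : Finset ℕ) (e : ι → ℕ) : Finset (ι → ℕ) :=
  (Fintype.piFinset fun i => Finset.range (e i + 1)).filter fun k => ∑ i, k i ∈ N

lemma mem_bn {N : Finset ℕ} {e k : ι → ℕ} : k ∈ bn N e ↔ (∀ i, k i ≤ e i) ∧ ∑ i, k i ∈ N := by
  classical
  unfold bn
  rw [Finset.mem_filter, Fintype.mem_piFinset]
  simp only [Finset.mem_range, Nat.lt_succ_iff]

/-- the coefficient -/
noncomputable def UN (N : Finset ℕ) (c : ι → ℂ) (γ : ℕ → ℂ) (y : ι → ℂ) (e : ι → ℕ) : ℂ :=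
  ∑ k ∈ bn N e, ∏ i, lc (c i) γ (y i) (e i) (k i)

lemma UN_tail (N : Finset ℕ) (K : ℕ) (hN : ∀ n ∈ N, K ≤ n) (c : ι → ℂ) (γ : ℕ → ℂ) (y : ι → ℂ)
    (e : ι → ℕ) : ‖UN N c γ y e‖ ≤
      Real.exp (-K) * ∏ i, ∑ j ∈ Finset.range (e i + 1), Real.exp j * ‖lc (c i) γ (y i) (e i) j‖ := by
  classical
  rw [Finset.prod_univ_sum, Finset.mul_sum]
  unfold UN
  refine (norm_sum_le _ _).trans ?_
  refine (Finset.sum_le_sum (g := fun k => Real.exp (-K) * ∏ i, (Real.exp (k i) *
    ‖lc (c i) γ (y i) (e i) (k i)‖)) fun k hk => ?_).trans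
    (Finset.sum_le_sum_of_subset_of_nonneg (Finset.filter_subset _ _) fun k _ _ => by positivity)
  rw [Finset.prod_mul_distrib, norm_prod, ← mul_assoc]
  refine le_mul_of_one_le_left (Finset.prod_nonneg fun i _ => norm_nonneg _) ?_
  rw [← Real.exp_sum, ← Real.exp_add]
  refine Real.one_le_exp ?_
  have h4 := hN _ (mem_bn.mp hk).2
  have h5 : (K : ℝ) ≤ ∑ i, (k i : ℝ) := by exact_mod_cast h4
  linarith

/-- a power -/
lemma UN_pow_sq (m : ℕ) (c : ι → ℂ) (γ : ℕ → ℂ) (y : ι → ℂ) (e : ι → ℕ) :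
    ‖UN {m} c γ y e‖ ^ 2 ≤ Real.exp (-(2 * m)) * ∏ i, lamh (c i) γ (y i) (e i) := by
  have h := UN_tail {m} m (fun n hn => by rw [Finset.mem_singleton.mp hn]) c γ y e
  refine (pow_le_pow_left₀ (norm_nonneg _) h 2).trans (le_of_eq ?_)
  unfold lamh
  rw [mul_pow, ← Finset.prod_pow, ← Real.exp_nat_mul]
  congr 2
  push_cast
  ring

/-- a truncated exponential -/
lemma UN_sq (K : ℕ) (c : ι → ℂ) (γ : ℕ → ℂ) (y : ι → ℂ) (e : ι → ℕ) :
    ‖UN (Finset.range (K + 1)) c γ y e‖ ^ 2 ≤ (1 + Real.exp (-K)) * ∏ i, lam (c i) γ (y i) (e i) +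
      2 * Real.exp (-K) * ∏ i, lamh (c i) γ (y i) (e i) := by
  classical
  set X := Fintype.piFinset fun i => Finset.range (e i + 1) with hX
  set f : (ι → ℕ) → ℂ := fun k => ∏ i, lc (c i) γ (y i) (e i) (k i) with hf
  have h1 : ∑ k ∈ X, f k = ∏ i, ∑ j ∈ Finset.range (e i + 1), lc (c i) γ (y i) (e i) j := by
    rw [Finset.prod_univ_sum]
  have h2 : UN (Finset.range (K + 1)) c γ y e =
      ∑ k ∈ X, f k - ∑ k ∈ X with ¬ ∑ i, k i ∈ Finset.range (K + 1), f k := by
    rw [eq_sub_iff_add_eq]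
    unfold UN bn
    rw [← Finset.sum_filter_add_sum_filter_not X (fun k => ∑ i, k i ∈ Finset.range (K + 1)) f]
  have h3 : ‖∑ k ∈ X with ¬ ∑ i, k i ∈ Finset.range (K + 1), f k‖ ≤
      Real.exp (-K) * ∏ i, ∑ j ∈ Finset.range (e i + 1), Real.exp j * ‖lc (c i) γ (y i) (e i) j‖ := by
    rw [Finset.prod_univ_sum, Finset.mul_sum]
    refine (norm_sum_le _ _).trans ?_
    refine (Finset.sum_le_sum (g := fun k => Real.exp (-K) * ∏ i, (Real.exp (k i) *
      ‖lc (c i) γ (y i) (e i) (k i)‖)) fun k hk => ?_).trans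
      (Finset.sum_le_sum_of_subset_of_nonneg (Finset.filter_subset _ _) fun k _ _ => by positivity)
    rw [Finset.prod_mul_distrib, hf]
    simp only
    rw [norm_prod, ← mul_assoc]
    refine le_mul_of_one_le_left (Finset.prod_nonneg fun i _ => norm_nonneg _) ?_
    rw [← Real.exp_sum, ← Real.exp_add]
    refine Real.one_le_exp ?_
    have h4 := (Finset.mem_filter.mp hk).2
    rw [Finset.mem_range] at h4
    have h5 : (K : ℝ) ≤ ∑ i, (k i : ℝ) := by
      have h6 : K ≤ ∑ i, k i := by omega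
      exact_mod_cast h6
    linarith
  have h4 : ‖UN (Finset.range (K + 1)) c γ y e‖ ≤
      ‖∏ i, ∑ j ∈ Finset.range (e i + 1), lc (c i) γ (y i) (e i) j‖ +
      Real.exp (-K) * ∏ i, ∑ j ∈ Finset.range (e i + 1), Real.exp j *
        ‖lc (c i) γ (y i) (e i) j‖ := by
    rw [h2, h1]
    exact (norm_sub_le _ _).trans (add_le_add le_rfl h3)
  have hK : Real.exp (-(K : ℝ)) ≤ 1 := by
    rw [Real.exp_le_one_iff]
    have : (0 : ℝ) ≤ K := Nat.cast_nonneg K
    linarith
  have hK0 := Real.exp_pos (-(K : ℝ))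
  have h5 : ∀ u v w : ℝ, 0 ≤ u → 0 ≤ v → 0 ≤ w → u ≤ v + Real.exp (-(K : ℝ)) * w →
      u ^ 2 ≤ (1 + Real.exp (-(K : ℝ))) * v ^ 2 + 2 * Real.exp (-(K : ℝ)) * w ^ 2 := by
    intro u v w hu hv hw huv
    have h6 := pow_le_pow_left₀ hu huv 2
    generalize Real.exp (-(K : ℝ)) = t at *
    have h7 : 0 ≤ t * (v - w) ^ 2 := by positivity
    have h8 : 0 ≤ t * (1 - t) * w ^ 2 := by
      have : 0 ≤ 1 - t := by linarith
      positivity
    nlinarith
  refine (h5 _ _ _ (norm_nonneg _) (norm_nonneg _) (Finset.prod_nonneg fun i _ =>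
    Finset.sum_nonneg fun j _ => by positivity) h4).trans (le_of_eq ?_)
  unfold lam lamh
  rw [norm_prod, ← Finset.prod_pow, ← Finset.prod_pow]

/-- the restriction to a block -/
def rs (blk : ι → ℕ) (j : ℕ) (e : ι → ℕ) (i : ι) : ℕ := if blk i = j then e i else 0

/-- the coefficients of the product over the blocks in `J` -/
noncomputable def FJ (blk : ι → ℕ) (N : ℕ → Finset ℕ) (c : ι → ℂ) (γ : ℕ → ℂ) (y : ι → ℂ)
    (J : Finset ℕ) (e : ι → ℕ) : ℂ :=
  (∏ j ∈ J, UN (N j) c γ y (rs blk j e)) * ∏ i, (if blk i ∈ J then 1 else γ (e i) * y i ^ e i)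

open Classical in
/-- the coefficients `c` on a block -/
noncomputable def cb (blk : ι → ℕ) (c : ι → ℂ) (j : ℕ) (i : ι) : ℂ := if blk i = j then c i else 0

lemma lc_zero_zero {γ : ℕ → ℂ} (hγ0 : γ 0 = 1) (c y : ℂ) : lc c γ y 0 0 = 1 := by
  unfold lc
  simp [hγ0]

/-- one more block -/
lemma FJ_step (blk : ι → ℕ) (N : ℕ → Finset ℕ) (c : ι → ℂ) {γ : ℕ → ℂ} (hγ0 : γ 0 = 1)
    (y : ι → ℂ) (J : Finset ℕ) (j : ℕ) (hj : j ∉ J) (e : ι → ℕ) :
    ∑ k ∈ bn (N j) e, (∏ i, (cb blk c j i ^ k i / ((k i).factorial : ℂ))) *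
      FJ blk N c γ y J (fun i => e i - k i) = FJ blk N c γ y (insert j J) e := by
  classical
  have hsub : bn (N j) (rs blk j e) ⊆ bn (N j) e := by
    intro k hk
    rw [mem_bn] at hk ⊢
    refine ⟨fun i => (hk.1 i).trans ?_, hk.2⟩
    unfold rs
    split_ifs <;> omega
  rw [← Finset.sum_subset hsub]
  · unfold FJ
    rw [Finset.prod_insert hj]
    have hr : UN (N j) c γ y (rs blk j e) * (∏ j' ∈ J, UN (N j') c γ y (rs blk j' e)) *
        ∏ i, (if blk i ∈ insert j J then 1 else γ (e i) * y i ^ e i) =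
        ∑ k ∈ bn (N j) (rs blk j e), (∏ i, lc (c i) γ (y i) (rs blk j e i) (k i)) *
          ((∏ j' ∈ J, UN (N j') c γ y (rs blk j' e)) *
            ∏ i, (if blk i ∈ insert j J then 1 else γ (e i) * y i ^ e i)) := by
      rw [mul_assoc]
      unfold UN
      rw [Finset.sum_mul]
    rw [hr]
    refine Finset.sum_congr rfl fun k hk => ?_
    rw [mem_bn] at hk
    have hk0 : ∀ i, blk i ≠ j → k i = 0 := by
      intro i hi
      have := hk.1 i
      unfold rs at this
      rw [if_neg hi] at this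
      omega
    have e1 : ∀ j' ∈ J, rs blk j' (fun i => e i - k i) = rs blk j' e := by
      intro j' hj'
      funext i
      unfold rs
      by_cases h : blk i = j'
      · rw [if_pos h, if_pos h]
        change e i - k i = e i
        rw [hk0 i (by rw [h]; exact fun h2 => hj (h2 ▸ hj')), Nat.sub_zero]
      · rw [if_neg h, if_neg h]
    have e1' : ∏ j' ∈ J, UN (N j') c γ y (rs blk j' (fun i => e i - k i)) =
        ∏ j' ∈ J, UN (N j') c γ y (rs blk j' e) :=
      Finset.prod_congr rfl fun j' hj' => by rw [e1 j' hj']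
    rw [e1']
    have e2 : (∏ i, (cb blk c j i ^ k i / ((k i).factorial : ℂ))) *
        ∏ i, (if blk i ∈ J then 1 else γ (e i - k i) * y i ^ (e i - k i)) =
        (∏ i, lc (c i) γ (y i) (rs blk j e i) (k i)) *
          ∏ i, (if blk i ∈ insert j J then 1 else γ (e i) * y i ^ e i) := by
      rw [← Finset.prod_mul_distrib, ← Finset.prod_mul_distrib]
      refine Finset.prod_congr rfl fun i _ => ?_
      unfold cb rs lc
      by_cases h : blk i = j
      · have h1 : blk i ∉ J := by rw [h]; exact hj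
        have h2 : blk i ∈ insert j J := by rw [h]; exact Finset.mem_insert_self _ _
        rw [if_pos h, if_neg h1, if_pos h2, if_pos h, mul_one]
      · have h3 := hk0 i h
        rw [if_neg h, if_neg h, h3]
        by_cases h1 : blk i ∈ J
        · have h2 : blk i ∈ insert j J := Finset.mem_insert_of_mem h1
          rw [if_pos h1, if_pos h2]
          simp [hγ0]
        · have h2 : blk i ∉ insert j J := fun h4 =>
            (Finset.mem_insert.mp h4).elim h h1
          rw [if_neg h1, if_neg h2]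
          simp [hγ0]
    calc _ = (∏ j' ∈ J, UN (N j') c γ y (rs blk j' e)) *
        ((∏ i, (cb blk c j i ^ k i / ((k i).factorial : ℂ))) *
        ∏ i, (if blk i ∈ J then 1 else γ (e i - k i) * y i ^ (e i - k i))) := by ring
      _ = _ := by rw [e2]; ring
  · intro k hk hk2
    -- a term outside the block
    have : ∃ i, blk i ≠ j ∧ k i ≠ 0 := by
      by_contra hcon
      push Not at hcon
      apply hk2
      rw [mem_bn] at hk ⊢
      refine ⟨fun i => ?_, hk.2⟩
      unfold rs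
      by_cases h : blk i = j
      · rw [if_pos h]; exact hk.1 i
      · rw [if_neg h, hcon i h]
    obtain ⟨i, hi, hki⟩ := this
    have h0 : ∏ i, (cb blk c j i ^ k i / ((k i).factorial : ℂ)) = 0 := by
      refine Finset.prod_eq_zero (Finset.mem_univ i) ?_
      unfold cb
      rw [if_neg hi, zero_pow hki, zero_div]
    rw [h0, zero_mul]

lemma FJ_empty (blk : ι → ℕ) (N : ℕ → Finset ℕ) (c : ι → ℂ) (γ : ℕ → ℂ)
    (y : ι → ℂ) (e : ι → ℕ) :
    FJ blk N c γ y ∅ e = ∏ i, (γ (e i) * y i ^ e i) := by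
  unfold FJ
  rw [Finset.prod_empty, one_mul]
  refine Finset.prod_congr rfl fun i _ => ?_
  rw [if_neg (Finset.notMem_empty _)]

end

end Pool.Agent.N786.F
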