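import Pool.Agent.N786.F.Blk

/-!
# The mean square of the coefficients of products over blocks (owner helper786)
-/

set_option autoImplicit false
set_option linter.unusedSectionVars false

open UniqueFactorizationMonoid

namespace Pool.Agent.N786.F

open Pool.Agent.N786.D
open Pool.Agent.N786.E

section

variable {ι : Type} [Fintype ι]

lemma prod_three (blk : ι → ℕ) (t J : Finset ℕ) (ht : t ⊆ J) (F G H : ι → ℝ) :
    ∏ i, (if blk i ∈ t then F i else if blk i ∈ J then G i else H i) =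
      (∏ j ∈ t, ∏ i with blk i = j, F i) * (∏ j ∈ J \ t, ∏ i with blk i = j, G i) *
        ∏ i with blk i ∉ J, H i := by
  classical
  rw [Finset.prod_fiberwise_eq_prod_filter, Finset.prod_fiberwise_eq_prod_filter,
    Finset.prod_filter, Finset.prod_filter, Finset.prod_filter, ← Finset.prod_mul_distrib,
    ← Finset.prod_mul_distrib]
  refine Finset.prod_congr rfl fun i _ => ?_
  by_cases h1 : blk i ∈ t
  · have h2 := ht h1
    simp [h1, h2]
  · by_cases h2 : blk i ∈ J
    · simp [h1, h2]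
    · simp [h1, h2]

variable {M : Type} [CommMonoidWithZero M] [NormalizationMonoid M] [UniqueFactorizationMonoid M]
  [Subsingleton Mˣ] [Nontrivial M]

/-- sums of products over blocks -/
theorem blk_sum {p : ι → M} (hp : ∀ i, Prime (p i)) (hinj : Function.Injective p)
    (blk : ι → ℕ) (J : Finset ℕ) (A B : ℕ → ℝ) (hA : ∀ j ∈ J, 0 ≤ A j) (hB : ∀ j ∈ J, 0 ≤ B j)
    (a b z : ι → ℕ → ℝ) (ha : ∀ i e, 0 ≤ a i e) (hb : ∀ i e, 0 ≤ b i e) (hz : ∀ i e, 0 ≤ z i e)
    (Ca Cb Cz : ι → ℝ) (hCa : ∀ i N, ∑ e ∈ Finset.range N, a i e ≤ Ca i)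
    (hCb : ∀ i N, ∑ e ∈ Finset.range N, b i e ≤ Cb i)
    (hCz : ∀ i N, ∑ e ∈ Finset.range N, z i e ≤ Cz i) (S : Finset M) (hS : ∀ m ∈ S, Sp p m) :
    ∑ m ∈ S, (∏ j ∈ J, (A j * ∏ i with blk i = j, a i (ex (p i) m) +
      B j * ∏ i with blk i = j, b i (ex (p i) m))) * ∏ i with blk i ∉ J, z i (ex (p i) m) ≤
    (∏ j ∈ J, (A j * ∏ i with blk i = j, Ca i + B j * ∏ i with blk i = j, Cb i)) *
      ∏ i with blk i ∉ J, Cz i := by
  classical
  have e1 : ∀ (F G H : ι → ℝ), (∏ j ∈ J, (A j * ∏ i with blk i = j, F i +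
      B j * ∏ i with blk i = j, G i)) * ∏ i with blk i ∉ J, H i =
      ∑ t ∈ J.powerset, ((∏ j ∈ t, A j) * ∏ j ∈ J \ t, B j) *
        ∏ i, (if blk i ∈ t then F i else if blk i ∈ J then G i else H i) := by
    intro F G H
    rw [Finset.prod_add, Finset.sum_mul]
    refine Finset.sum_congr rfl fun t ht => ?_
    rw [prod_three blk t J (Finset.mem_powerset.mp ht), Finset.prod_mul_distrib,
      Finset.prod_mul_distrib]
    ring
  rw [e1, Finset.sum_congr rfl fun m _ => e1 (fun i => a i (ex (p i) m))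
    (fun i => b i (ex (p i) m)) (fun i => z i (ex (p i) m)), Finset.sum_comm]
  refine Finset.sum_le_sum fun t ht => ?_
  have htJ := Finset.mem_powerset.mp ht
  rw [← Finset.mul_sum]
  refine mul_le_mul_of_nonneg_left ?_ (mul_nonneg (Finset.prod_nonneg fun j hj => hA j (htJ hj))
    (Finset.prod_nonneg fun j hj => hB j (Finset.mem_sdiff.mp hj).1))
  have h := euler2 hp hinj (fun i e => if blk i ∈ t then a i e else if blk i ∈ J then b i e
    else z i e) (fun i e => by
      split_ifs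
      · exact ha i e
      · exact hb i e
      · exact hz i e)
    (fun i => if blk i ∈ t then Ca i else if blk i ∈ J then Cb i else Cz i) (fun i n => by
      split_ifs
      · exact hCa i n
      · exact hCb i n
      · exact hCz i n) S hS
  exact h

/-- **the mean square of the coefficients of the products over blocks** -/
theorem coef_multi {L : M → ℝ} {B₀ : ℝ} (hL : LNorm L B₀) {p : ι → M} (hp : ∀ i, Prime (p i))
    (hinj : Function.Injective p) {γ : ℕ → ℂ} (hγ0 : γ 0 = 1) (hγ : ∀ e, ‖γ e‖ ≤ 1)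
    {y c : ι → ℂ} (hy : ∀ i, ‖y i‖ = 1) (hc : ∀ i, ‖c i‖ ≤ 1) (blk : ι → ℕ) (N : ℕ → Finset ℕ)
    (J : Finset ℕ) (A B : ℕ → ℝ) (hA : ∀ j ∈ J, 0 ≤ A j) (hB : ∀ j ∈ J, 0 ≤ B j)
    (hN : ∀ j ∈ J, ∀ e : ι → ℕ, ‖UN (N j) c γ y e‖ ^ 2 ≤
      A j * ∏ i, lam (c i) γ (y i) (e i) + B j * ∏ i, lamh (c i) γ (y i) (e i))
    {σ : ℝ} (hσ : 1 ≤ σ) (S : Finset M) (hS : ∀ a ∈ S, Sp p a) :
    ∑ a ∈ S, ‖FJ blk N c γ y J (fun i => ex (p i) a)‖ ^ 2 * Real.exp (-(σ * L a)) ≤
      (∏ j ∈ J, (A j * Real.exp (∑ i with blk i = j,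
          (‖γ 1 * y i + c i‖ ^ 2 * Real.exp (-(σ * L (p i))) +
            18 * Real.exp (-(σ * L (p i))) ^ 2)) +
        B j * Real.exp (∑ i with blk i = j, 800 * Real.exp (-(σ * L (p i)))))) *
      Real.exp (∑ i with blk i ∉ J, (‖γ 1 * y i‖ ^ 2 * Real.exp (-(σ * L (p i))) +
        18 * Real.exp (-(σ * L (p i))) ^ 2)) := by
  classical
  set x : ι → ℝ := fun i => Real.exp (-(σ * L (p i))) with hx
  have hx0 : ∀ i, 0 ≤ x i := fun i => (Real.exp_pos _).le
  have hx2 : ∀ i, x i ≤ 1 / 2 := fun i => by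
    have h3 := hL.prime (p i) (hp i)
    have hl2 : 0 < Real.log 2 := Real.log_pos (by norm_num)
    have h4 : Real.exp (-(σ * L (p i))) ≤ Real.exp (-Real.log 2) :=
      Real.exp_le_exp.mpr (by nlinarith)
    rw [Real.exp_neg (Real.log 2), Real.exp_log (by norm_num)] at h4
    simp only [hx]
    linarith
  have hxa : ∀ a ∈ S, Real.exp (-(σ * L a)) = ∏ i, x i ^ ex (p i) a := by
    intro a ha
    rw [(hS a ha).L_eq hL hp hinj, Finset.mul_sum, ← Finset.sum_neg_distrib, Real.exp_sum]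
    refine Finset.prod_congr rfl fun i _ => ?_
    simp only [hx]
    rw [← Real.exp_nat_mul]
    congr 1
    ring
  have hc0 : ‖(0 : ℂ)‖ ≤ 1 := by simp
  have h1 := blk_sum hp hinj blk J A B hA hB
    (fun i e => lam (c i) γ (y i) e * x i ^ e) (fun i e => lamh (c i) γ (y i) e * x i ^ e)
    (fun i e => lam 0 γ (y i) e * x i ^ e)
    (fun i e => mul_nonneg (lam_nn e) (pow_nonneg (hx0 i) e))
    (fun i e => mul_nonneg (lamh_nn e) (pow_nonneg (hx0 i) e))
    (fun i e => mul_nonneg (lam_nn e) (pow_nonneg (hx0 i) e))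
    (fun i => Real.exp (‖γ 1 * y i + c i‖ ^ 2 * x i + 18 * x i ^ 2))
    (fun i => Real.exp (800 * x i))
    (fun i => Real.exp (‖γ 1 * y i + 0‖ ^ 2 * x i + 18 * x i ^ 2))
    (fun i n => lam_sum hγ0 hγ (hy i) (hc i) (hx0 i) (hx2 i) n)
    (fun i n => lamh_sum hγ0 hγ (hy i) (hc i) (hx0 i) (hx2 i) n)
    (fun i n => lam_sum hγ0 hγ (hy i) hc0 (hx0 i) (hx2 i) n) S hS
  simp only [← Real.exp_sum, add_zero] at h1
  refine le_trans (Finset.sum_le_sum fun a ha => ?_) h1
  rw [hxa a ha]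
  unfold FJ
  rw [norm_mul, mul_pow, norm_prod, norm_prod, ← Finset.prod_pow, ← Finset.prod_pow]
  have e1 : ∏ i, x i ^ ex (p i) a = (∏ j ∈ J, ∏ i with blk i = j, x i ^ ex (p i) a) *
      ∏ i with blk i ∉ J, x i ^ ex (p i) a := by
    have h2 := prod_three blk J J (Finset.Subset.refl J) (fun i => x i ^ ex (p i) a)
      (fun i => x i ^ ex (p i) a) (fun i => x i ^ ex (p i) a)
    simp only [ite_self, Finset.sdiff_self, Finset.prod_empty, mul_one] at h2
    exact h2
  have e2 : ∏ i, ‖(if blk i ∈ J then (1 : ℂ) else γ (ex (p i) a) * y i ^ ex (p i) a)‖ ^ 2 =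
      ∏ i with blk i ∉ J, lam 0 γ (y i) (ex (p i) a) := by
    rw [Finset.prod_filter]
    refine Finset.prod_congr rfl fun i _ => ?_
    by_cases h : blk i ∈ J
    · simp [h]
    · rw [if_neg h, if_pos h]
      unfold lam
      congr 2
      rw [Finset.sum_eq_single 0]
      · unfold lc
        simp
      · intro j _ hj
        unfold lc
        rw [zero_pow hj]
        simp
      · intro h3
        exact absurd (Finset.mem_range.mpr (by omega)) h3
  rw [e1, e2]
  have e3 : ∀ j ∈ J, ‖UN (N j) c γ y (rs blk j fun i => ex (p i) a)‖ ^ 2 *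
      ∏ i with blk i = j, x i ^ ex (p i) a ≤
      A j * ∏ i with blk i = j, (lam (c i) γ (y i) (ex (p i) a) * x i ^ ex (p i) a) +
      B j * ∏ i with blk i = j, (lamh (c i) γ (y i) (ex (p i) a) * x i ^ ex (p i) a) := by
    intro j hj
    have h2 := hN j hj (rs blk j fun i => ex (p i) a)
    have f1 : ∏ i, lam (c i) γ (y i) (rs blk j (fun i => ex (p i) a) i) =
        ∏ i with blk i = j, lam (c i) γ (y i) (ex (p i) a) := by
      rw [Finset.prod_filter]
      refine Finset.prod_congr rfl fun i _ => ?_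
      unfold rs
      by_cases h : blk i = j
      · rw [if_pos h, if_pos h]
      · rw [if_neg h, if_neg h, lam_zero hγ0]
    have f2 : ∏ i, lamh (c i) γ (y i) (rs blk j (fun i => ex (p i) a) i) =
        ∏ i with blk i = j, lamh (c i) γ (y i) (ex (p i) a) := by
      rw [Finset.prod_filter]
      refine Finset.prod_congr rfl fun i _ => ?_
      unfold rs
      by_cases h : blk i = j
      · rw [if_pos h, if_pos h]
      · rw [if_neg h, if_neg h, lamh_zero hγ0]
    rw [f1, f2] at h2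
    have h3 : 0 ≤ ∏ i with blk i = j, x i ^ ex (p i) a :=
      Finset.prod_nonneg fun i _ => pow_nonneg (hx0 i) _
    refine (mul_le_mul_of_nonneg_right h2 h3).trans (le_of_eq ?_)
    rw [Finset.prod_mul_distrib, Finset.prod_mul_distrib]
    ring
  have e4 : (∏ j ∈ J, ‖UN (N j) c γ y (rs blk j fun i => ex (p i) a)‖ ^ 2) *
      (∏ i with blk i ∉ J, lam 0 γ (y i) (ex (p i) a)) *
      ((∏ j ∈ J, ∏ i with blk i = j, x i ^ ex (p i) a) *
      ∏ i with blk i ∉ J, x i ^ ex (p i) a) =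
      (∏ j ∈ J, (‖UN (N j) c γ y (rs blk j fun i => ex (p i) a)‖ ^ 2 *
      ∏ i with blk i = j, x i ^ ex (p i) a)) *
      ∏ i with blk i ∉ J, (lam 0 γ (y i) (ex (p i) a) * x i ^ ex (p i) a) := by
    rw [Finset.prod_mul_distrib, Finset.prod_mul_distrib]
    ring
  rw [e4]
  refine mul_le_mul_of_nonneg_right (Finset.prod_le_prod (fun j _ => ?_) e3)
    (Finset.prod_nonneg fun i _ => mul_nonneg (lam_nn _) (pow_nonneg (hx0 i) _))
  exact mul_nonneg (sq_nonneg _) (Finset.prod_nonneg fun i _ => pow_nonneg (hx0 i) _)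

end

end Pool.Agent.N786.F
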