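import Pool.Agent.N786.F.Gen
import Pool.Agent.N786.E.Clt
import Pool.Agent.N786.D.Fin3

/-!
# The moments for the families of Hecke characters (owner helper786)
-/

set_option autoImplicit false
set_option linter.unusedSectionVars false

open NumberField NumberField.Units MeasureTheory Complex Filter Topology Set

namespace Pool.Agent.N786.F

open Pool.Agent.N786
open Pool.Agent.N786.D
open Pool.Agent.N786.E
open Pool.Agent.Y773 (LI)
open Pool.Agent.Y767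
open Pool.Agent.Y772.HC
open Pool.Agent.R399.TW (pt pt_re pt_im pt_cont)

/-- **The moments for the families** -/
theorem mom_fam (K : Type) [Field K] [NumberField K] [IsTotallyReal K] (h : ℝ) (hh : 1 / 2 < h)
    (hh1 : h ≤ 1) :
    ∃ V₀ R₀ C : ℝ, 1 ≤ V₀ ∧ 0 ≤ C ∧
    ∀ (𝔣 𝔮 : Ideal (𝓞 K)) (ν₀ : InfinitePlace K → ℝ) (ψ₀ : Ideal (𝓞 K) →*₀ ℂ) (V T : ℝ),
    IsHecke K 𝔣 ν₀ ψ₀ → ∑ w, ν₀ w = 0 → IsCoprime 𝔣 𝔮 → 𝔮 ≠ ⊥ → 𝔣 * 𝔮 ≠ ⊤ →
    V₀ ≤ V → V ≤ T → (∀ w, |ν₀ w| ≤ T) →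
    ((Ideal.absNorm (𝔣 * 𝔮) : ℝ) * T ^ Module.finrank ℚ K) ^ h ≤
      (Ideal.absNorm 𝔮 : ℝ) * V ^ Module.finrank ℚ K →
    R₀ ≤ Real.log ((Ideal.absNorm (𝔣 * 𝔮) : ℝ) * T ^ Module.finrank ℚ K) →
    ∀ (S : Finset (Ideal (𝓞 K) →*₀ ℂ)), (∀ lam ∈ S, lam ∈ HFam K 𝔮 V) →
    ∀ (Lf : (Ideal (𝓞 K) →*₀ ℂ) → ℂ → ℂ),
      (∀ lam ∈ S, Differentiable ℂ (Lf lam) ∧
        ∀ s : ℂ, 1 < s.re → Lf lam s = LI (pr ψ₀ lam) s) →
      (S.card : ℝ) * V ≤ C * ((Ideal.absNorm 𝔮 : ℝ) * V ^ Module.finrank ℚ K) ∧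
      ∀ t₁ : ℝ, |t₁| ≤ T → ∀ k : ℝ, 0 ≤ k → k ≤ 1 →
      ∑ lam ∈ S, ∫ t in t₁..(t₁ + V), ‖Lf lam (pt (1 / 2) t)‖ ^ (2 * k) ≤
        C * ((Ideal.absNorm 𝔮 : ℝ) * V ^ Module.finrank ℚ K) *
          Real.log ((Ideal.absNorm (𝔣 * 𝔮) : ℝ) * T ^ Module.finrank ℚ K) ^ (k ^ 2) := by
  classical
  obtain ⟨n, hn⟩ : ∃ n : ℕ, n = Module.finrank ℚ K := ⟨_, rfl⟩
  have hn0 : 1 ≤ n := by rw [hn]; exact Module.finrank_pos
  obtain ⟨g, hg⟩ : ∃ g : ℝ, g = (2 * h - 1) / 4 := ⟨_, rfl⟩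
  have hg0 : 0 < g := by rw [hg]; linarith
  have hg1 : g ≤ 1 / 4 := by rw [hg]; linarith
  obtain ⟨A₀, hA₀, hgrow⟩ := grow_all K
  have h4 : (1 : ℝ) ≤ 4 ^ n := one_le_pow₀ (by norm_num)
  obtain ⟨V₁, A₂, C, hV₁, hA₂, hC, hls⟩ := ls_fam K
  obtain ⟨R₂, hR₂⟩ := thr_exists C g n (by linarith) hg0
  have hA₂0 : 0 ≤ A₂ := by linarith
  obtain ⟨R₃, C₃, E, hR₃, hC₃, hmom⟩ := mom_gen K (α₃ := h - g) (A₀ := A₀ * 4 ^ n)
    (by rw [hg]; linarith) (one_le_mul_of_one_le_of_one_le hA₀ h4) n hn0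
  refine ⟨V₁, max R₂ R₃, A₂ + C₃ * A₂ * 2 ^ E, hV₁, by positivity, ?_⟩
  intro 𝔣 𝔮 ν₀ ψ₀ V T hψ hs₀ hcop h𝔮 htop hV hVT hνT hX hRlog S hSmem Lf hLf
  rw [← hn] at hX ⊢
  rw [← hn] at hRlog
  have hbot : 𝔣 * 𝔮 ≠ ⊥ := mul_ne_zero hψ.ne_bot h𝔮
  have hVge : 1 ≤ V := hV₁.trans hV
  have hV0 : 0 < V := by linarith
  have hT : 1 ≤ T := hVge.trans hVT
  have hT0 : 0 < T := by linarith
  obtain ⟨N, hN⟩ : ∃ N : ℝ, N = (Ideal.absNorm (𝔣 * 𝔮) : ℝ) := ⟨_, rfl⟩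
  have hN1 : 1 ≤ N := by rw [hN]; exact one_le_norm hbot
  obtain ⟨R, hR⟩ : ∃ R : ℝ, R = Real.log (N * T ^ n) := ⟨_, rfl⟩
  rw [← hN] at hX hRlog ⊢
  rw [← hR] at hRlog ⊢
  have hRR2 : R₂ ≤ R := (le_max_left _ _).trans hRlog
  have hRR3 : R₃ ≤ R := (le_max_right _ _).trans hRlog
  have hC0 : 0 < N * T ^ n := by positivity
  have hexpR : Real.exp R = N * T ^ n := by rw [hR, Real.exp_log hC0]
  have hR1 : 1 ≤ R := hR₃.trans hRR3
  have hR0 : 0 < R := by linarith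
  have hpi := Real.pi_pos
  have hNq1 : (1 : ℝ) ≤ (Ideal.absNorm 𝔮 : ℝ) := one_le_norm h𝔮
  have hNV0 : 0 < (Ideal.absNorm 𝔮 : ℝ) * V ^ n := by positivity
  obtain ⟨P, hP⟩ : ∃ P : ℝ, P = A₂ * ((Ideal.absNorm 𝔮 : ℝ) * V ^ n) := ⟨_, rfl⟩
  -- the large sieve
  obtain ⟨M, hM⟩ : ∃ M : ℕ, M = ⌊Real.exp ((h - g) * R)⌋₊ := ⟨_, rfl⟩
  have hMM : (M : ℝ) ≤ Real.exp ((h - g) * R) := by
    rw [hM]; exact Nat.floor_le (Real.exp_pos _).le
  have hgh : 0 ≤ h - g := by rw [hg]; linarith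
  have hMpos : 1 ≤ M := by
    rw [hM]
    refine Nat.le_floor ?_
    rw [Nat.cast_one]
    exact Real.one_le_exp (by positivity)
  have hlogM : Real.log (M : ℝ) ≤ R := by
    have h1 : 0 < (M : ℝ) := by exact_mod_cast hMpos
    refine (Real.log_le_log h1 hMM).trans ?_
    rw [Real.log_exp]
    nlinarith
  have hlen : (C * ((4 * R + 2 * Real.pi) / V)) ^ n * (M : ℝ) < Ideal.absNorm 𝔮 := by
    have h1 : (C * (4 * R + 2 * Real.pi)) ^ n * (M : ℝ) <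
        (Ideal.absNorm 𝔮 : ℝ) * V ^ n := by
      have h2 : Real.exp (h * R) ≤ (Ideal.absNorm 𝔮 : ℝ) * V ^ n := by
        refine le_trans (le_of_eq ?_) hX
        rw [← hexpR, ← Real.exp_mul, mul_comm]
      refine lt_of_lt_of_le ?_ h2
      have h3 := hR₂ R hRR2
      have h5 : 0 < Real.exp ((h - g) * R) := Real.exp_pos _
      calc (C * (4 * R + 2 * Real.pi)) ^ n * (M : ℝ) ≤
          (C * (4 * R + 2 * Real.pi)) ^ n * Real.exp ((h - g) * R) :=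
            mul_le_mul_of_nonneg_left hMM (by positivity)
        _ < Real.exp (g * R) * Real.exp ((h - g) * R) := mul_lt_mul_of_pos_right h3 h5
        _ = Real.exp (h * R) := by rw [← Real.exp_add]; congr 1; ring
    have h6 : (C * ((4 * R + 2 * Real.pi) / V)) ^ n * V ^ n =
        (C * (4 * R + 2 * Real.pi)) ^ n := by
      rw [← mul_pow]
      congr 1
      field_simp
    have h7 : 0 < V ^ n := by positivity
    have h8 : (C * ((4 * R + 2 * Real.pi) / V)) ^ n * (M : ℝ) * V ^ n <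
        (Ideal.absNorm 𝔮 : ℝ) * V ^ n := by
      calc _ = ((C * ((4 * R + 2 * Real.pi) / V)) ^ n * V ^ n) * (M : ℝ) := by ring
        _ < _ := by rw [h6]; exact h1
    exact lt_of_mul_lt_mul_right h8 h7.le
  have hLSP : LSP S ψ₀ V P M := by
    intro u t₁
    rw [hP]
    have := hls 𝔣 𝔮 hcop htop hbot V hV ν₀ ψ₀ hs₀ hψ.toIsHM S
      hSmem (4 * R + 2 * Real.pi)
      M (by linarith) (by linarith) (by rw [← hn]; exact hlen) u t₁
    rw [← hn] at this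
    exact this
  have hcardP : (S.card : ℝ) * V ≤ P := by
    have h1 := hLSP (fun 𝔞 => if 𝔞 = 1 then 1 else 0) 0
    have hmem : (1 : Ideal (𝓞 K)) ∈ SI K M := by
      refine SI_of one_ne_zero ?_
      rw [map_one]
      exact hMpos
    have e1 : ∀ lam ∈ S, ∫ t in (0 : ℝ)..(0 + V), ‖∑ 𝔞 ∈ SI K M,
        (if 𝔞 = 1 then (1 : ℂ) else 0) * pr ψ₀ lam 𝔞 * ph 𝔞 t‖ ^ 2 = V := by
      intro lam _
      have e2 : ∀ t : ℝ, ‖∑ 𝔞 ∈ SI K M,
          (if 𝔞 = 1 then (1 : ℂ) else 0) * pr ψ₀ lam 𝔞 * ph 𝔞 t‖ ^ 2 = 1 := by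
        intro t
        rw [Finset.sum_eq_single (1 : Ideal (𝓞 K))]
        · rw [if_pos rfl, map_one]
          unfold ph
          rw [map_one]
          simp
        · intro 𝔟 _ hb
          rw [if_neg hb, zero_mul, zero_mul]
        · intro h'
          exact absurd hmem h'
      simp_rw [e2]
      rw [intervalIntegral.integral_const, smul_eq_mul]
      ring
    rw [Finset.sum_congr rfl e1, Finset.sum_const, nsmul_eq_mul] at h1
    have e3 : ∑ 𝔞 ∈ SI K M, ‖(if 𝔞 = 1 then (1 : ℂ) else 0)‖ ^ 2 = 1 := by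
      rw [Finset.sum_eq_single (1 : Ideal (𝓞 K))]
      · rw [if_pos rfl, norm_one, one_pow]
      · intro 𝔟 _ hb
        rw [if_neg hb, norm_zero]
        norm_num
      · intro h'
        exact absurd hmem h'
    rw [e3, mul_one] at h1
    exact h1
  have hP0 : 0 ≤ P := by rw [hP]; positivity
  -- the functions
  set F : (Ideal (𝓞 K) →*₀ ℂ) → ℂ → ℂ := fun lam => if lam ∈ S then Lf lam else fun _ => 0 with hF
  have hFS : ∀ lam ∈ S, F lam = Lf lam := fun lam hl => by simp only [hF]; rw [if_pos hl]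
  have hFd : ∀ lam, Differentiable ℂ (F lam) := by
    intro lam
    by_cases hl : lam ∈ S
    · rw [hFS lam hl]
      exact (hLf lam hl).1
    · simp only [hF]
      rw [if_neg hl]
      exact differentiable_const _
  have hinfo : ∀ lam ∈ S, ∃ ν : InfinitePlace K → ℝ, (∀ w, |ν w| ≤ 2 * T) ∧
      IsLf K (𝔣 * 𝔮) ν (pr ψ₀ lam) (F lam) := by
    intro lam hl
    obtain ⟨ν, a1, a2, a3⟩ := hSmem lam hl
    refine ⟨ν₀ + ν, fun w => ?_, htop, ?_, pr_isHecke hcop hψ a3, hFd lam, ?_⟩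
    · rw [Pi.add_apply]
      refine (abs_add_le _ _).trans ?_
      linarith [hνT w, a1 w]
    · simp only [Pi.add_apply]
      rw [Finset.sum_add_distrib, hs₀, a2, add_zero]
    · rw [hFS lam hl]
      exact (hLf lam hl).2
  have hGL : ∀ lam ∈ S, GLf (A₀ * 4 ^ n) T R n (pr ψ₀ lam) (F lam) := by
    intro lam hl
    obtain ⟨ν, b1, b2⟩ := hinfo lam hl
    have h1 := hgrow (𝔣 * 𝔮) ν (pr ψ₀ lam) (F lam) b2 (2 * T) (by linarith) b1
    have h2 := gl_of hA₀ b2 hT h1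
    rw [← hn, ← hN, ← hR] at h2
    exact h2
  have hNV := hNV0.le
  refine ⟨?_, fun t₁ ht₁ k hk0 hk1 => ?_⟩
  · refine hcardP.trans ?_
    rw [hP]
    have h1 : 0 ≤ C₃ * A₂ * 2 ^ E := by positivity
    exact mul_le_mul_of_nonneg_right (by linarith) hNV
  · have h1 := hmom R T V P S ψ₀ F hRR3 hT hV0.le hVT hcardP (by rw [← hM]; exact hLSP)
      (fun lam => (hFd lam).continuous) hGL k hk0 hk1 t₁
    have hint : ∀ lam ∈ S, ENNReal.ofReal (∫ t in t₁..(t₁ + V), ‖Lf lam (pt (1 / 2) t)‖ ^ (2 * k)) =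
        ∫⁻ t in Icc t₁ (t₁ + V), ENNReal.ofReal (‖F lam (pt (1 / 2) t)‖ ^ (2 * k)) := by
      intro lam hl
      rw [intervalIntegral.integral_of_le (by linarith), ← integral_Icc_eq_integral_Ioc,
        ofReal_integral_eq_lintegral_ofReal ?_ (Eventually.of_forall fun t => by positivity)]
      · rw [hFS lam hl]
      · have hc : Continuous fun t : ℝ => ‖Lf lam (pt (1 / 2) t)‖ ^ (2 * k) := by
          refine Continuous.rpow_const ?_ fun t => Or.inr (by positivity)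
          exact ((hLf lam hl).1.continuous.comp (pt_cont _)).norm
        exact hc.integrableOn_Icc
    have hnn : ∀ lam ∈ S, 0 ≤ ∫ t in t₁..(t₁ + V), ‖Lf lam (pt (1 / 2) t)‖ ^ (2 * k) := fun lam _ =>
      intervalIntegral.integral_nonneg (by linarith) fun t _ => by positivity
    have h2 : ENNReal.ofReal (∑ lam ∈ S, ∫ t in t₁..(t₁ + V), ‖Lf lam (pt (1 / 2) t)‖ ^ (2 * k)) ≤
        ENNReal.ofReal (C₃ * P * R ^ (k ^ 2) * (1 + |t₁| / T) ^ E) := by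
      rw [ENNReal.ofReal_sum_of_nonneg hnn, Finset.sum_congr rfl hint]
      exact h1
    have hRk : 0 ≤ R ^ (k ^ 2) := Real.rpow_nonneg hR0.le _
    rw [ENNReal.ofReal_le_ofReal_iff (by positivity)] at h2
    refine h2.trans ?_
    have h3 : (1 + |t₁| / T) ^ E ≤ 2 ^ E := by
      refine pow_le_pow_left₀ (by positivity) ?_ E
      have : |t₁| / T ≤ 1 := by rw [div_le_one hT0]; exact ht₁
      linarith
    calc C₃ * P * R ^ (k ^ 2) * (1 + |t₁| / T) ^ E ≤ C₃ * P * R ^ (k ^ 2) * 2 ^ E := by gcongr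
      _ = C₃ * A₂ * 2 ^ E * ((Ideal.absNorm 𝔮 : ℝ) * V ^ n) * R ^ (k ^ 2) := by rw [hP]; ring
      _ ≤ (A₂ + C₃ * A₂ * 2 ^ E) * ((Ideal.absNorm 𝔮 : ℝ) * V ^ n) * R ^ (k ^ 2) := by
          gcongr
          linarith

end Pool.Agent.N786.F
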