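import Pool.Agent.N786.F.Prod

/-!
# The mean square of the coefficients with a smooth cut-off (owner helper786)
-/

set_option autoImplicit false
set_option linter.unusedSectionVars false

open UniqueFactorizationMonoid MeasureTheory

namespace Pool.Agent.N786.F

open Pool.Agent.N786.D
open Pool.Agent.N786.E

/-- the local bound -/
lemma loc2 {g₁ α θ v ℓ : ℝ} (hg : g₁ = 0 ∨ g₁ = 1) (hα : |α| ≤ 1) (hℓ : Real.log 2 ≤ ℓ) :
    ‖(g₁ : ℂ) * Complex.exp (((θ * ℓ : ℝ) : ℂ) * Complex.I) +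
      (α : ℂ) * Complex.exp (((v * ℓ : ℝ) : ℂ) * Complex.I)‖ ^ 2 ≤
      (g₁ + α) ^ 2 + 16 * (1 - Real.exp (-(min |θ - v| (1 / 2) * ℓ))) := by
  have hl2 : 0 < Real.log 2 := Real.log_pos (by norm_num)
  have hℓ0 : 0 < ℓ := by linarith
  have hw0 : 0 ≤ 1 - Real.exp (-(min |θ - v| (1 / 2) * ℓ)) := by
    rw [sub_nonneg, Real.exp_le_one_iff]
    have : 0 ≤ min |θ - v| (1 / 2) * ℓ := mul_nonneg (le_min (abs_nonneg _) (by norm_num)) hℓ0.le
    linarith
  rcases hg with rfl | rfl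
  · rw [Complex.ofReal_zero, zero_mul, zero_add, norm_mul, Complex.norm_exp_ofReal_mul_I, mul_one,
      Complex.norm_real, Real.norm_eq_abs, sq_abs, zero_add]
    linarith
  · have e1 : ((1 : ℝ) : ℂ) * Complex.exp (((θ * ℓ : ℝ) : ℂ) * Complex.I) +
        (α : ℂ) * Complex.exp (((v * ℓ : ℝ) : ℂ) * Complex.I) =
        Complex.exp (((v * ℓ : ℝ) : ℂ) * Complex.I) *
          (Complex.exp ((((θ - v) * ℓ : ℝ) : ℂ) * Complex.I) + α) := by
      have e2 : Complex.exp (((θ * ℓ : ℝ) : ℂ) * Complex.I) =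
          Complex.exp (((v * ℓ : ℝ) : ℂ) * Complex.I) *
          Complex.exp ((((θ - v) * ℓ : ℝ) : ℂ) * Complex.I) := by
        rw [← Complex.exp_add]
        congr 1
        push_cast
        ring
      rw [e2]
      push_cast
      ring
    rw [e1, norm_mul, Complex.norm_exp_ofReal_mul_I, one_mul]
    have h4 := local_bound (L := ℓ) (θ := θ - v) hℓ
    obtain ⟨φ, hφ⟩ : ∃ φ : ℝ, φ = (θ - v) * ℓ := ⟨_, rfl⟩
    rw [← hφ] at h4 ⊢
    have h5 : ‖Complex.exp ((φ : ℂ) * Complex.I) + α‖ ^ 2 = (1 + α) ^ 2 -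
        2 * α * (1 - Real.cos φ) := by
      rw [Complex.sq_norm, Complex.normSq_apply]
      have h1 : (Complex.exp ((φ : ℂ) * Complex.I) + α).re = Real.cos φ + α := by
        rw [Complex.add_re, Complex.exp_ofReal_mul_I_re, Complex.ofReal_re]
      have h2 : (Complex.exp ((φ : ℂ) * Complex.I) + α).im = Real.sin φ := by
        rw [Complex.add_im, Complex.exp_ofReal_mul_I_im, Complex.ofReal_im, add_zero]
      rw [h1, h2]
      nlinarith [Real.sin_sq_add_cos_sq φ]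
    rw [norm_one_sub_sq] at h4
    rw [h5]
    have h6 := Real.cos_le_one φ
    have h7 := abs_le.mp hα
    nlinarith

section

variable {ι : Type} [Fintype ι]
variable {M : Type} [CommMonoidWithZero M] [NormalizationMonoid M] [UniqueFactorizationMonoid M]
  [Subsingleton Mˣ] [Nontrivial M]

/-- the main term of the mean square -/
noncomputable def Wt (L : M → ℝ) (p : ι → M) (blk : ι → ℕ) (J : Finset ℕ) (A B α : ℕ → ℝ)
    (g₁ σ : ℝ) : ℝ :=
  (∏ j ∈ J, (A j * Real.exp (∑ i with blk i = j, (g₁ + α j) ^ 2 * Real.exp (-(σ * L (p i)))) +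
        B j * Real.exp (∑ i with blk i = j, 800 * Real.exp (-(σ * L (p i)))))) *
      Real.exp (∑ i with blk i ∉ J, g₁ ^ 2 * Real.exp (-(σ * L (p i))))

lemma Wt_nn {L : M → ℝ} {p : ι → M} {blk : ι → ℕ} {J : Finset ℕ} {A B α : ℕ → ℝ}
    {g₁ σ : ℝ} (hA : ∀ j ∈ J, 0 ≤ A j) (hB : ∀ j ∈ J, 0 ≤ B j) : 0 ≤ Wt L p blk J A B α g₁ σ := by
  unfold Wt
  refine mul_nonneg (Finset.prod_nonneg fun j hj => ?_) (Real.exp_pos _).le
  have := hA j hj
  have := hB j hj
  positivity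

/-- the phases of the coefficients -/
noncomputable def cc (L : M → ℝ) (p : ι → M) (blk : ι → ℕ) (α : ℕ → ℝ) (v : ℝ) (i : ι) : ℂ :=
  (α (blk i) : ℂ) * Complex.exp (((v * L (p i) : ℝ) : ℂ) * Complex.I)

lemma cc_le {L : M → ℝ} {p : ι → M} {blk : ι → ℕ} {α : ℕ → ℝ} (hα : ∀ j, |α j| ≤ 1) (v : ℝ)
    (i : ι) : ‖cc L p blk α v i‖ ≤ 1 := by
  unfold cc
  rw [norm_mul, Complex.norm_exp_ofReal_mul_I, mul_one, Complex.norm_real]
  exact hα _

/-- the bound for one twist -/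
theorem coef_two {L : M → ℝ} {B₀ : ℝ} (hL : LNorm L B₀) {p : ι → M} (hp : ∀ i, Prime (p i))
    (hinj : Function.Injective p) {γ : ℕ → ℂ} {g₁ : ℝ} (hg : g₁ = 0 ∨ g₁ = 1) (hγ0 : γ 0 = 1)
    (hγ : ∀ e, ‖γ e‖ ≤ 1) (hγ1 : γ 1 = (g₁ : ℂ))
    (blk : ι → ℕ) (N : ℕ → Finset ℕ)
    (J : Finset ℕ) (A B α : ℕ → ℝ) (hα : ∀ j, |α j| ≤ 1)
    (hA : ∀ j ∈ J, 0 ≤ A j) (hB : ∀ j ∈ J, 0 ≤ B j)
    (hN : ∀ j ∈ J, ∀ (c : ι → ℂ) (y : ι → ℂ) (e : ι → ℕ), ‖UN (N j) c γ y e‖ ^ 2 ≤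
      A j * ∏ i, lam (c i) γ (y i) (e i) + B j * ∏ i, lamh (c i) γ (y i) (e i))
    {σ R : ℝ} (h1 : 1 < σ) (h2 : σ ≤ 3 / 2) (hR : 0 < R) (hR2 : 1 / R ≤ σ - 1) (θ v : ℝ)
    (S : Finset M) (hS : ∀ a ∈ S, Sp p a) :
    ∑ a ∈ S, ‖FJ blk N (cc L p blk α v) γ
      (fun i => Complex.exp (((θ * L (p i) : ℝ) : ℂ) * Complex.I)) J (fun i => ex (p i) a)‖ ^ 2 *
        Real.exp (-(σ * L a)) ≤
      Wt L p blk J A B α g₁ σ * (Real.exp (36 * B₀) * (1 + R * |θ - v|) ^ (16 * B₀)) := by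
  classical
  have hB0 := hL.B0
  have hs1 : 0 < σ - 1 := by linarith
  have h3 := coef_multi hL hp hinj hγ0 hγ
    (y := fun i => Complex.exp (((θ * L (p i) : ℝ) : ℂ) * Complex.I))
    (c := cc L p blk α v) (fun i => Complex.norm_exp_ofReal_mul_I _) (cc_le hα v) blk N J A B hA hB
    (fun j hj e => hN j hj _ _ e) h1.le S hS
  refine h3.trans ?_
  set x : ι → ℝ := fun i => Real.exp (-(σ * L (p i))) with hx
  have hx0 : ∀ i, 0 ≤ x i := fun i => (Real.exp_pos _).le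
  set q : ι → ℝ := fun i => 16 * (1 - Real.exp (-(min |θ - v| (1 / 2) * L (p i)))) with hq
  have hq0 : ∀ i, 0 ≤ q i := fun i => by
    have : 0 ≤ min |θ - v| (1 / 2) * L (p i) :=
      mul_nonneg (le_min (abs_nonneg _) (by norm_num)) (lp_pos hL (hp i)).le
    have h4 : Real.exp (-(min |θ - v| (1 / 2) * L (p i))) ≤ 1 := by
      rw [Real.exp_le_one_iff]; linarith
    simp only [hq]
    linarith
  set r : ι → ℝ := fun i => q i * x i + 18 * x i ^ 2 with hr
  have hr0 : ∀ i, 0 ≤ r i := fun i => by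
    have := hq0 i
    have := hx0 i
    simp only [hr]
    positivity
  -- the total of the errors
  have hrt : ∑ i, r i ≤ 16 * (B₀ * Real.log (1 + R * |θ - v|)) + 36 * B₀ := by
    have hw : 0 ≤ min |θ - v| (1 / 2) := le_min (abs_nonneg _) (by norm_num)
    have h5 := psum_w hL hp hinj h1 h2 hw (min_le_right _ _)
    have h7 := psum_sq hL hp hinj h1.le
    have e1 : ∑ i, r i = 16 * ∑ i, (1 - Real.exp (-(min |θ - v| (1 / 2) * L (p i)))) *
        Real.exp (-(σ * L (p i))) + 18 * ∑ i, Real.exp (-(σ * L (p i))) ^ 2 := by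
      simp only [hr, hq, hx]
      rw [Finset.sum_add_distrib, Finset.mul_sum, Finset.mul_sum]
      refine congrArg₂ _ (Finset.sum_congr rfl fun i _ => by ring) rfl
    rw [e1]
    have hinv : 1 / (σ - 1) ≤ R := by
      rw [div_le_iff₀ hs1]
      rw [div_le_iff₀ hR] at hR2
      linarith
    have e2 : Real.log (1 + min |θ - v| (1 / 2) / (σ - 1)) ≤ Real.log (1 + R * |θ - v|) := by
      refine Real.log_le_log (by positivity) ?_
      have h8 : min |θ - v| (1 / 2) / (σ - 1) ≤ R * min |θ - v| (1 / 2) := by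
        rw [div_eq_mul_one_div, mul_comm]
        exact mul_le_mul_of_nonneg_right hinv hw
      have h9 : R * min |θ - v| (1 / 2) ≤ R * |θ - v| :=
        mul_le_mul_of_nonneg_left (min_le_left _ _) hR.le
      linarith
    have e3 := mul_le_mul_of_nonneg_left e2 hB0
    linarith
  -- the local bounds
  have hlocal : ∀ i, ‖γ 1 * Complex.exp (((θ * L (p i) : ℝ) : ℂ) * Complex.I) +
      cc L p blk α v i‖ ^ 2 * x i + 18 * x i ^ 2 ≤ (g₁ + α (blk i)) ^ 2 * x i + r i := by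
    intro i
    rw [hγ1]
    have h8 := loc2 (θ := θ) (v := v) hg (hα (blk i)) (hL.prime (p i) (hp i))
    have h9 := mul_le_mul_of_nonneg_right h8 (hx0 i)
    unfold cc
    simp only [hr, hq]
    linarith
  have hfac : ∀ j ∈ J, A j * Real.exp (∑ i with blk i = j,
      (‖γ 1 * Complex.exp (((θ * L (p i) : ℝ) : ℂ) * Complex.I) + cc L p blk α v i‖ ^ 2 * x i +
        18 * x i ^ 2)) + B j * Real.exp (∑ i with blk i = j, 800 * x i) ≤
      (A j * Real.exp (∑ i with blk i = j, (g₁ + α j) ^ 2 * x i) +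
        B j * Real.exp (∑ i with blk i = j, 800 * x i)) * Real.exp (∑ i with blk i = j, r i) := by
    intro j hj
    have a0 := hA j hj
    have b0 := hB j hj
    rw [add_mul]
    refine add_le_add ?_ ?_
    · rw [mul_assoc, ← Real.exp_add, ← Finset.sum_add_distrib]
      refine mul_le_mul_of_nonneg_left (Real.exp_le_exp.mpr (Finset.sum_le_sum fun i hi => ?_)) a0
      have h10 := hlocal i
      rw [(Finset.mem_filter.mp hi).2] at h10
      exact h10
    · refine le_mul_of_one_le_right (by positivity) (Real.one_le_exp ?_)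
      exact Finset.sum_nonneg fun i _ => hr0 i
  have hrest : Real.exp (∑ i with blk i ∉ J,
      (‖γ 1 * Complex.exp (((θ * L (p i) : ℝ) : ℂ) * Complex.I)‖ ^ 2 * x i + 18 * x i ^ 2)) ≤
      Real.exp (∑ i with blk i ∉ J, g₁ ^ 2 * x i) * Real.exp (∑ i with blk i ∉ J, r i) := by
    rw [← Real.exp_add, ← Finset.sum_add_distrib]
    refine Real.exp_le_exp.mpr (Finset.sum_le_sum fun i _ => ?_)
    rw [norm_mul, Complex.norm_exp_ofReal_mul_I, mul_one, hγ1, Complex.norm_real, Real.norm_eq_abs,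
      sq_abs]
    have := hq0 i
    have := hx0 i
    simp only [hr]
    have : 0 ≤ q i * x i := by positivity
    linarith
  have hprod : (∏ j ∈ J, (A j * Real.exp (∑ i with blk i = j,
      (‖γ 1 * Complex.exp (((θ * L (p i) : ℝ) : ℂ) * Complex.I) + cc L p blk α v i‖ ^ 2 * x i +
        18 * x i ^ 2)) + B j * Real.exp (∑ i with blk i = j, 800 * x i))) ≤
      (∏ j ∈ J, (A j * Real.exp (∑ i with blk i = j, (g₁ + α j) ^ 2 * x i) +
        B j * Real.exp (∑ i with blk i = j, 800 * x i))) *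
        Real.exp (∑ i with blk i ∈ J, r i) := by
    rw [← Finset.sum_fiberwise_eq_sum_filter, Real.exp_sum, ← Finset.prod_mul_distrib]
    refine Finset.prod_le_prod (fun j hj => ?_) hfac
    have := hA j hj
    have := hB j hj
    positivity
  have hsplit : Real.exp (∑ i with blk i ∈ J, r i) * Real.exp (∑ i with blk i ∉ J, r i) ≤
      Real.exp (36 * B₀) * (1 + R * |θ - v|) ^ (16 * B₀) := by
    rw [← Real.exp_add, Finset.sum_filter_add_sum_filter_not]
    have g2 : 0 < 1 + R * |θ - v| := by positivity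
    rw [Real.rpow_def_of_pos g2, ← Real.exp_add]
    refine Real.exp_le_exp.mpr (hrt.trans (le_of_eq ?_))
    ring
  refine (mul_le_mul hprod hrest (Real.exp_pos _).le ?_).trans ?_
  · refine mul_nonneg (Finset.prod_nonneg fun j hj => ?_) (Real.exp_pos _).le
    have := hA j hj
    have := hB j hj
    positivity
  · unfold Wt
    have hW0 : 0 ≤ (∏ j ∈ J, (A j * Real.exp (∑ i with blk i = j, (g₁ + α j) ^ 2 * x i) +
        B j * Real.exp (∑ i with blk i = j, 800 * x i))) *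
        Real.exp (∑ i with blk i ∉ J, g₁ ^ 2 * x i) := by
      refine mul_nonneg (Finset.prod_nonneg fun j hj => ?_) (Real.exp_pos _).le
      have := hA j hj
      have := hB j hj
      positivity
    calc _ = ((∏ j ∈ J, (A j * Real.exp (∑ i with blk i = j, (g₁ + α j) ^ 2 * x i) +
        B j * Real.exp (∑ i with blk i = j, 800 * x i))) *
        Real.exp (∑ i with blk i ∉ J, g₁ ^ 2 * x i)) *
        (Real.exp (∑ i with blk i ∈ J, r i) * Real.exp (∑ i with blk i ∉ J, r i)) := by ring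
      _ ≤ _ := mul_le_mul_of_nonneg_left hsplit hW0

/-- **The mean square of the coefficients with a smooth cut-off** -/
theorem CJ_sq {L : M → ℝ} {B₀ : ℝ} (hL : LNorm L B₀) {f gh : ℝ → ℂ} (h : Fr f gh) {k : ℕ}
    (hk : 32 * B₀ ≤ k) : ∃ C : ℝ, 0 ≤ C ∧
    ∀ (ι : Type) [Fintype ι] (p : ι → M), (∀ i, Prime (p i)) → Function.Injective p →
    ∀ (γ : ℕ → ℂ) (g₁ : ℝ), (g₁ = 0 ∨ g₁ = 1) → γ 0 = 1 → (∀ e, ‖γ e‖ ≤ 1) → γ 1 = (g₁ : ℂ) →
    ∀ (blk : ι → ℕ) (N : ℕ → Finset ℕ) (J : Finset ℕ) (A B α : ℕ → ℝ), (∀ j, |α j| ≤ 1) →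
    (∀ j ∈ J, 0 ≤ A j) → (∀ j ∈ J, 0 ≤ B j) →
    (∀ j ∈ J, ∀ (c : ι → ℂ) (y : ι → ℂ) (e : ι → ℕ), ‖UN (N j) c γ y e‖ ^ 2 ≤
      A j * ∏ i, lam (c i) γ (y i) (e i) + B j * ∏ i, lamh (c i) γ (y i) (e i)) →
    ∀ (x R v : ℝ), 1 < 2 * x → 2 * x ≤ 3 / 2 → 0 < R → 1 / R ≤ 2 * x - 1 →
    ∀ S : Finset M, (∀ a ∈ S, Sp p a) →
    ∑ a ∈ S, ‖CJ L p R x gh blk N (cc L p blk α v) γ J a‖ ^ 2 ≤
      C * (Wt L p blk J A B α g₁ (2 * x) * (1 + R * |v|) ^ k) := by
  have h' := h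
  obtain ⟨hgc, hi, hf⟩ := h'
  have hi0 : Integrable fun u => ‖gh u‖ := by
    refine (hi 0).congr (Filter.Eventually.of_forall fun u => ?_)
    simp
  obtain ⟨I0, hI0⟩ : ∃ I0 : ℝ, I0 = ∫ u, ‖gh u‖ := ⟨_, rfl⟩
  obtain ⟨Ik, hIk⟩ : ∃ Ik : ℝ, Ik = ∫ u, (1 + |u|) ^ k * ‖gh u‖ := ⟨_, rfl⟩
  have hI00 : 0 ≤ I0 := by rw [hI0]; exact integral_nonneg fun _ => norm_nonneg _
  have hIk0 : 0 ≤ Ik := by rw [hIk]; exact integral_nonneg fun _ => by positivity
  refine ⟨I0 * ((Real.exp (36 * B₀) * 7 ^ k) * Ik), by positivity, ?_⟩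
  intro ι _ p hp hinj γ g₁ hg hγ0 hγ hγ1 blk N J A B α hα hA hB hN x R v h1 h2 hR hR2 S hS
  have hB0 := hL.B0
  set c : ι → ℂ := cc L p blk α v with hcdef
  have hc : ∀ i, ‖c i‖ ≤ 1 := cc_le hα v
  set H : M → ℝ → ℂ := fun a u => FJ blk N c γ (yy L p R u) J (fun i => ex (p i) a) with hH
  have hHc : ∀ a, Continuous (H a) := fun a => FJ_cont L p R blk N c γ J _
  have hHb : ∀ a, ∃ B, ∀ u, ‖H a u‖ ≤ B := fun a => FJ_bdd L p R blk N hc hγ J _
  choose Bd hBd using hHb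
  have i2 : ∀ a, Integrable fun u => ‖gh u‖ * ‖H a u‖ ^ 2 := fun a =>
    hi0.mul_bdd (c := Bd a ^ 2) ((hHc a).norm.pow 2).aestronglyMeasurable
      (Filter.Eventually.of_forall fun u => by
        rw [Real.norm_of_nonneg (by positivity)]
        exact pow_le_pow_left₀ (norm_nonneg _) (hBd a u) 2)
  have hcs : ∀ a ∈ S, ‖CJ L p R x gh blk N c γ J a‖ ^ 2 ≤
      I0 * ∫ u, ‖gh u‖ * (‖H a u‖ ^ 2 * Real.exp (-(2 * x * L a))) := by
    intro a ha
    unfold CJ
    have e := cs_int hgc hi0 (hHc a) (hBd a)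
    rw [← hI0] at e
    have e2 : ∫ u, ‖gh u‖ * (‖H a u‖ ^ 2 * Real.exp (-(2 * x * L a))) =
        (∫ u, ‖gh u‖ * ‖H a u‖ ^ 2) * Real.exp (-(2 * x * L a)) := by
      rw [← integral_mul_const]
      refine integral_congr_ae (Filter.Eventually.of_forall fun u => ?_)
      simp only
      ring
    rw [e2, ← mul_assoc, norm_mul, mul_pow, Complex.norm_real,
      Real.norm_of_nonneg (Real.exp_pos _).le, ← Real.exp_nat_mul, mul_comm]
    have e3 : ((2 : ℕ) : ℝ) * -(x * L a) = -(2 * x * L a) := by push_cast; ring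
    rw [e3]
    exact mul_le_mul_of_nonneg_right e (Real.exp_pos _).le
  refine (Finset.sum_le_sum hcs).trans ?_
  rw [← Finset.mul_sum]
  have i3 : ∀ a ∈ S, Integrable fun u => ‖gh u‖ * (‖H a u‖ ^ 2 * Real.exp (-(2 * x * L a))) := by
    intro a _
    refine ((i2 a).mul_const (Real.exp (-(2 * x * L a)))).congr
      (Filter.Eventually.of_forall fun u => ?_)
    simp only
    ring
  rw [← integral_finsetSum _ i3]
  obtain ⟨W, hW⟩ : ∃ W : ℝ, W = Wt L p blk J A B α g₁ (2 * x) := ⟨_, rfl⟩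
  have hW0 : 0 ≤ W := by rw [hW]; exact Wt_nn hA hB
  rw [← hW]
  have e4 : I0 * ((Real.exp (36 * B₀) * 7 ^ k) * Ik) * (W * (1 + R * |v|) ^ k) =
      I0 * ∫ u, ((1 + |u|) ^ k * ‖gh u‖) *
        ((Real.exp (36 * B₀) * 7 ^ k) * (W * (1 + R * |v|) ^ k)) := by
    rw [integral_mul_const, ← hIk]
    ring
  rw [e4]
  refine mul_le_mul_of_nonneg_left ?_ hI00
  refine integral_mono (integrable_finsetSum _ i3) ((hi k).mul_const _) fun u => ?_
  simp only
  rw [← Finset.mul_sum]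
  have e5 := coef_two hL hp hinj hg hγ0 hγ hγ1 blk N J A B α hα hA hB hN (σ := 2 * x) (R := R)
    h1 h2 hR hR2 (2 * Real.pi * u / R) v S hS
  rw [← hW] at e5
  have e6 : (1 + R * |2 * Real.pi * u / R - v|) ^ (16 * B₀) ≤
      (7 : ℝ) ^ k * (1 + |u|) ^ k * (1 + R * |v|) ^ k := by
    have b1 : 1 ≤ 1 + R * |2 * Real.pi * u / R - v| := by
      have : 0 ≤ R * |2 * Real.pi * u / R - v| := by positivity
      linarith
    have b2 : 16 * B₀ ≤ k := by linarith
    refine (Real.rpow_le_rpow_of_exponent_le b1 b2).trans ?_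
    rw [Real.rpow_natCast, ← mul_pow, ← mul_pow]
    refine pow_le_pow_left₀ (by linarith) ?_ k
    have b4 : R * |2 * Real.pi * u / R - v| ≤ R * |v| + 6.4 * |u| := by
      have b5 : |2 * Real.pi * u / R - v| ≤ |2 * Real.pi * u / R| + |v| := abs_sub _ _
      have b6 : |2 * Real.pi * u / R| = 2 * Real.pi * |u| / R := by
        rw [abs_div, abs_mul, abs_of_pos hR, abs_of_pos (by positivity : 0 < 2 * Real.pi)]
      rw [b6] at b5
      have b7 : R * (2 * Real.pi * |u| / R + |v|) = 2 * Real.pi * |u| + R * |v| := by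
        field_simp
      have b8 := mul_le_mul_of_nonneg_left b5 hR.le
      rw [b7] at b8
      have b9 : 2 * Real.pi * |u| ≤ 6.4 * |u| := by
        have := Real.pi_lt_d2
        have := abs_nonneg u
        nlinarith
      linarith
    have c1 := abs_nonneg u
    have c2 : 0 ≤ R * |v| := by positivity
    nlinarith [mul_nonneg c1 c2]
  have e8 : ∑ a ∈ S, ‖H a u‖ ^ 2 * Real.exp (-(2 * x * L a)) ≤
      (Real.exp (36 * B₀) * 7 ^ k) * ((1 + |u|) ^ k * (W * (1 + R * |v|) ^ k)) := by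
    refine e5.trans ?_
    calc _ ≤ W * (Real.exp (36 * B₀) * ((7 : ℝ) ^ k * (1 + |u|) ^ k * (1 + R * |v|) ^ k)) := by
          gcongr
      _ = _ := by ring
  refine (mul_le_mul_of_nonneg_left e8 (norm_nonneg (gh u))).trans (le_of_eq ?_)
  ring

end

end Pool.Agent.N786.F
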