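import Pool.Agent.N786.F.Par

/-!
# The moments of a family: the general theorem (owner helper786)
-/

set_option autoImplicit false
set_option linter.unusedSectionVars false

open NumberField NumberField.Units MeasureTheory Complex Filter Topology Set

namespace Pool.Agent.N786.F

open Pool.Agent.N786
open Pool.Agent.N786.D
open Pool.Agent.N786.E
open Pool.Agent.Y773 (LI)
open Pool.Agent.Y767
open Pool.Agent.R399.TW (pt pt_re pt_im pt_cont)

/-- the number of the blocks -/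
lemma I_exists {x : ℝ} (hx : 1 ≤ x) : ∃ I : ℕ, x ≤ 8 ^ I ∧ (8 : ℝ) ^ I ≤ 8 * x := by
  obtain ⟨n, h1, h2⟩ := exists_nat_pow_near hx (show (1 : ℝ) < 8 by norm_num)
  refine ⟨n + 1, h2.le, ?_⟩
  rw [pow_succ]
  linarith

open Classical in
/-- **The moments of a family** -/
theorem mom_gen (K : Type) [Field K] [NumberField K] {α₃ A₀ : ℝ} (hα₃ : 1 / 2 < α₃)
    (hA₀ : 1 ≤ A₀) (n : ℕ) (hn : 1 ≤ n) :
    ∃ (R₀ C : ℝ) (E : ℕ), 1 ≤ R₀ ∧ 0 ≤ C ∧ ∀ (R T H P : ℝ) (S : Finset (Ideal (𝓞 K) →*₀ ℂ))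
      (ψ₀ : Ideal (𝓞 K) →*₀ ℂ) (F : (Ideal (𝓞 K) →*₀ ℂ) → ℂ → ℂ), R₀ ≤ R → 1 ≤ T → 0 ≤ H → H ≤ T →
      S.card * H ≤ P → LSP S ψ₀ H P ⌊Real.exp (α₃ * R)⌋₊ → (∀ lam, Continuous (F lam)) →
      (∀ lam ∈ S, GLf A₀ T R n (pr ψ₀ lam) (F lam)) →
      ∀ k : ℝ, 0 ≤ k → k ≤ 1 → ∀ t₀ : ℝ,
      ∑ lam ∈ S, ∫⁻ t in Icc t₀ (t₀ + H), ENNReal.ofReal (‖F lam (pt (1 / 2) t)‖ ^ (2 * k)) ≤
        ENNReal.ofReal (C * P * R ^ (k ^ 2) * (1 + |t₀| / T) ^ E) := by
  obtain ⟨g, hg⟩ : ∃ g : ℝ, g = min ((α₃ - 1 / 2) / 4) (1 / 4) := ⟨_, rfl⟩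
  have hg0 : 0 < g := by rw [hg]; exact lt_min (by linarith) (by norm_num)
  have hg1 : g ≤ 1 / 4 := by rw [hg]; exact min_le_right _ _
  have hg2 : 4 * g ≤ α₃ - 1 / 2 := by
    have : g ≤ (α₃ - 1 / 2) / 4 := by rw [hg]; exact min_le_left _ _
    linarith
  obtain ⟨φ, hφ⟩ := cut_exists (a := 1 / 2 + 2 * g) (b := 1 / 2 + 3 * g) (by linarith) (by linarith)
  obtain ⟨κ, k', E, hκ, hmean⟩ := mean_blk K hφ (α' := 1 / 2 + g) (by linarith) (by linarith) hA₀ n hn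
  obtain ⟨C₁, hC₁, hL⟩ := hmean κ le_rfl
  obtain ⟨C₂, hC₂, hP1⟩ := mean_one K κ hκ (α₂ := 1 / 2 + 3 * g) (by linarith)
  obtain ⟨C₃, c, c₀, hC₃, hc, hc₀, hWt⟩ := Wt_bd K
  -- the first block
  obtain ⟨q, hq1, hqg⟩ : ∃ q : ℕ, 1 ≤ q ∧ 60 / 2 ^ q ≤ g := by
    obtain ⟨q, hq⟩ := pow_unbounded_of_one_lt (60 / g) (show (1 : ℝ) < 2 by norm_num)
    refine ⟨q + 1, by omega, ?_⟩
    rw [div_le_iff₀ (by positivity)]
    rw [div_lt_iff₀ hg0] at hq
    rw [pow_succ]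
    nlinarith [mul_pos hg0 (show (0 : ℝ) < 2 ^ q by positivity)]
  obtain ⟨C₄, hC₄, hU⟩ := sum_U c hc q
  obtain ⟨R₁, hR₁, hlog1⟩ := log_sq_le (2 * (64 * c₀ ^ 2))
  obtain ⟨R₂, hR₂, hlog2⟩ := log_sq_le (4 * (35 * (8 * c₀) * Real.log (1 + ZK K)))
  obtain ⟨R₃, hR₃, hlog3⟩ := log_sq_le (8 * c₀)
  have hZ := ZK_nonneg (K := K)
  refine ⟨max (max (max R₁ R₂) (max R₃ (4 * κ))) (Real.exp (8 ^ q)),
    Real.exp 4 * ((C₁ + C₂) * C₃ * C₄), E, ?_, by positivity, ?_⟩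
  · exact le_max_of_le_left (le_max_of_le_left (le_max_of_le_left hR₁))
  intro R T H P S ψ₀ F hR hT hH hHT hcard hLS hFc hF k hk0 hk1 t₀
  have hRR1 : R₁ ≤ R := (le_max_left _ _).trans ((le_max_left _ _).trans
    ((le_max_left _ _).trans hR))
  have hRR2 : R₂ ≤ R := (le_max_right _ _).trans ((le_max_left _ _).trans
    ((le_max_left _ _).trans hR))
  have hRR3 : R₃ ≤ R := (le_max_left _ _).trans ((le_max_right _ _).trans
    ((le_max_left _ _).trans hR))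
  have hRκ : 4 * κ ≤ R := (le_max_right _ _).trans ((le_max_right _ _).trans
    ((le_max_left _ _).trans hR))
  have hRq : Real.exp (8 ^ q) ≤ R := (le_max_right _ _).trans hR
  have hR1 : 1 ≤ R := hR₁.trans hRR1
  have hR0 : 0 < R := by linarith
  have hlogR : 0 ≤ Real.log R := Real.log_nonneg hR1
  have hP0 : 0 ≤ P := le_trans (by positivity) hcard
  have hT0 : 0 < T := by linarith
  -- the number of the blocks
  obtain ⟨x, hx⟩ : ∃ x : ℝ, x = c₀ * (1 + Real.log R) := ⟨_, rfl⟩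
  have hx1 : 1 ≤ x := by rw [hx]; nlinarith
  obtain ⟨I, hI1, hI2⟩ := I_exists hx1
  have h8I : (0 : ℝ) < 8 ^ I := by positivity
  have hIR : (8 : ℝ) ^ I ≤ R := by
    refine hI2.trans ?_
    have := (hlog3 R hRR3).2
    rw [hx]
    linarith
  have h16 : 2 ≤ R / 16 ^ I := by
    rw [le_div_iff₀ (by positivity)]
    have h1 : (16 : ℝ) ^ I ≤ (8 ^ I) ^ 2 := by
      rw [← pow_mul, mul_comm, pow_mul]
      exact pow_le_pow_left₀ (by norm_num) (by norm_num) I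
    have h2 : ((8 : ℝ) ^ I) ^ 2 ≤ (8 * x) ^ 2 := pow_le_pow_left₀ h8I.le hI2 2
    have h3 := (hlog1 R hRR1).1
    have h4 : (8 * x) ^ 2 = 64 * c₀ ^ 2 * (1 + Real.log R) ^ 2 := by rw [hx]; ring
    rw [h4] at h2
    linarith
  have hsup : 35 * 8 ^ I * Real.log (1 + ZK K) ≤ R / 4 := by
    have h1 := (hlog2 R hRR2).2
    have h2 : 0 ≤ Real.log (1 + ZK K) := Real.log_nonneg (by linarith)
    have h3 : 35 * 8 ^ I * Real.log (1 + ZK K) ≤ 35 * (8 * x) * Real.log (1 + ZK K) := by gcongr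
    rw [hx] at h3
    linarith
  have hqI : q ≤ I := by
    by_contra hcon
    push Not at hcon
    have h1 : (8 : ℝ) ^ I ≤ 8 ^ q := pow_le_pow_right₀ (by norm_num) hcon.le
    have h2 : (8 : ℝ) ^ q ≤ Real.log R := by
      rw [Real.le_log_iff_exp_le hR0]
      exact hRq
    have h3 : 1 + Real.log R ≤ x := by
      rw [hx]
      nlinarith
    linarith
  have hcI : c₀ * (1 + Real.log R) ≤ 8 ^ I := by rw [← hx]; exact hI1
  obtain ⟨y, hy⟩ : ∃ y : ℝ, y = 1 / 2 + κ / R := ⟨_, rfl⟩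
  have hRk : 1 ≤ R ^ (k ^ 2) := Real.one_le_rpow hR1 (sq_nonneg k)
  have hk2 : k ^ 2 ≤ 1 := by nlinarith
  have hks : |k - 1| ≤ 1 := by rw [abs_le]; constructor <;> linarith
  have hks' : |k| ≤ 1 := by rw [abs_le]; constructor <;> linarith
  -- the two mean squares
  obtain ⟨W, hW⟩ : ∃ W : ℕ → ℝ, W = fun v => C₃ * R ^ (k ^ 2) * Uv c q I v := ⟨_, rfl⟩
  have hUpos : ∀ v, 0 < Uv c q I v := by
    intro v
    unfold Uv
    split_ifs <;> exact Real.exp_pos _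
  have hWpos : ∀ v, 0 < W v := fun v => by
    rw [hW]
    have := hUpos v
    have : 0 < R ^ (k ^ 2) := by linarith
    positivity
  have hWlow : ∀ v, v ≤ I + 1 → Real.exp (-R) ≤ W v := by
    intro v hv
    have h1 : Real.exp (-R) ≤ Uv c q I v := by
      unfold Uv
      split_ifs with h
      · refine Real.exp_le_exp.mpr ?_
        have : 0 ≤ c * (q : ℝ) := by positivity
        linarith
      · refine Real.exp_le_exp.mpr ?_
        have h2 : (8 : ℝ) ^ v ≤ 8 ^ I := pow_le_pow_right₀ (by norm_num) (by omega)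
        have : 0 ≤ c * (v : ℝ) := by positivity
        linarith
    rw [hW]
    simp only
    have h2 : 1 ≤ C₃ * R ^ (k ^ 2) := by nlinarith
    have h3 := hUpos v
    nlinarith
  have hmL : ∀ v ∈ Finset.Icc q (I + 1), JJ S F (fun lam => Mo (bI R I) (fun j => R / 16 ^ j) (NN v)
      (Jv q I v) (αα v (k - 1)) (pr ψ₀ lam)) (1 / 2) y H t₀ 0 ≤
      ENNReal.ofReal (P * (C₁ * W v) * (1 + |t₀| / T) ^ E) := by
    intro v hv
    obtain ⟨hv1, hv2⟩ := Finset.mem_Icc.mp hv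
    have h1 := hL (bI R I) (fun j => R / 16 ^ j) (fun j => 30 * 8 ^ j) (NN v) (Jv q I v) (Av v) (Bv v)
      (αα v (k - 1)) (bc_v hR0 hq1 hv1 hks) R T H P (W v) S ψ₀ F hRκ hT hH hHT hcard (hWlow v hv2)
      (fun M => by
        rw [hW]
        exact hWt M q I v R κ k 1 (k - 1) hq1 hv1 hv2 hqI h16 hκ hRκ hcI (by ring) (by norm_num) hk2)
      (fun lam hl t => Mo_sup hR0 hq1 hv1 hqg hg1 hsup hks (hF lam hl).le1 (by
        rw [pt_re]
        have : 0 ≤ κ / R := by positivity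
        linarith))
      (Pool.Agent.N786.E.LSP.mono hLS (len_le hR0 hv1 hqg (by linarith))) hFc hF t₀ 0
    rw [← hy] at h1
    refine h1.trans (le_of_eq ?_)
    unfold wt
    rw [abs_zero, mul_zero, add_zero, one_pow, one_mul]
  have hm1 : ∀ v ∈ Finset.Icc q (I + 1), JJ S (fun _ _ => 1) (fun lam => Mo (bI R I)
      (fun j => R / 16 ^ j) (NN v) (Jv q I v) (αα v k) (pr ψ₀ lam)) (1 / 2) y H t₀ 0 ≤
      ENNReal.ofReal (P * (C₂ * W v)) := by
    intro v hv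
    obtain ⟨hv1, hv2⟩ := Finset.mem_Icc.mp hv
    have h1 := hP1 (bI R I) (fun j => R / 16 ^ j) (fun j => 30 * 8 ^ j) (NN v) (Jv q I v) (Av v) (Bv v)
      (αα v k) (bc_v hR0 hq1 hv1 hks') R H P (W v) S ψ₀ hRκ hH hP0 (hWpos v).le
      (fun M => by
        rw [hW]
        exact hWt M q I v R κ k 0 k hq1 hv1 hv2 hqI h16 hκ hRκ hcI (by ring) (by norm_num) hk2)
      (Pool.Agent.N786.E.LSP.mono hLS (len_le hR0 hv1 hqg (by linarith))) t₀
    rw [← hy] at h1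
    exact h1
  -- the pointwise inequality
  have hpt : ∀ lam ∈ S, ∀ t : ℝ, ENNReal.ofReal (‖F lam (pt (1 / 2) t)‖ ^ (2 * k)) ≤
      ∑ v ∈ Finset.Icc q (I + 1), ENNReal.ofReal (Real.exp 4) *
      (ENNReal.ofReal (‖F lam (pt (1 / 2) t)‖ ^ 2 * ‖Mo (bI R I) (fun j => R / 16 ^ j) (NN v)
        (Jv q I v) (αα v (k - 1)) (pr ψ₀ lam) (pt y (t - 0))‖ ^ 2) +
      ENNReal.ofReal (‖(1 : ℂ)‖ ^ 2 * ‖Mo (bI R I) (fun j => R / 16 ^ j) (NN v)
        (Jv q I v) (αα v k) (pr ψ₀ lam) (pt y (t - 0))‖ ^ 2)) := by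
    intro lam _ t
    have h1 := ptw hqI (fun j => Pb (bI R I) (fun j => R / 16 ^ j) j (pr ψ₀ lam) (pt y t))
      (norm_nonneg (F lam (pt (1 / 2) t))) hk0 hk1
    refine (ENNReal.ofReal_le_ofReal h1).trans (le_of_eq ?_)
    rw [← Finset.mul_sum, ENNReal.ofReal_mul (Real.exp_pos _).le,
      ENNReal.ofReal_sum_of_nonneg fun v _ => by positivity]
    congr 1
    refine Finset.sum_congr rfl fun v _ => ?_
    rw [ENNReal.ofReal_add (by positivity) (by positivity), norm_one, one_pow, one_mul, sub_zero]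
    rfl
  have hmeas : ∀ (G : ℂ → ℂ) (α : ℕ → ℝ) (v : ℕ) (lam : Ideal (𝓞 K) →*₀ ℂ), Continuous G →
      Measurable fun t : ℝ => ENNReal.ofReal (‖G (pt (1 / 2) t)‖ ^ 2 *
        ‖Mo (bI R I) (fun j => R / 16 ^ j) (NN v) (Jv q I v) α (pr ψ₀ lam) (pt y (t - 0))‖ ^ 2) := by
    intro G α v lam hG
    refine Measurable.ennreal_ofReal (Continuous.measurable ?_)
    have c1 : Continuous fun t : ℝ => G (pt (1 / 2) t) := hG.comp (pt_cont _)
    have c2 : Continuous fun t : ℝ => Mo (bI R I) (fun j => R / 16 ^ j) (NN v) (Jv q I v) α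
        (pr ψ₀ lam) (pt y (t - 0)) :=
      (Mo_cont _ _ _ _ _ _).comp ((pt_cont _).comp (by fun_prop))
    exact (c1.norm.pow 2).mul (c2.norm.pow 2)
  have hsum : ∑ lam ∈ S, ∫⁻ t in Icc t₀ (t₀ + H), ENNReal.ofReal (‖F lam (pt (1 / 2) t)‖ ^ (2 * k)) ≤
      ∑ v ∈ Finset.Icc q (I + 1), ENNReal.ofReal (Real.exp 4) *
        (JJ S F (fun lam => Mo (bI R I) (fun j => R / 16 ^ j) (NN v)
          (Jv q I v) (αα v (k - 1)) (pr ψ₀ lam)) (1 / 2) y H t₀ 0 +
        JJ S (fun _ _ => 1) (fun lam => Mo (bI R I)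
          (fun j => R / 16 ^ j) (NN v) (Jv q I v) (αα v k) (pr ψ₀ lam)) (1 / 2) y H t₀ 0) := by
    unfold JJ
    simp only [← Finset.sum_add_distrib, Finset.mul_sum]
    rw [Finset.sum_comm]
    refine Finset.sum_le_sum fun lam hl => ?_
    refine (lintegral_mono (hpt lam hl)).trans (le_of_eq ?_)
    rw [lintegral_finsetSum _ (fun v _ => by
      refine Measurable.const_mul ?_ _
      exact (hmeas (F lam) _ v lam (hFc lam)).add (hmeas (fun _ => 1) _ v lam continuous_const))]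
    refine Finset.sum_congr rfl fun v _ => ?_
    rw [lintegral_const_mul' _ _ ENNReal.ofReal_ne_top, lintegral_add_left
        (hmeas (F lam) _ v lam (hFc lam))]
  refine hsum.trans ?_
  have hΘ : 1 ≤ (1 + |t₀| / T) ^ E := by
    refine one_le_pow₀ ?_
    have : 0 ≤ |t₀| / T := by positivity
    linarith
  calc _ ≤ ∑ v ∈ Finset.Icc q (I + 1), ENNReal.ofReal (Real.exp 4 *
        (P * ((C₁ + C₂) * W v) * (1 + |t₀| / T) ^ E)) := by
        refine Finset.sum_le_sum fun v hv => ?_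
        have hWv := (hWpos v).le
        rw [ENNReal.ofReal_mul (Real.exp_pos _).le]
        refine mul_le_mul_right ((add_le_add (hmL v hv) (hm1 v hv)).trans ?_) _
        rw [← ENNReal.ofReal_add (by positivity) (by positivity)]
        refine ENNReal.ofReal_le_ofReal ?_
        have h1 : P * (C₂ * W v) ≤ P * (C₂ * W v) * (1 + |t₀| / T) ^ E :=
          le_mul_of_one_le_right (by positivity) hΘ
        calc _ ≤ P * (C₁ * W v) * (1 + |t₀| / T) ^ E + P * (C₂ * W v) * (1 + |t₀| / T) ^ E := by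
              linarith
          _ = _ := by ring
    _ = ENNReal.ofReal (∑ v ∈ Finset.Icc q (I + 1), Real.exp 4 *
        (P * ((C₁ + C₂) * W v) * (1 + |t₀| / T) ^ E)) := by
        rw [ENNReal.ofReal_sum_of_nonneg]
        intro v _
        have hWv := (hWpos v).le
        positivity
    _ ≤ _ := by
        refine ENNReal.ofReal_le_ofReal ?_
        have h1 := hU I
        have e1 : ∑ v ∈ Finset.Icc q (I + 1), Real.exp 4 *
            (P * ((C₁ + C₂) * W v) * (1 + |t₀| / T) ^ E) =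
            Real.exp 4 * (P * ((C₁ + C₂) * (C₃ * R ^ (k ^ 2))) * (1 + |t₀| / T) ^ E) *
              ∑ v ∈ Finset.Icc q (I + 1), Uv c q I v := by
          rw [Finset.mul_sum]
          refine Finset.sum_congr rfl fun v _ => ?_
          rw [hW]
          ring
        rw [e1]
        calc _ ≤ Real.exp 4 * (P * ((C₁ + C₂) * (C₃ * R ^ (k ^ 2))) * (1 + |t₀| / T) ^ E) * C₄ :=
              mul_le_mul_of_nonneg_left h1 (by positivity)
          _ = _ := by ring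

end Pool.Agent.N786.F
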