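import Pool.Agent.N786.F.Fob
import Pool.Agent.N786.E.Mtk

/-!
# The mean square of a Dirichlet polynomial and truncated exponentials over blocks
(owner helper786)
-/

set_option autoImplicit false
set_option linter.unusedSectionVars false

open NumberField NumberField.Units MeasureTheory Complex Filter Topology Set

namespace Pool.Agent.N786.F

open Pool.Agent.N786
open Pool.Agent.N786.D
open Pool.Agent.N786.E
open Pool.Agent.Y767
open Pool.Agent.R399.TW (pt pt_re pt_im pt_cont)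

section

variable {K : Type} [Field K] [NumberField K]

open Classical in
/-- the sum over the primes of the block `j` -/
noncomputable def Pb (bi : ℝ → ℕ) (Y : ℕ → ℝ) (j : ℕ) (χ : Ideal (𝓞 K) →*₀ ℂ) (s : ℂ) : ℂ :=
  ∑ 𝔭 ∈ (SI K ⌊Real.exp (Y j)⌋₊).filter (fun 𝔭 => Prime 𝔭 ∧ bi (lN 𝔭) = j),
    χ 𝔭 * cexp (-(s * (lN 𝔭 : ℂ)))

lemma Pb_diff (bi : ℝ → ℕ) (Y : ℕ → ℝ) (j : ℕ) (χ : Ideal (𝓞 K) →*₀ ℂ) :
    Differentiable ℂ (Pb bi Y j χ) := by
  unfold Pb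
  fun_prop

lemma TN_diff (N : Finset ℕ) : Differentiable ℂ (TN N) := by
  unfold TN
  fun_prop

/-- the block of a prime -/
noncomputable def bk (K : Type) [Field K] [NumberField K] (M : ℕ) (bi : ℝ → ℕ) (i : PT K M) : ℕ :=
  bi (lN i.1)

lemma Pb_eq {M : ℕ} {bi : ℝ → ℕ} {Y : ℕ → ℝ} {j : ℕ} {x v : ℝ} {α : ℕ → ℝ}
    (hM : ⌊Real.exp (Y j)⌋₊ ≤ M) (hbi : ∀ y, bi y = j → y ≤ Y j) (χ : Ideal (𝓞 K) →*₀ ℂ) (t : ℝ) :
    (α j : ℂ) * Pb bi Y j χ (pt x (t - v)) = ∑ i : PT K M,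
      ((Real.exp (-(x * lN i.1)) : ℂ) * cb (bk K M bi) (cc lN (fun i : PT K M => i.1)
        (bk K M bi) α v) j i) * (χ i.1 * ph i.1 t) := by
  classical
  obtain ⟨F, hF⟩ : ∃ F : Ideal (𝓞 K) → ℂ, F = fun 𝔭 => ((Real.exp (-(x * lN 𝔭)) : ℂ) *
      (if bi (lN 𝔭) = j then (α (bi (lN 𝔭)) : ℂ) * cexp (((v * lN 𝔭 : ℝ) : ℂ) * I) else 0)) *
          (χ 𝔭 * ph 𝔭 t) := ⟨_, rfl⟩
  have e0 : ∀ i : PT K M, ((Real.exp (-(x * lN i.1)) : ℂ) * cb (bk K M bi)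
      (cc lN (fun i : PT K M => i.1) (bk K M bi) α v) j i) * (χ i.1 * ph i.1 t) = F i.1 := by
    intro i
    rw [hF]
    unfold cb cc bk
    rfl
  rw [Finset.sum_congr rfl fun i _ => e0 i, sum_PT M F, hF]
  unfold Pb
  rw [Finset.mul_sum]
  have hsub : (SI K ⌊Real.exp (Y j)⌋₊).filter (fun 𝔭 => Prime 𝔭 ∧ bi (lN 𝔭) = j) ⊆
      (SI K M).filter Prime := by
    intro 𝔭 h
    rw [Finset.mem_filter] at h ⊢
    exact ⟨SI_of (SI_ne h.1) ((mem_SI.mp h.1).2.trans hM), h.2.1⟩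
  rw [← Finset.sum_subset hsub]
  · refine Finset.sum_congr rfl fun 𝔭 h => ?_
    rw [Finset.mem_filter] at h
    rw [if_pos h.2.2, h.2.2, exp_pt, ph_sub']
    ring
  · intro 𝔭 h h2
    rw [Finset.mem_filter] at h h2
    rw [if_neg]
    · ring
    · intro h3
      exact h2 ⟨SI_of (SI_ne h.1) ((lN_le_iff (SI_ne h.1) _).mp (hbi _ h3)), h.2, h3⟩

/-- the two cases: `g = 1` and `g` the unit of the convolution -/
structure GT (g : Ideal (𝓞 K) → ℂ) (γ : ℕ → ℂ) (g₁ : ℝ) : Prop where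
  hs : g₁ = 0 ∨ g₁ = 1
  g0 : γ 0 = 1
  gle : ∀ e, ‖γ e‖ ≤ 1
  g1 : γ 1 = (g₁ : ℂ)
  gg : ∀ (M : ℕ) (b : Ideal (𝓞 K)), Sp (fun i : PT K M => i.1) b →
    g b = ∏ i : PT K M, γ (ex i.1 b)

lemma GT_one : GT (K := K) (fun _ => 1) (fun _ => 1) 1 where
  hs := Or.inr rfl
  g0 := rfl
  gle _ := by simp
  g1 := by simp
  gg M b _ := by simp

open Classical in
lemma GT_del : GT (K := K) (fun b => if b = 1 then 1 else 0) (fun e => if e = 0 then 1 else 0) 0 where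
  hs := Or.inl rfl
  g0 := by simp
  gle e := by
    split_ifs <;> simp
  g1 := by simp
  gg M b hb := by
    have hp : ∀ i : PT K M, Prime i.1 := fun i => i.2.2
    have hinj : Function.Injective (fun i : PT K M => i.1) := Subtype.val_injective
    have hbe := hb.eq_pe hp hinj
    by_cases h : ∀ i : PT K M, ex i.1 b = 0
    · have h1 : b = 1 := by
        rw [← hbe]
        unfold pe
        exact Finset.prod_eq_one fun i _ => by
          change i.1 ^ ex i.1 b = 1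
          rw [h i, pow_zero]
      rw [if_pos h1]
      symm
      exact Finset.prod_eq_one fun i _ => by rw [if_pos (h i)]
    · have h1 : b ≠ 1 := by
        intro h2
        apply h
        intro i
        rw [h2]
        unfold ex
        rw [UniqueFactorizationMonoid.normalizedFactors_one]
        simp
      rw [if_neg h1]
      push Not at h
      obtain ⟨i, hi⟩ := h
      symm
      exact Finset.prod_eq_zero (Finset.mem_univ i) (by rw [if_neg hi])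

lemma Gd_del {φ : ℝ → ℝ} (hφ : φ 0 = 1) (R : ℝ) {M₁ : ℕ} (hM : 1 ≤ M₁)
    (ψ₀ lam : Ideal (𝓞 K) →*₀ ℂ) (s : ℂ) :
    haveI := Classical.decEq (Ideal (𝓞 K))
    Gd (fun b => if b = 1 then 1 else 0) φ R M₁ ψ₀ lam s = 1 := by
  classical
  unfold Gd dpo
  have h1 : (1 : Ideal (𝓞 K)) ∈ SI K M₁ := SI_of one_ne_zero (by rw [map_one]; exact hM)
  rw [Finset.sum_eq_single_of_mem 1 h1]
  · have h2 : lN (1 : Ideal (𝓞 K)) = 0 := by
      unfold lN
      rw [map_one]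
      simp
    simp only [h2, zero_div, hφ, map_one, if_true]
    simp
  · intro b _ hb
    simp only [if_neg hb, zero_mul]

open Classical in
lemma prod_blk {f gh : ℝ → ℂ} (h : Fr f gh) {M M₁ : ℕ} {R x v : ℝ} {bi : ℝ → ℕ} {Y : ℕ → ℝ}
    {D : ℕ → ℕ} {N : ℕ → Finset ℕ} {α : ℕ → ℝ} (hα : ∀ j, |α j| ≤ 1)
    {g : Ideal (𝓞 K) → ℂ} {γ : ℕ → ℂ} {g₁ : ℝ} (hg : GT g γ g₁)
    (hf0 : ∀ b : Ideal (𝓞 K), b ≠ 0 → b ∉ SI K M₁ → f (lN b / R) = 0) (J : Finset ℕ)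
    (hbi : ∀ j ∈ J, ∀ y, bi y = j → y ≤ Y j) (hY : ∀ j ∈ J, 0 < Y j)
    (hN : ∀ j ∈ J, ∀ n ∈ N j, n ≤ D j)
    (hM : M₁ * ∏ j ∈ J, ⌊Real.exp (D j * Y j)⌋₊ ≤ M) :
    (∀ b, Sp (fun i : PT K M => i.1) b → b ∉ SI K (M₁ * ∏ j ∈ J, ⌊Real.exp (D j * Y j)⌋₊) →
      CJ lN (fun i : PT K M => i.1) R x gh (bk K M bi) N
        (cc lN (fun i : PT K M => i.1) (bk K M bi) α v) γ J b = 0) ∧
    ∀ (χ : Ideal (𝓞 K) →*₀ ℂ) (t : ℝ), (∑ 𝔞 ∈ SI K M₁,
      (g 𝔞 * (f (lN 𝔞 / R) * (Real.exp (-(x * lN 𝔞)) : ℂ))) * (χ 𝔞 * ph 𝔞 t)) *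
      ∏ j ∈ J, TN (N j) (∑ i : PT K M, ((Real.exp (-(x * lN i.1)) : ℂ) * cb (bk K M bi)
        (cc lN (fun i : PT K M => i.1) (bk K M bi) α v) j i) * (χ i.1 * ph i.1 t)) =
      ∑ 𝔞 ∈ SI K (M₁ * ∏ j ∈ J, ⌊Real.exp (D j * Y j)⌋₊), CJ lN (fun i : PT K M => i.1) R x gh
        (bk K M bi) N (cc lN (fun i : PT K M => i.1) (bk K M bi) α v) γ J 𝔞 *
          (χ 𝔞 * ph 𝔞 t) := by
  have hp : ∀ i : PT K M, Prime i.1 := fun i => i.2.2
  have hinj : Function.Injective (fun i : PT K M => i.1) := Subtype.val_injective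
  have hL := lN_norm K
  set c' := cc lN (fun i : PT K M => i.1) (bk K M bi) α v with hc'
  have hcle : ∀ i, ‖c' i‖ ≤ 1 := cc_le hα v
  induction J using Finset.induction_on with
  | empty =>
    simp only [Finset.prod_empty, mul_one] at hM ⊢
    constructor
    · intro b hb hb2
      rw [CJ_empty hL h hp hinj R x (bk K M bi) N c' (hg.gg M) hb, hf0 b hb.1 hb2]
      ring
    · intro χ t
      refine Finset.sum_congr rfl fun 𝔞 h𝔞 => ?_
      rw [CJ_empty hL h hp hinj R x (bk K M bi) N c' (hg.gg M)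
        (Sp_SI (SI_of (SI_ne h𝔞) ((mem_SI.mp h𝔞).2.trans hM)))]
  | insert j J hj ih =>
    have hjm : j ∈ insert j J := Finset.mem_insert_self _ _
    have hJm : ∀ i ∈ J, i ∈ insert j J := fun i hi => Finset.mem_insert_of_mem hi
    obtain ⟨E, hE⟩ : ∃ E : ℕ, E = ⌊Real.exp (D j * Y j)⌋₊ := ⟨_, rfl⟩
    have hE1 : 1 ≤ E := by
      rw [hE, Nat.one_le_floor_iff]
      exact Real.one_le_exp (mul_nonneg (Nat.cast_nonneg _) (hY j hjm).le)
    obtain ⟨M₂, hM₂⟩ : ∃ M₂ : ℕ, M₂ = M₁ * ∏ j ∈ J, ⌊Real.exp (D j * Y j)⌋₊ := ⟨_, rfl⟩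
    have hM₃ : M₁ * ∏ j ∈ insert j J, ⌊Real.exp (D j * Y j)⌋₊ = M₂ * E := by
      rw [Finset.prod_insert hj, hM₂, hE]
      ring
    rw [hM₃] at hM ⊢
    have hM₂M : M₂ ≤ M := (Nat.le_mul_of_pos_right _ hE1).trans hM
    obtain ⟨ih1, ih2⟩ := ih (fun i hi => hbi i (hJm i hi)) (fun i hi => hY i (hJm i hi))
      (fun i hi => hN i (hJm i hi)) (by rw [← hM₂]; exact hM₂M)
    rw [← hM₂] at ih1
    rw [← hM₂] at ih2
    -- the size of a product of primes of the block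
    have hsize : ∀ k : PT K M → ℕ, ∑ i, k i ∈ N j → (∀ i, k i ≠ 0 →
        (Real.exp (-(x * lN i.1)) : ℂ) * cb (bk K M bi) c' j i ≠ 0) →
        Ideal.absNorm (pe (fun i : PT K M => i.1) k) ≤ E := by
      intro k hk hck
      have hpe : pe (fun i : PT K M => i.1) k ≠ 0 := pe_ne hp k
      rw [hE, ← lN_le_iff hpe, L_pe hL hp]
      calc ∑ i, (k i : ℝ) * lN i.1 ≤ ∑ i, (k i : ℝ) * Y j := by
            refine Finset.sum_le_sum fun i _ => ?_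
            rcases Nat.eq_zero_or_pos (k i) with h0 | h0
            · rw [h0]; simp
            · refine mul_le_mul_of_nonneg_left ?_ (Nat.cast_nonneg _)
              have h1 := hck i (by omega)
              refine hbi j hjm _ ?_
              by_contra h2
              apply h1
              unfold cb bk
              rw [if_neg h2, mul_zero]
        _ = ((∑ i, k i : ℕ) : ℝ) * Y j := by
            rw [← Finset.sum_mul]
            push_cast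
            rfl
        _ ≤ D j * Y j := by
            have h1 := hN j hjm _ hk
            exact mul_le_mul_of_nonneg_right (by exact_mod_cast h1) (hY j hjm).le
    constructor
    · intro b hb hb2
      rw [← CJ_step hL h hp hinj R x (bk K M bi) N hcle hg.g0 hg.gle J j hj hb]
      unfold uN
      refine Finset.sum_eq_zero fun k hk => ?_
      rw [mem_bn] at hk
      by_cases hc0 : ∀ i, k i ≠ 0 → (Real.exp (-(x * lN i.1)) : ℂ) * cb (bk K M bi) c' j i ≠ 0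
      · have h1 := hsize k hk.2 hc0
        rw [ih1 _ (Sp_pe hp _), mul_zero]
        intro h2
        apply hb2
        have hmul : pe (fun i : PT K M => i.1) (fun i => ex i.1 b - k i) *
            pe (fun i : PT K M => i.1) k = b := by
          conv_rhs => rw [← hb.eq_pe hp hinj]
          unfold pe
          rw [← Finset.prod_mul_distrib]
          refine Finset.prod_congr rfl fun i _ => ?_
          rw [← pow_add]
          congr 1
          exact Nat.sub_add_cancel (hk.1 i)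
        refine SI_of hb.1 ?_
        rw [← hmul, map_mul]
        exact Nat.mul_le_mul (mem_SI.mp h2).2 h1
      · push Not at hc0
        obtain ⟨i, hi, hi2⟩ := hc0
        rw [Finset.prod_eq_zero (Finset.mem_univ i), zero_mul]
        simp only
        rw [hi2, zero_pow hi, zero_div]
    · intro χ t
      rw [Finset.prod_insert hj]
      have h1 := ih2 χ t
      have h2 := prod_TN hp hinj (N j) (D j) (hN j hjm)
        (fun i => (Real.exp (-(x * lN i.1)) : ℂ) * cb (bk K M bi) c' j i)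
        (CJ lN (fun i : PT K M => i.1) R x gh (bk K M bi) N c' γ J) (fun 𝔞 => χ 𝔞 * ph 𝔞 t)
        (by rw [map_one, ph_one, one_mul])
        (by
          intro a b ha hb
          rw [map_mul, ph_mul ha hb]
          ring) (SI K M₂) (SI K (M₂ * E))
        (fun b hb => Sp_SI (SI_of (SI_ne hb) ((mem_SI.mp hb).2.trans hM₂M)))
        ih1
        (by
          intro b hb k hk hck
          refine SI_of (mul_ne_zero (SI_ne hb) (pe_ne hp k)) ?_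
          rw [map_mul]
          exact Nat.mul_le_mul (mem_SI.mp hb).2 (hsize k (mem_bn.mp hk).2 hck))
        (fun a ha => Sp_SI (SI_of (SI_ne ha) ((mem_SI.mp ha).2.trans hM)))
      rw [mul_comm (TN (N j) _), ← mul_assoc, h1, h2]
      refine Finset.sum_congr rfl fun a ha => ?_
      rw [CJ_step hL h hp hinj R x (bk K M bi) N hcle hg.g0 hg.gle J j hj
        (Sp_SI (SI_of (SI_ne ha) ((mem_SI.mp ha).2.trans hM)))]

open Classical in
/-- **the mean square of a Dirichlet polynomial times truncated exponentials** -/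
theorem ls_TN (K : Type) [Field K] [NumberField K] {α₁ α₂ : ℝ} {φ : ℝ → ℝ}
    (hφ : Cutf α₁ α₂ φ) {k : ℕ} (hk : 32 * (24 * (Module.finrank ℚ K : ℝ)) ≤ k) (c : ℝ) :
    ∃ a : ℝ, 0 ≤ a ∧ ∀ (g : Ideal (𝓞 K) → ℂ) (γ : ℕ → ℂ) (g₁ : ℝ), GT g γ g₁ →
      ∀ (bi : ℝ → ℕ) (Y : ℕ → ℝ) (D : ℕ → ℕ) (N : ℕ → Finset ℕ) (J : Finset ℕ) (A B α : ℕ → ℝ),
      (∀ j ∈ J, ∀ y, bi y = j → y ≤ Y j) → (∀ j ∈ J, 0 < Y j) → (∀ j ∈ J, 1 ≤ D j) →
      (∀ j ∈ J, ∀ n ∈ N j, n ≤ D j) →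
      (∀ j, |α j| ≤ 1) → (∀ j ∈ J, 0 ≤ A j) → (∀ j ∈ J, 0 ≤ B j) →
      (∀ j ∈ J, ∀ (ι : Type) [Fintype ι] (c : ι → ℂ) (y : ι → ℂ) (e : ι → ℕ),
        ‖UN (N j) c γ y e‖ ^ 2 ≤
        A j * ∏ i, lam (c i) γ (y i) (e i) + B j * ∏ i, lamh (c i) γ (y i) (e i)) →
      ∀ (R δ : ℝ), 0 < R → 1 / 2 ≤ R * δ → δ ≤ 1 / 4 →
      ∀ (W : ℝ), 0 ≤ W → (∀ M, Wt lN (fun i : PT K M => i.1) (bk K M bi) J A B α g₁
        (2 * (1 / 2 + δ)) ≤ W) →
      ∀ (E : Finset (Ideal (𝓞 K) →*₀ ℂ)) (ψ₀ : Ideal (𝓞 K) →*₀ ℂ) (H P : ℝ), 0 ≤ H → 0 ≤ P →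
      LSP E ψ₀ H P (⌊Real.exp (α₂ * R)⌋₊ * ∏ j ∈ J, ⌊Real.exp (D j * Y j)⌋₊) →
      ∀ t₀ v₁ : ℝ, JJ E (fun lam => Gd g φ R ⌊Real.exp (α₂ * R)⌋₊ ψ₀ lam)
        (fun lam z => ∏ j ∈ J, TN (N j) ((α j : ℂ) * Pb bi Y j (pr ψ₀ lam) z))
          (1 / 2 + δ - c / R) (1 / 2 + δ) H t₀ v₁ ≤
      ENNReal.ofReal (P * (a * W) * (1 + R * |v₁|) ^ k) := by
  obtain ⟨g', h₁⟩ := hφ.fr c
  obtain ⟨C, hC0, hC⟩ := CJ_sq (lN_norm K) h₁ hk
  refine ⟨C, hC0, ?_⟩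
  intro g γ g₁ hg bi Y D N J A B α hbi hY hD hN hα hA hB hUN R δ hR hRδ hδ W hW0 hW E ψ₀ H P hH hP
    hls t₀ v₁
  obtain ⟨M₁, hM₁⟩ : ∃ M₁ : ℕ, M₁ = ⌊Real.exp (α₂ * R)⌋₊ := ⟨_, rfl⟩
  rw [← hM₁] at hls
  rw [← hM₁]
  have hδ0 : 0 < δ := by
    by_contra h
    push Not at h
    nlinarith
  by_cases hM0 : M₁ = 0
  · -- no terms
    have e0 : SI K M₁ = ∅ := by
      rw [hM0, Finset.eq_empty_iff_forall_notMem]
      intro 𝔞 h𝔞
      have := mem_SI.mp h𝔞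
      omega
    have e1 : ∀ (lam : Ideal (𝓞 K) →*₀ ℂ) (z : ℂ), Gd g φ R M₁ ψ₀ lam z = 0 := by
      intro lam z
      unfold Gd dpo
      rw [e0, Finset.sum_empty]
    unfold JJ
    simp [e1]
  obtain ⟨M, hM⟩ : ∃ M : ℕ, M = M₁ * ∏ j ∈ J, ⌊Real.exp (D j * Y j)⌋₊ := ⟨_, rfl⟩
  rw [← hM] at hls
  have hfac : ∀ j ∈ J, 1 ≤ ⌊Real.exp (D j * Y j)⌋₊ := by
    intro j hj
    rw [Nat.one_le_floor_iff]
    exact Real.one_le_exp (mul_nonneg (Nat.cast_nonneg _) (hY j hj).le)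
  have hM2 : ∀ j ∈ J, ⌊Real.exp (Y j)⌋₊ ≤ M := by
    intro j hj
    rw [hM]
    have h1 : ⌊Real.exp (Y j)⌋₊ ≤ ⌊Real.exp (D j * Y j)⌋₊ := by
      refine Nat.floor_le_floor (Real.exp_le_exp.mpr ?_)
      have h2 : (1 : ℝ) ≤ D j := by exact_mod_cast hD j hj
      have h3 := hY j hj
      nlinarith
    have h2 : ⌊Real.exp (D j * Y j)⌋₊ ≤ ∏ j ∈ J, ⌊Real.exp (D j * Y j)⌋₊ :=
      Finset.single_le_prod' (f := fun j => ⌊Real.exp (D j * Y j)⌋₊) hfac hj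
    exact h1.trans (h2.trans (Nat.le_mul_of_pos_left _ (Nat.pos_of_ne_zero hM0)))
  -- the weights
  set f₁ : ℝ → ℂ := fun y => ((φ y * Real.exp (c * y) : ℝ) : ℂ) with hf₁
  set x : ℝ := 1 / 2 + δ with hx
  have hf0 : ∀ b : Ideal (𝓞 K), b ≠ 0 → b ∉ SI K M₁ → f₁ (lN b / R) = 0 := by
    intro b hb hb2
    have h3 : α₂ * R ≤ lN b := by
      have h4 : ¬ lN b ≤ α₂ * R := by
        rw [lN_le_iff hb, ← hM₁]
        exact fun h => hb2 (SI_of hb h)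
      linarith
    have h4 : φ (lN b / R) = 0 := by
      refine hφ.zero _ (le_trans ?_ (le_abs_self _))
      rw [le_div_iff₀ hR]
      exact h3
    simp only [hf₁, h4]
    simp
  obtain ⟨-, hpb⟩ := prod_blk (K := K) h₁ (M := M) (M₁ := M₁) (R := R) (x := x) (v := v₁) (bi := bi)
    (Y := Y) (D := D) (N := N) hα hg hf0 J hbi hY hN hM.symm.le
  rw [← hM] at hpb
  set G : Ideal (𝓞 K) → ℂ := CJ lN (fun i : PT K M => i.1) R x g'
        (bk K M bi) N (cc lN (fun i : PT K M => i.1) (bk K M bi) α v₁) γ J with hG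
  have hprod : ∀ lam : Ideal (𝓞 K) →*₀ ℂ, ∀ t : ℝ, Gd g φ R M₁ ψ₀ lam (pt (x - c / R) t) *
      ∏ j ∈ J, TN (N j) ((α j : ℂ) * Pb bi Y j (pr ψ₀ lam) (pt x (t - v₁))) =
      ∑ 𝔞 ∈ SI K M, G 𝔞 * pr ψ₀ lam 𝔞 * ph 𝔞 t := by
    intro lam t
    have h1 := hpb (pr ψ₀ lam) t
    have h2 : Gd g φ R M₁ ψ₀ lam (pt (x - c / R) t) =
        ∑ 𝔞 ∈ SI K M₁, (g 𝔞 * (f₁ (lN 𝔞 / R) * (Real.exp (-(x * lN 𝔞)) : ℂ))) *
          (pr ψ₀ lam 𝔞 * ph 𝔞 t) := by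
      unfold Gd dpo
      refine Finset.sum_congr rfl fun 𝔞 _ => ?_
      rw [exp_pt]
      have e1 : ((φ (lN 𝔞 / R) : ℝ) : ℂ) * (Real.exp (-((x - c / R) * lN 𝔞)) : ℂ) =
          f₁ (lN 𝔞 / R) * (Real.exp (-(x * lN 𝔞)) : ℂ) := by
        simp only [hf₁]
        rw [← Complex.ofReal_mul, ← Complex.ofReal_mul, mul_assoc, ← Real.exp_add]
        congr 3
        ring
      rw [← e1]
      ring
    have h3 : ∏ j ∈ J, TN (N j) ((α j : ℂ) * Pb bi Y j (pr ψ₀ lam) (pt x (t - v₁))) =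
        ∏ j ∈ J, TN (N j) (∑ i : PT K M, ((Real.exp (-(x * lN i.1)) : ℂ) * cb (bk K M bi)
        (cc lN (fun i : PT K M => i.1) (bk K M bi) α v₁) j i) * (pr ψ₀ lam i.1 * ph i.1 t)) :=
      Finset.prod_congr rfl fun j hj => by rw [Pb_eq (hM2 j hj) (hbi j hj)]
    rw [h2, h3, h1]
    refine Finset.sum_congr rfl fun 𝔞 _ => ?_
    ring
  have hsum : ∑ 𝔞 ∈ SI K M, ‖G 𝔞‖ ^ 2 ≤ C * (W * (1 + R * |v₁|) ^ k) := by
    refine (hC (PT K M) (fun i => i.1) (fun i => i.2.2) Subtype.val_injective γ g₁ hg.hs hg.g0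
      hg.gle hg.g1 (bk K M bi) N J A B α hα hA hB (fun j hj => hUN j hj (PT K M)) x R v₁
      (by rw [hx]; linarith) (by rw [hx]; linarith) hR (by
        rw [hx, div_le_iff₀ hR]
        nlinarith) (SI K M) fun 𝔞 h𝔞 => Sp_SI h𝔞).trans ?_
    refine mul_le_mul_of_nonneg_left (mul_le_mul_of_nonneg_right (hW M) (by positivity)) hC0
  have hJ : JJ E (fun lam => Gd g φ R M₁ ψ₀ lam)
      (fun lam z => ∏ j ∈ J, TN (N j) ((α j : ℂ) * Pb bi Y j (pr ψ₀ lam) z))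
      (x - c / R) x H t₀ v₁ = ENNReal.ofReal (∑ lam ∈ E, ∫ t in t₀..(t₀ + H),
        ‖∑ 𝔞 ∈ SI K M, G 𝔞 * pr ψ₀ lam 𝔞 * ph 𝔞 t‖ ^ 2) := by
    unfold JJ
    rw [ENNReal.ofReal_sum_of_nonneg]
    · refine Finset.sum_congr rfl fun lam _ => ?_
      rw [intervalIntegral.integral_of_le (by linarith), ← integral_Icc_eq_integral_Ioc,
        ofReal_integral_eq_lintegral_ofReal ?_ (Eventually.of_forall fun t => by positivity)]
      · refine lintegral_congr fun t => ?_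
        rw [← hprod lam t, norm_mul, mul_pow]
      · have hc : Continuous fun t : ℝ =>
            ‖∑ 𝔞 ∈ SI K M, G 𝔞 * pr ψ₀ lam 𝔞 * ph 𝔞 t‖ ^ 2 := by
          unfold ph
          fun_prop
        exact hc.integrableOn_Icc
    · intro lam _
      exact intervalIntegral.integral_nonneg (by linarith) fun t _ => by positivity
  rw [hJ]
  refine ENNReal.ofReal_le_ofReal ?_
  refine (hls _ t₀).trans ?_
  calc P * ∑ 𝔞 ∈ SI K M, ‖G 𝔞‖ ^ 2 ≤
      P * (C * (W * (1 + R * |v₁|) ^ k)) := mul_le_mul_of_nonneg_left hsum hP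
    _ = _ := by ring

end

end Pool.Agent.N786.F
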