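import Pool.Agent.N786.F.Mtb

/-!
# The mean squares over blocks (owner helper786)
-/

set_option autoImplicit false
set_option linter.unusedSectionVars false

open NumberField NumberField.Units MeasureTheory Complex Filter Topology Set

namespace Pool.Agent.N786.F

open Pool.Agent.N786
open Pool.Agent.N786.D
open Pool.Agent.N786.E
open Pool.Agent.Y773 (LI)
open Pool.Agent.Y767
open Pool.Agent.R399.TW (pt pt_re pt_im pt_cont)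

lemma JJ_scale {ι : Type} (I : Finset ι) (L Mo : ι → ℂ → ℂ) (x y H t₀ v₀ : ℝ) (c : ℝ) :
    JJ I L (fun i z => (c : ℂ) * Mo i z) x y H t₀ v₀ =
      ENNReal.ofReal (c ^ 2) * JJ I L Mo x y H t₀ v₀ := by
  unfold JJ
  rw [Finset.mul_sum]
  refine Finset.sum_congr rfl fun i _ => ?_
  rw [← lintegral_const_mul' _ _ ENNReal.ofReal_ne_top]
  refine lintegral_congr fun t => ?_
  rw [← ENNReal.ofReal_mul (sq_nonneg c)]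
  congr 1
  rw [norm_mul, mul_pow, Complex.norm_real, Real.norm_eq_abs, sq_abs]
  ring

section

variable {K : Type} [Field K] [NumberField K]

/-- the configuration of the blocks -/
structure BC (bi : ℝ → ℕ) (Y : ℕ → ℝ) (D : ℕ → ℕ) (N : ℕ → Finset ℕ) (J : Finset ℕ)
    (A B α : ℕ → ℝ) (γ : ℕ → ℂ) : Prop where
  bi : ∀ j ∈ J, ∀ y, bi y = j → y ≤ Y j
  Y0 : ∀ j ∈ J, 0 < Y j
  D1 : ∀ j ∈ J, 1 ≤ D j
  ND : ∀ j ∈ J, ∀ n ∈ N j, n ≤ D j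
  αle : ∀ j, |α j| ≤ 1
  A0 : ∀ j ∈ J, 0 ≤ A j
  B0 : ∀ j ∈ J, 0 ≤ B j
  un : ∀ j ∈ J, ∀ (ι : Type) [Fintype ι] (c : ι → ℂ) (y : ι → ℂ) (e : ι → ℕ),
        ‖UN (N j) c γ y e‖ ^ 2 ≤
        A j * ∏ i, lam (c i) γ (y i) (e i) + B j * ∏ i, lamh (c i) γ (y i) (e i)

/-- the multiplier -/
noncomputable def Mo (bi : ℝ → ℕ) (Y : ℕ → ℝ) (N : ℕ → Finset ℕ) (J : Finset ℕ) (α : ℕ → ℝ)
    (χ : Ideal (𝓞 K) →*₀ ℂ) (z : ℂ) : ℂ := ∏ j ∈ J, TN (N j) ((α j : ℂ) * Pb bi Y j χ z)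

lemma Mo_cont (bi : ℝ → ℕ) (Y : ℕ → ℝ) (N : ℕ → Finset ℕ) (J : Finset ℕ) (α : ℕ → ℝ)
    (χ : Ideal (𝓞 K) →*₀ ℂ) : Continuous (Mo bi Y N J α χ) := by
  unfold Mo
  exact continuous_finsetProd _ fun j _ => (TN_diff (N j)).continuous.comp
    (continuous_const.mul (Pb_diff bi Y j χ).continuous)

end

open Classical in
/-- **the mean square of `L` and the multiplier** -/
theorem mean_blk (K : Type) [Field K] [NumberField K] {α' α₁ α₂ A₀ : ℝ} {φ : ℝ → ℝ}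
    (hφ : Cutf α₁ α₂ φ) (hα' : 1 / 2 < α') (hα : α' < α₁)
    (hA₀ : 1 ≤ A₀) (n : ℕ) (hn : 1 ≤ n) :
    ∃ (κ₀ : ℝ) (k E : ℕ), 1 ≤ κ₀ ∧ ∀ κ : ℝ, κ₀ ≤ κ → ∃ C : ℝ, 0 ≤ C ∧
    ∀ (bi : ℝ → ℕ) (Y : ℕ → ℝ) (D : ℕ → ℕ) (N : ℕ → Finset ℕ) (J : Finset ℕ) (A B α : ℕ → ℝ),
      BC bi Y D N J A B α (fun _ => 1) →
    ∀ (R T H P W : ℝ) (S : Finset (Ideal (𝓞 K) →*₀ ℂ)) (ψ₀ : Ideal (𝓞 K) →*₀ ℂ)
      (F : (Ideal (𝓞 K) →*₀ ℂ) → ℂ → ℂ), 4 * κ ≤ R → 1 ≤ T → 0 ≤ H → H ≤ T → S.card * H ≤ P →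
      Real.exp (-R) ≤ W →
      (∀ M, Wt lN (fun i : PT K M => i.1) (bk K M bi) J A B α 1 (2 * (1 / 2 + κ / R)) ≤ W) →
      (∀ lam ∈ S, ∀ t : ℝ, ‖Mo bi Y N J α (pr ψ₀ lam) (pt (1 / 2 + κ / R) t)‖ ≤ Real.exp (R / 2)) →
      LSP S ψ₀ H P (⌊Real.exp (α₂ * R)⌋₊ * ∏ j ∈ J, ⌊Real.exp (D j * Y j)⌋₊) →
      (∀ lam, Continuous (F lam)) →
      (∀ lam ∈ S, GLf A₀ T R n (pr ψ₀ lam) (F lam)) →
      ∀ t₀ v₀ : ℝ, JJ S F (fun lam => Mo bi Y N J α (pr ψ₀ lam)) (1 / 2) (1 / 2 + κ / R) H t₀ v₀ ≤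
        ENNReal.ofReal (P * (C * W) * wt T R k E t₀ v₀) := by
  obtain ⟨k, hk⟩ : ∃ k : ℕ, 32 * (24 * (Module.finrank ℚ K : ℝ)) ≤ k :=
    ⟨32 * (24 * Module.finrank ℚ K), by push_cast; exact le_rfl⟩
  obtain ⟨κ₀, E, hκ1, hmain⟩ := mean_abs K hφ hα' hα hA₀ n hn k
  refine ⟨κ₀, k, E, hκ1, fun κ hκ => ?_⟩
  obtain ⟨C, hC0, hC⟩ := hmain κ hκ
  obtain ⟨a₁, ha₁, hls1⟩ := ls_TN K hφ hk 0
  obtain ⟨a₂, ha₂, hls2⟩ := ls_TN K hφ hk (2 * κ)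
  obtain ⟨a₃, ha₃, hls3⟩ := ls_TN K hφ hk κ
  obtain ⟨a, ha⟩ : ∃ a : ℝ, a = a₁ + a₂ + a₃ := ⟨_, rfl⟩
  have ha0 : 0 ≤ a := by rw [ha]; positivity
  refine ⟨C * (a + 1), by positivity, ?_⟩
  intro bi Y D N J A B α hbc R T H P W S ψ₀ F hR hT hH hHT hP hW hWt hsup hls hFc hF t₀ v₀
  have hκ1' : 1 ≤ κ := hκ1.trans hκ
  have hR0 : 0 < R := by linarith
  have hW0 : 0 < W := lt_of_lt_of_le (Real.exp_pos _) hW
  have hP0 : 0 ≤ P := le_trans (by positivity) hP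
  obtain ⟨δ, hδ⟩ : ∃ δ : ℝ, δ = κ / R := ⟨_, rfl⟩
  have hRδ : R * δ = κ := by rw [hδ]; field_simp
  have hδ1 : δ ≤ 1 / 4 := by
    rw [hδ, div_le_iff₀ hR0]
    linarith
  -- the scaled multiplier
  obtain ⟨c, hc⟩ : ∃ c : ℝ, c = (Real.sqrt W)⁻¹ := ⟨_, rfl⟩
  have hc2 : c ^ 2 = W⁻¹ := by rw [hc, inv_pow, Real.sq_sqrt hW0.le]
  have hc0 : 0 ≤ c := by rw [hc]; positivity
  have hcle : c ≤ Real.exp (R / 2) := by
    have h1 : c ^ 2 ≤ Real.exp (R / 2) ^ 2 := by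
      rw [hc2, ← Real.exp_nat_mul]
      have h2 : W⁻¹ ≤ (Real.exp (-R))⁻¹ := inv_anti₀ (Real.exp_pos _) hW
      refine h2.trans (le_of_eq ?_)
      rw [← Real.exp_neg]
      congr 1
      push_cast
      ring
    exact le_of_sq_le_sq h1 (Real.exp_pos _).le
  have hscale : ∀ (L : (Ideal (𝓞 K) →*₀ ℂ) → ℂ → ℂ) (x : ℝ) (a' : ℝ), 0 ≤ a' → a' ≤ a → ∀ t₀ v₁ : ℝ,
      JJ S L (fun lam => Mo bi Y N J α (pr ψ₀ lam)) x (1 / 2 + κ / R) H t₀ v₁ ≤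
        ENNReal.ofReal (P * (a' * W) * (1 + R * |v₁|) ^ k) →
      JJ S L (fun lam z => (c : ℂ) * Mo bi Y N J α (pr ψ₀ lam) z) x (1 / 2 + κ / R) H t₀ v₁ ≤
        ENNReal.ofReal (P * a * (1 + R * |v₁|) ^ k) := by
    intro L x a' ha'0 ha' t₀ v₁ h1
    rw [JJ_scale S L (fun lam => Mo bi Y N J α (pr ψ₀ lam))]
    refine (mul_le_mul_right h1 _).trans ?_
    rw [← ENNReal.ofReal_mul (sq_nonneg c)]
    refine ENNReal.ofReal_le_ofReal ?_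
    rw [hc2]
    calc W⁻¹ * (P * (a' * W) * (1 + R * |v₁|) ^ k) =
        P * a' * (1 + R * |v₁|) ^ k * (W⁻¹ * W) := by ring
      _ = P * a' * (1 + R * |v₁|) ^ k := by rw [inv_mul_cancel₀ hW0.ne', mul_one]
      _ ≤ _ := by gcongr
  obtain ⟨hb1, hb2, hb3, hb4, hb5, hb6, hb7, hb8⟩ := hbc
  have hmn := hC R T H P a S ψ₀ F (fun lam z => (c : ℂ) * Mo bi Y N J α (pr ψ₀ lam) z) hR hT hH hHT
    hP ha0 hFc (fun lam => continuous_const.mul (Mo_cont _ _ _ _ _ _)) hF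
    (fun lam hl t => by
      rw [norm_mul, Complex.norm_real, Real.norm_of_nonneg hc0]
      refine (mul_le_mul hcle (hsup lam hl t) (norm_nonneg _) (Real.exp_pos _).le).trans
        (le_of_eq ?_)
      rw [← Real.exp_add]
      congr 1
      ring)
    (fun t₀ v₁ => by
      refine hscale _ _ a₁ ha₁ (by rw [ha]; linarith) t₀ v₁ ?_
      have h1 := hls1 _ _ _ GT_one bi Y D N J A B α hb1 hb2 hb3 hb4 hb5 hb6 hb7 hb8 R δ hR0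
        (by linarith) hδ1 W hW0.le (by rw [hδ]; exact hWt) S ψ₀ H P hH hP0 hls t₀ v₁
      rw [zero_div, sub_zero, hδ] at h1
      exact h1)
    (fun t₀ v₁ => by
      refine hscale _ _ a₂ ha₂ (by rw [ha]; linarith) t₀ v₁ ?_
      have h1 := hls2 _ _ _ GT_one bi Y D N J A B α hb1 hb2 hb3 hb4 hb5 hb6 hb7 hb8 R δ hR0
        (by linarith) hδ1 W hW0.le (by rw [hδ]; exact hWt) S ψ₀ H P hH hP0 hls t₀ v₁
      have e1 : 1 / 2 + δ - 2 * κ / R = 1 / 2 - κ / R := by rw [hδ]; ring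
      rw [e1, hδ] at h1
      exact h1)
    (fun t₀ v₁ => by
      refine hscale _ _ a₃ ha₃ (by rw [ha]; linarith) t₀ v₁ ?_
      have h1 := hls3 _ _ _ GT_one bi Y D N J A B α hb1 hb2 hb3 hb4 hb5 hb6 hb7 hb8 R δ hR0
        (by linarith) hδ1 W hW0.le (by rw [hδ]; exact hWt) S ψ₀ H P hH hP0 hls t₀ v₁
      have e1 : 1 / 2 + δ - κ / R = 1 / 2 := by rw [hδ]; ring
      rw [e1, hδ] at h1
      exact h1) t₀ v₀
  rw [JJ_scale S F (fun lam => Mo bi Y N J α (pr ψ₀ lam)), hc2] at hmn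
  have h2 := mul_le_mul_right hmn (ENNReal.ofReal W)
  rw [← mul_assoc, ← ENNReal.ofReal_mul hW0.le, mul_inv_cancel₀ hW0.ne', ENNReal.ofReal_one,
    one_mul, ← ENNReal.ofReal_mul hW0.le] at h2
  refine h2.trans (ENNReal.ofReal_le_ofReal (le_of_eq ?_))
  ring

open Classical in
/-- **the mean square of the multiplier alone** -/
theorem mean_one (K : Type) [Field K] [NumberField K] (κ : ℝ) (hκ : 1 ≤ κ) {α₂ : ℝ} (hα₂ : 0 < α₂) :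
    ∃ C : ℝ, 0 ≤ C ∧
    ∀ (bi : ℝ → ℕ) (Y : ℕ → ℝ) (D : ℕ → ℕ) (N : ℕ → Finset ℕ) (J : Finset ℕ) (A B α : ℕ → ℝ),
      BC bi Y D N J A B α (fun e => if e = 0 then 1 else 0) →
    ∀ (R H P W : ℝ) (S : Finset (Ideal (𝓞 K) →*₀ ℂ)) (ψ₀ : Ideal (𝓞 K) →*₀ ℂ),
      4 * κ ≤ R → 0 ≤ H → 0 ≤ P → 0 ≤ W →
      (∀ M, Wt lN (fun i : PT K M => i.1) (bk K M bi) J A B α 0 (2 * (1 / 2 + κ / R)) ≤ W) →
      LSP S ψ₀ H P (⌊Real.exp (α₂ * R)⌋₊ * ∏ j ∈ J, ⌊Real.exp (D j * Y j)⌋₊) →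
      ∀ t₀ : ℝ, JJ S (fun _ _ => 1) (fun lam => Mo bi Y N J α (pr ψ₀ lam)) (1 / 2) (1 / 2 + κ / R)
        H t₀ 0 ≤ ENNReal.ofReal (P * (C * W)) := by
  obtain ⟨k, hk⟩ : ∃ k : ℕ, 32 * (24 * (Module.finrank ℚ K : ℝ)) ≤ k :=
    ⟨32 * (24 * Module.finrank ℚ K), by push_cast; exact le_rfl⟩
  obtain ⟨φ, hφ⟩ := cut_exists (a := α₂ / 2) (b := α₂) (by linarith) (by linarith)
  obtain ⟨a, ha, hls⟩ := ls_TN K hφ hk κ
  refine ⟨a, ha, ?_⟩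
  intro bi Y D N J A B α hbc R H P W S ψ₀ hR hH hP hW hWt hLS t₀
  have hR0 : 0 < R := by linarith
  obtain ⟨δ, hδ⟩ : ∃ δ : ℝ, δ = κ / R := ⟨_, rfl⟩
  have hRδ : R * δ = κ := by rw [hδ]; field_simp
  have hδ1 : δ ≤ 1 / 4 := by
    rw [hδ, div_le_iff₀ hR0]
    linarith
  obtain ⟨hb1, hb2, hb3, hb4, hb5, hb6, hb7, hb8⟩ := hbc
  have h1 := hls _ _ _ GT_del bi Y D N J A B α hb1 hb2 hb3 hb4 hb5 hb6 hb7 hb8 R δ hR0
    (by linarith) hδ1 W hW (by rw [hδ]; exact hWt) S ψ₀ H P hH hP hLS t₀ 0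
  have hM1 : 1 ≤ ⌊Real.exp (α₂ * R)⌋₊ := by
    rw [Nat.one_le_floor_iff]
    exact Real.one_le_exp (by positivity)
  have hφ0 : φ 0 = 1 := hφ.one 0 (by rw [abs_zero]; linarith)
  have e1 : 1 / 2 + δ - κ / R = 1 / 2 := by rw [hδ]; ring
  rw [e1, hδ, abs_zero, mul_zero, add_zero, one_pow, mul_one] at h1
  refine le_trans (le_of_eq ?_) h1
  unfold JJ
  refine Finset.sum_congr rfl fun lam _ => lintegral_congr fun t => ?_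
  have h2 := Gd_del (K := K) hφ0 R hM1 ψ₀ lam (pt (1 / 2) t)
  congr 2
  exact (congrArg (fun z : ℂ => ‖z‖ ^ 2) h2).symm

end Pool.Agent.N786.F
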