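import Pool.Agent.N786.F.Lsb

/-!
# The mean square on the critical line (owner helper786)
-/

set_option autoImplicit false
set_option linter.unusedSectionVars false

open NumberField NumberField.Units MeasureTheory Complex Filter Topology Set

namespace Pool.Agent.N786.F

open Pool.Agent.N786
open Pool.Agent.N786.D
open Pool.Agent.N786.E
open Pool.Agent.Y773 (LI)
open Pool.Agent.Y767
open Pool.Agent.R399.TW (pt pt_re pt_im pt_cont)

section

variable {ι : Type} {I : Finset ι} {L Dd Mo : ι → ℂ → ℂ} {T H R δ P a c₀ s₀ : ℝ} {n k B : ℕ}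

/-- the step to the critical line -/
theorem SH_line (h : SH I L Dd Mo T H R δ P a c₀ s₀ n k B) {s₁ : ℝ} (hs₁ : 0 ≤ s₁)
    (lsm : ∀ t₀ v₁ : ℝ, JJ I Dd Mo (1 / 2) (1 / 2 + δ) H t₀ v₁ ≤
      ENNReal.ofReal (P * a * (1 + R * |v₁|) ^ k))
    (cm : ∀ i ∈ I, ∀ t : ℝ, Integrable (fun v : ℝ => ‖Dd i (pt (1 / 2 - δ) (t + v)) -
        L i (pt (1 / 2 - δ) (t + v))‖ * kap B δ v) ∧
      ‖L i (pt (1 / 2) t)‖ ≤ ‖Dd i (pt (1 / 2) t)‖ + s₁ * ∫ v : ℝ,
        ‖Dd i (pt (1 / 2 - δ) (t + v)) - L i (pt (1 / 2 - δ) (t + v))‖ * kap B δ v) {E : ℕ}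
    (hB : k + (n + E) + 2 ≤ 2 * B) {S : ℝ} (hS0 : 0 ≤ S)
    (hS : ∀ t₀ v₀ : ℝ, JJ I L Mo (1 / 2 + δ) (1 / 2 + δ) H t₀ v₀ ≤
      ENNReal.ofReal (P * S * wt T R k E t₀ v₀)) {X : ℝ} (t₀ v₀ : ℝ)
    (hX : (1 + |t₀| / T) ^ (2 * ((n : ℝ) * δ)) ≤ X) :
    JJ I L Mo (1 / 2) (1 / 2 + δ) H t₀ v₀ ≤
      ENNReal.ofReal (P * (2 * a + (4 * s₁ ^ 2 * cB B 0 * ((1 + 2 * (R * δ)) ^ k *
        cB B (k + (n + E)))) * (a + c₀ ^ 2 * Real.exp (2 * (R * δ)) * X * S)) *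
        wt T R k E t₀ v₀) := by
  obtain ⟨hT, hH0, hHT, hR, hδ, hδ1, hP, ha, hc, hs, cL, cD, cM, fe, ls1, ls2, ca⟩ := h
  have hT0 : 0 < T := by linarith
  have h2δ : 0 < 2 * δ := by linarith
  have hB1 : 1 ≤ B := by omega
  have hRδ2 : R * δ ≤ 2 * (R * δ) := by
    have : 0 < R * δ := by positivity
    linarith
  have hX0 : 0 ≤ X := le_trans (by positivity) hX
  set κ := kap B δ with hκ
  have hκc : Continuous κ := kap_cont B hδ
  have hκ0 : ∀ v, 0 ≤ κ v := kap_nn B hδ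
  obtain ⟨W, hW⟩ : ∃ W : ℝ, W = wt T R k E t₀ v₀ := ⟨_, rfl⟩
  have hW1 : 1 ≤ W := by rw [hW]; exact wt_one hT hR.le k E t₀ v₀
  -- the mass of the kernel
  obtain ⟨k1, k2⟩ := kap_poly (B := B) (k := 0) (p := 0) (by omega) hδ (by linarith) hR.le
    (κ := 2 * (R * δ)) hRδ2
  simp only [pow_zero, mul_one, one_mul] at k1 k2
  obtain ⟨k3, k4⟩ := kap_poly (B := B) (k := k) (p := n + E) (by omega) hδ (by linarith) hR.le
    (κ := 2 * (R * δ)) hRδ2
  rw [← hκ] at k1 k2 k3 k4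
  obtain ⟨C0, hC0⟩ : ∃ C0 : ℝ, C0 = cB B 0 := ⟨_, rfl⟩
  obtain ⟨C1, hC1⟩ : ∃ C1 : ℝ, C1 = (1 + 2 * (R * δ)) ^ k * cB B (k + (n + E)) := ⟨_, rfl⟩
  have hC00 : 0 ≤ C0 := by rw [hC0]; exact cB_nn B 0
  have hC10 : 0 ≤ C1 := by rw [hC1]; have := cB_nn B (k + (n + E)); positivity
  rw [← hC0] at k2
  rw [← hC1] at k4
  rw [← hC0, ← hC1]
  -- the functions
  set f : ι → ℝ → ℝ := fun i t => ‖Dd i (pt (1 / 2 - δ) t) - L i (pt (1 / 2 - δ) t)‖ with hf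
  have hfc : ∀ i, Continuous (f i) := fun i =>
    (((cD i).comp (pt_cont _)).sub ((cL i).comp (pt_cont _))).norm
  set M : ι → ℝ → ℝ := fun i t => ‖Mo i (pt (1 / 2 + δ) t)‖ with hM
  have hMc : ∀ i, Continuous (M i) := fun i => ((cM i).comp (pt_cont _)).norm
  -- the pointwise bound
  have hpt : ∀ i ∈ I, ∀ t : ℝ, ENNReal.ofReal (‖L i (pt (1 / 2) t)‖ ^ 2 *
      ‖Mo i (pt (1 / 2 + δ) (t - v₀))‖ ^ 2) ≤
      ENNReal.ofReal 2 * ENNReal.ofReal (‖Dd i (pt (1 / 2) t)‖ ^ 2 *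
        ‖Mo i (pt (1 / 2 + δ) (t - v₀))‖ ^ 2) +
      ENNReal.ofReal (2 * s₁ ^ 2 * C0) *
        ∫⁻ v, ENNReal.ofReal (κ v * (f i (t + v) ^ 2 * M i (t - v₀) ^ 2)) := by
    intro i hi t
    obtain ⟨i1, i2⟩ := cm i hi t
    obtain ⟨Z, hZ⟩ : ∃ Z : ℝ, Z = ∫ v : ℝ, f i (t + v) * κ v := ⟨_, rfl⟩
    have hcs := csE (f := fun v => f i (t + v)) (w := κ) ((hfc i).comp (by fun_prop))
      (fun v => norm_nonneg _) hκ0 k1 hκc i1
    rw [← hZ] at hcs
    have i2' : ‖L i (pt (1 / 2) t)‖ ≤ ‖Dd i (pt (1 / 2) t)‖ + s₁ * Z := by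
      rw [hZ]; exact i2
    have hZ0 : 0 ≤ Z := by
      rw [hZ]; exact integral_nonneg fun v => mul_nonneg (norm_nonneg _) (hκ0 v)
    have e1 : ‖L i (pt (1 / 2) t)‖ ^ 2 * ‖Mo i (pt (1 / 2 + δ) (t - v₀))‖ ^ 2 ≤
        2 * (‖Dd i (pt (1 / 2) t)‖ ^ 2 * ‖Mo i (pt (1 / 2 + δ) (t - v₀))‖ ^ 2) +
        (2 * s₁ ^ 2) * (Z ^ 2 * M i (t - v₀) ^ 2) := by
      have e2 : ‖L i (pt (1 / 2) t)‖ ^ 2 ≤ (‖Dd i (pt (1 / 2) t)‖ + s₁ * Z) ^ 2 :=
        pow_le_pow_left₀ (norm_nonneg _) i2' 2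
      have e3 : (‖Dd i (pt (1 / 2) t)‖ + s₁ * Z) ^ 2 ≤
          2 * ‖Dd i (pt (1 / 2) t)‖ ^ 2 + 2 * s₁ ^ 2 * Z ^ 2 := by
        nlinarith [sq_nonneg (‖Dd i (pt (1 / 2) t)‖ - s₁ * Z)]
      have e4 := mul_le_mul_of_nonneg_right (e2.trans e3)
        (sq_nonneg ‖Mo i (pt (1 / 2 + δ) (t - v₀))‖)
      rw [hM]
      simp only
      linarith
    refine (ENNReal.ofReal_le_ofReal e1).trans ?_
    rw [ENNReal.ofReal_add (by positivity) (by positivity), ENNReal.ofReal_mul (by norm_num)]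
    refine add_le_add le_rfl ?_
    rw [ENNReal.ofReal_mul (show 0 ≤ 2 * s₁ ^ 2 by positivity),
      ENNReal.ofReal_mul (show 0 ≤ Z ^ 2 by positivity)]
    have e5 : ∫⁻ v, ENNReal.ofReal (κ v * (f i (t + v) ^ 2 * M i (t - v₀) ^ 2)) =
        (∫⁻ v, ENNReal.ofReal (f i (t + v) ^ 2 * κ v)) * ENNReal.ofReal (M i (t - v₀) ^ 2) := by
      rw [← lintegral_mul_const _ (by
        refine Measurable.ennreal_ofReal ?_
        exact ((((hfc i).comp (by fun_prop : Continuous fun v : ℝ => t + v)).pow 2).mul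
          hκc).measurable)]
      refine lintegral_congr fun v => ?_
      rw [← ENNReal.ofReal_mul (mul_nonneg (sq_nonneg _) (hκ0 v))]
      congr 1
      ring
    rw [e5]
    have e6 : ENNReal.ofReal (∫ v, κ v) ≤ ENNReal.ofReal C0 := ENNReal.ofReal_le_ofReal k2
    calc ENNReal.ofReal (2 * s₁ ^ 2) * (ENNReal.ofReal (Z ^ 2) * ENNReal.ofReal (M i (t - v₀) ^ 2))
        ≤ ENNReal.ofReal (2 * s₁ ^ 2) * ((ENNReal.ofReal C0 *
          ∫⁻ v, ENNReal.ofReal (f i (t + v) ^ 2 * κ v)) * ENNReal.ofReal (M i (t - v₀) ^ 2)) := by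
          gcongr
          exact hcs.trans (by gcongr)
      _ = _ := by
          rw [ENNReal.ofReal_mul (show 0 ≤ 2 * s₁ ^ 2 by positivity)]
          ring
  -- the inner mean square
  have hin : ∀ v : ℝ, ∑ i ∈ I, ∫⁻ t in Icc t₀ (t₀ + H),
      ENNReal.ofReal (f i (t + v) ^ 2 * M i (t - v₀) ^ 2) ≤
      ENNReal.ofReal (2 * (P * (a + c₀ ^ 2 * Real.exp (2 * (R * δ)) * X * S) * W) *
        ((1 + R * |v|) ^ k * (2 + |v|) ^ (n + E))) := by
    intro v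
    have b0 : 0 ≤ 2 * (P * a * (1 + R * |v₀ + v|) ^ k) := by positivity
    obtain ⟨Y, hY⟩ : ∃ Y : ℝ, Y = c₀ ^ 2 * Real.exp (2 * (R * δ)) * (X * (2 + |v|) ^ n) := ⟨_, rfl⟩
    have hY0 : 0 ≤ Y := by rw [hY]; positivity
    have e1 : ∀ i ∈ I, ∀ t ∈ Icc t₀ (t₀ + H),
        ENNReal.ofReal (f i (t + v) ^ 2 * M i (t - v₀) ^ 2) ≤
        ENNReal.ofReal 2 * ENNReal.ofReal (‖Dd i (pt (1 / 2 - δ) (t + v))‖ ^ 2 *
          ‖Mo i (pt (1 / 2 + δ) ((t + v) - (v₀ + v)))‖ ^ 2) +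
        ENNReal.ofReal (2 * Y) * ENNReal.ofReal (‖L i (pt (1 / 2 + δ) (t + v))‖ ^ 2 *
          ‖Mo i (pt (1 / 2 + δ) ((t + v) - (v₀ + v)))‖ ^ 2) := by
      intro i hi t ht
      have hMe : M i (t - v₀) = ‖Mo i (pt (1 / 2 + δ) ((t + v) - (v₀ + v)))‖ := by
        rw [hM]
        simp only
        congr 3
        ring
      rw [← ENNReal.ofReal_mul (by norm_num), ← ENNReal.ofReal_mul (by positivity),
        ← ENNReal.ofReal_add (by positivity) (by positivity)]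
      refine ENNReal.ofReal_le_ofReal ?_
      rw [hMe]
      have g1 : f i (t + v) ^ 2 ≤ 2 * ‖Dd i (pt (1 / 2 - δ) (t + v))‖ ^ 2 +
          2 * ‖L i (pt (1 / 2 - δ) (t + v))‖ ^ 2 := by
        rw [hf]
        simp only
        have := norm_sub_le (Dd i (pt (1 / 2 - δ) (t + v))) (L i (pt (1 / 2 - δ) (t + v)))
        have g2 := pow_le_pow_left₀ (norm_nonneg _) this 2
        nlinarith [sq_nonneg (‖Dd i (pt (1 / 2 - δ) (t + v))‖ - ‖L i (pt (1 / 2 - δ) (t + v))‖)]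
      have g3 : ‖L i (pt (1 / 2 - δ) (t + v))‖ ^ 2 ≤ Y * ‖L i (pt (1 / 2 + δ) (t + v))‖ ^ 2 := by
        have g4 := pow_le_pow_left₀ (norm_nonneg _) (fe i hi (t + v)) 2
        refine g4.trans ?_
        rw [mul_pow, mul_pow, mul_pow]
        refine mul_le_mul_of_nonneg_right ?_ (sq_nonneg _)
        rw [hY]
        have g5 : Real.exp (R * δ) ^ 2 = Real.exp (2 * (R * δ)) := by
          rw [← Real.exp_nat_mul]; push_cast; rfl
        rw [g5]
        refine mul_le_mul_of_nonneg_left ?_ (by positivity)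
        have g6 : ((1 + |t + v| / T) ^ ((n : ℝ) * δ)) ^ 2 =
            (1 + |t + v| / T) ^ (2 * ((n : ℝ) * δ)) := by
          rw [← Real.rpow_natCast, ← Real.rpow_mul (by positivity)]
          congr 1
          push_cast
          ring
        rw [g6]
        have g7 : 1 + |t + v| / T ≤ (1 + |t₀| / T) * (2 + |v|) := by
          have q1 : |t + v| ≤ |t₀| + H + |v| := by
            have q2 := abs_add_le t v
            have q3 : |t| ≤ |t₀| + H := by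
              have q4 : t = t₀ + (t - t₀) := by ring
              have q5 := abs_add_le t₀ (t - t₀)
              rw [← q4] at q5
              have q6 : |t - t₀| ≤ H := by
                rw [abs_of_nonneg (by linarith [ht.1])]
                linarith [ht.2]
              linarith
            linarith
          have q7 : |t + v| / T ≤ |t₀| / T + 1 + |v| := by
            calc |t + v| / T ≤ (|t₀| + H + |v|) / T := by gcongr
              _ = |t₀| / T + H / T + |v| / T := by ring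
              _ ≤ |t₀| / T + 1 + |v| := by
                  gcongr
                  · rw [div_le_one hT0]; exact hHT
                  · exact div_le_self (abs_nonneg _) hT
          have q8 : 0 ≤ |t₀| / T * |v| := by positivity
          have q9 : 0 ≤ |t₀| / T := by positivity
          nlinarith
        have hnδ : 0 ≤ 2 * ((n : ℝ) * δ) := by positivity
        refine (Real.rpow_le_rpow (by positivity) g7 hnδ).trans ?_
        rw [Real.mul_rpow (by positivity) (by positivity)]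
        have g8 : (2 + |v|) ^ (2 * ((n : ℝ) * δ)) ≤ (2 + |v|) ^ n := by
          rw [← Real.rpow_natCast]
          refine Real.rpow_le_rpow_of_exponent_le (by linarith [abs_nonneg v]) ?_
          have : (0 : ℝ) ≤ n := Nat.cast_nonneg n
          nlinarith
        exact mul_le_mul hX g8 (by positivity) hX0
      have g9 := mul_le_mul_of_nonneg_right g1
        (sq_nonneg ‖Mo i (pt (1 / 2 + δ) ((t + v) - (v₀ + v)))‖)
      have g10 := mul_le_mul_of_nonneg_right g3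
        (sq_nonneg ‖Mo i (pt (1 / 2 + δ) ((t + v) - (v₀ + v)))‖)
      linarith
    have e2 : ∑ i ∈ I, ∫⁻ t in Icc t₀ (t₀ + H),
        ENNReal.ofReal (f i (t + v) ^ 2 * M i (t - v₀) ^ 2) ≤
        ENNReal.ofReal 2 * JJ I Dd Mo (1 / 2 - δ) (1 / 2 + δ) H (t₀ + v) (v₀ + v) +
        ENNReal.ofReal (2 * Y) * JJ I L Mo (1 / 2 + δ) (1 / 2 + δ) H (t₀ + v) (v₀ + v) := by
      unfold JJ
      rw [Finset.mul_sum, Finset.mul_sum, ← Finset.sum_add_distrib]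
      refine Finset.sum_le_sum fun i hi => ?_
      have m1 : ∀ x : ℝ, Measurable fun t : ℝ => ENNReal.ofReal (‖Dd i (pt x (t + v))‖ ^ 2 *
          ‖Mo i (pt (1 / 2 + δ) ((t + v) - (v₀ + v)))‖ ^ 2) := fun x => by
        refine Measurable.ennreal_ofReal (Continuous.measurable ?_)
        have c1 : Continuous fun t : ℝ => Dd i (pt x (t + v)) :=
          (cD i).comp ((pt_cont x).comp (by fun_prop))
        have c2 : Continuous fun t : ℝ => Mo i (pt (1 / 2 + δ) ((t + v) - (v₀ + v))) :=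
          (cM i).comp ((pt_cont _).comp (by fun_prop))
        exact (c1.norm.pow 2).mul (c2.norm.pow 2)
      have m2 : ∀ x : ℝ, Measurable fun t : ℝ => ENNReal.ofReal (‖L i (pt x (t + v))‖ ^ 2 *
          ‖Mo i (pt (1 / 2 + δ) ((t + v) - (v₀ + v)))‖ ^ 2) := fun x => by
        refine Measurable.ennreal_ofReal (Continuous.measurable ?_)
        have c1 : Continuous fun t : ℝ => L i (pt x (t + v)) :=
          (cL i).comp ((pt_cont x).comp (by fun_prop))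
        have c2 : Continuous fun t : ℝ => Mo i (pt (1 / 2 + δ) ((t + v) - (v₀ + v))) :=
          (cM i).comp ((pt_cont _).comp (by fun_prop))
        exact (c1.norm.pow 2).mul (c2.norm.pow 2)
      refine (setLIntegral_mono' measurableSet_Icc (e1 i hi)).trans (le_of_eq ?_)
      rw [lintegral_add_left ((m1 _).const_mul _), lintegral_const_mul _ (m1 _),
        lintegral_const_mul _ (m2 _),
        lint_shift (fun t => ENNReal.ofReal (‖Dd i (pt (1 / 2 - δ) t)‖ ^ 2 *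
          ‖Mo i (pt (1 / 2 + δ) (t - (v₀ + v)))‖ ^ 2)) t₀ H v,
        lint_shift (fun t => ENNReal.ofReal (‖L i (pt (1 / 2 + δ) t)‖ ^ 2 *
          ‖Mo i (pt (1 / 2 + δ) (t - (v₀ + v)))‖ ^ 2)) t₀ H v]
    refine e2.trans ?_
    refine (add_le_add (mul_le_mul_right (ls2 (t₀ + v) (v₀ + v)) _)
      (mul_le_mul_right (hS (t₀ + v) (v₀ + v)) _)).trans ?_
    have hwt0 : 0 ≤ wt T R k E (t₀ + v) (v₀ + v) :=
      zero_le_one.trans (wt_one hT hR.le k E _ _)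
    rw [← ENNReal.ofReal_mul (by norm_num), ← ENNReal.ofReal_mul (by positivity),
      ← ENNReal.ofReal_add (by positivity) (by positivity)]
    refine ENNReal.ofReal_le_ofReal ?_
    have w1 := wt_shift hT hR.le k E t₀ v₀ v
    rw [← hW] at w1
    have w2 : (1 + R * |v₀ + v|) ^ k ≤ W * ((1 + R * |v|) ^ k * (2 + |v|) ^ (n + E)) := by
      refine (pow_le_pow_left₀ (by positivity) (one_add_R hR.le v v₀) k).trans ?_
      rw [mul_pow, hW]
      unfold wt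
      have w3 : 1 ≤ (1 + |t₀| / T) ^ E := by
        refine one_le_pow₀ ?_
        have : 0 ≤ |t₀| / T := by positivity
        linarith
      have w4 : 1 ≤ (2 + |v|) ^ (n + E) := one_le_pow₀ (by linarith [abs_nonneg v])
      have w5 : 0 ≤ (1 + R * |v₀|) ^ k * (1 + R * |v|) ^ k := by positivity
      calc (1 + R * |v₀|) ^ k * (1 + R * |v|) ^ k ≤
          ((1 + R * |v₀|) ^ k * (1 + R * |v|) ^ k) * ((1 + |t₀| / T) ^ E * (2 + |v|) ^ (n + E)) :=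
            le_mul_of_one_le_right w5 (one_le_mul_of_one_le_of_one_le w3 w4)
        _ = _ := by ring
    calc 2 * (P * a * (1 + R * |v₀ + v|) ^ k) + 2 * Y * (P * S * wt T R k E (t₀ + v) (v₀ + v)) ≤
        2 * (P * a * (W * ((1 + R * |v|) ^ k * (2 + |v|) ^ (n + E)))) +
        2 * Y * (P * S * (W * ((1 + R * |v|) ^ k * (2 + |v|) ^ E))) := by gcongr
      _ = _ := by
          rw [hY, pow_add (2 + |v|) n E]
          ring
  -- assembly
  have hmeas : ∀ i, Measurable (Function.uncurry fun t v : ℝ =>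
      ENNReal.ofReal (κ v * (f i (t + v) ^ 2 * M i (t - v₀) ^ 2))) := by
    intro i
    refine Measurable.ennreal_ofReal (Continuous.measurable ?_)
    have c1 : Continuous fun q : ℝ × ℝ => f i (q.1 + q.2) := (hfc i).comp (by fun_prop)
    have c2 : Continuous fun q : ℝ × ℝ => M i (q.1 - v₀) := (hMc i).comp (by fun_prop)
    have c3 : Continuous fun q : ℝ × ℝ => κ q.2 := hκc.comp (by fun_prop)
    exact c3.mul ((c1.pow 2).mul (c2.pow 2))
  have hswap : ∑ i ∈ I, ∫⁻ t in Icc t₀ (t₀ + H), ∫⁻ v,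
      ENNReal.ofReal (κ v * (f i (t + v) ^ 2 * M i (t - v₀) ^ 2)) ≤
      ENNReal.ofReal (2 * (P * (a + c₀ ^ 2 * Real.exp (2 * (R * δ)) * X * S) * W) * C1) := by
    have e1 : ∀ i ∈ I, ∫⁻ t in Icc t₀ (t₀ + H), ∫⁻ v,
        ENNReal.ofReal (κ v * (f i (t + v) ^ 2 * M i (t - v₀) ^ 2)) =
        ∫⁻ v, ENNReal.ofReal (κ v) * ∫⁻ t in Icc t₀ (t₀ + H),
          ENNReal.ofReal (f i (t + v) ^ 2 * M i (t - v₀) ^ 2) := by
      intro i _
      rw [lintegral_lintegral_swap (hmeas i).aemeasurable]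
      refine lintegral_congr fun v => ?_
      rw [← lintegral_const_mul _ (by
        refine Measurable.ennreal_ofReal (Continuous.measurable ?_)
        have c1 : Continuous fun t : ℝ => f i (t + v) := (hfc i).comp (by fun_prop)
        have c2 : Continuous fun t : ℝ => M i (t - v₀) := (hMc i).comp (by fun_prop)
        exact (c1.pow 2).mul (c2.pow 2))]
      refine lintegral_congr fun t => ?_
      rw [← ENNReal.ofReal_mul (hκ0 v)]
    rw [Finset.sum_congr rfl e1, ← lintegral_finsetSum']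
    · have e2 : ∀ v : ℝ, ∑ i ∈ I, ENNReal.ofReal (κ v) * ∫⁻ t in Icc t₀ (t₀ + H),
          ENNReal.ofReal (f i (t + v) ^ 2 * M i (t - v₀) ^ 2) ≤
          ENNReal.ofReal (2 * (P * (a + c₀ ^ 2 * Real.exp (2 * (R * δ)) * X * S) * W) *
            (κ v * ((1 + R * |v|) ^ k * (2 + |v|) ^ (n + E)))) := by
        intro v
        rw [← Finset.mul_sum]
        refine (mul_le_mul_right (hin v) _).trans (le_of_eq ?_)
        rw [← ENNReal.ofReal_mul (hκ0 v)]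
        congr 1
        ring
      refine (lintegral_mono e2).trans ?_
      have hn : ∀ v : ℝ, 0 ≤ 2 * (P * (a + c₀ ^ 2 * Real.exp (2 * (R * δ)) * X * S) * W) *
            (κ v * ((1 + R * |v|) ^ k * (2 + |v|) ^ (n + E))) := fun v => by
        have := hκ0 v
        positivity
      rw [← ofReal_integral_eq_lintegral_ofReal (k3.const_mul _) (Eventually.of_forall hn),
        integral_const_mul]
      exact ENNReal.ofReal_le_ofReal (mul_le_mul_of_nonneg_left k4 (by positivity))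
    · intro i _
      refine AEMeasurable.mul (hκc.measurable.ennreal_ofReal).aemeasurable ?_
      refine Measurable.aemeasurable ?_
      have c0 : Measurable (Function.uncurry fun v t : ℝ =>
          ENNReal.ofReal (f i (t + v) ^ 2 * M i (t - v₀) ^ 2)) := by
        refine Measurable.ennreal_ofReal (Continuous.measurable ?_)
        have c1 : Continuous fun q : ℝ × ℝ => f i (q.2 + q.1) := (hfc i).comp (by fun_prop)
        have c2 : Continuous fun q : ℝ × ℝ => M i (q.2 - v₀) := (hMc i).comp (by fun_prop)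
        exact (c1.pow 2).mul (c2.pow 2)
      exact c0.lintegral_prod_right'
  have htot : JJ I L Mo (1 / 2) (1 / 2 + δ) H t₀ v₀ ≤
      ENNReal.ofReal 2 * JJ I Dd Mo (1 / 2) (1 / 2 + δ) H t₀ v₀ +
      ENNReal.ofReal (2 * s₁ ^ 2 * C0) * ∑ i ∈ I, ∫⁻ t in Icc t₀ (t₀ + H), ∫⁻ v,
      ENNReal.ofReal (κ v * (f i (t + v) ^ 2 * M i (t - v₀) ^ 2)) := by
    unfold JJ
    rw [Finset.mul_sum, Finset.mul_sum, ← Finset.sum_add_distrib]
    refine Finset.sum_le_sum fun i hi => ?_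
    have m1 : Measurable fun t : ℝ => ENNReal.ofReal (‖Dd i (pt (1 / 2) t)‖ ^ 2 *
        ‖Mo i (pt (1 / 2 + δ) (t - v₀))‖ ^ 2) := by
      refine Measurable.ennreal_ofReal (Continuous.measurable ?_)
      have c1 : Continuous fun t : ℝ => Dd i (pt (1 / 2) t) := (cD i).comp (pt_cont _)
      have c2 : Continuous fun t : ℝ => Mo i (pt (1 / 2 + δ) (t - v₀)) :=
        (cM i).comp ((pt_cont _).comp (by fun_prop))
      exact (c1.norm.pow 2).mul (c2.norm.pow 2)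
    have m3 : Measurable fun t : ℝ => ∫⁻ v,
        ENNReal.ofReal (κ v * (f i (t + v) ^ 2 * M i (t - v₀) ^ 2)) :=
      (hmeas i).lintegral_prod_right'
    refine (lintegral_mono (hpt i hi)).trans (le_of_eq ?_)
    rw [lintegral_add_left (m1.const_mul _), lintegral_const_mul _ m1, lintegral_const_mul _ m3]
  refine htot.trans ?_
  refine (add_le_add (mul_le_mul_right (lsm t₀ v₀) _) (mul_le_mul_right hswap _)).trans ?_
  rw [← ENNReal.ofReal_mul (by norm_num), ← ENNReal.ofReal_mul (by positivity),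
    ← ENNReal.ofReal_add (by positivity) (by positivity)]
  refine ENNReal.ofReal_le_ofReal ?_
  rw [← hW]
  have w2 : (1 + R * |v₀|) ^ k ≤ W := by
    rw [hW]
    unfold wt
    refine le_mul_of_one_le_right (by positivity) (one_le_pow₀ ?_)
    have : 0 ≤ |t₀| / T := by positivity
    linarith
  calc 2 * (P * a * (1 + R * |v₀|) ^ k) + 2 * s₁ ^ 2 * C0 *
        (2 * (P * (a + c₀ ^ 2 * Real.exp (2 * (R * δ)) * X * S) * W) * C1) ≤
      2 * (P * a * W) + 2 * s₁ ^ 2 * C0 *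
        (2 * (P * (a + c₀ ^ 2 * Real.exp (2 * (R * δ)) * X * S) * W) * C1) := by gcongr
    _ = _ := by ring

end

/-- **The mean square on the critical line** -/
theorem mean_abs (K : Type) [Field K] [NumberField K] {α' α₁ α₂ A : ℝ} {φ : ℝ → ℝ}
    (hφ : Cutf α₁ α₂ φ) (hα' : 1 / 2 < α') (hα : α' < α₁)
    (hA : 1 ≤ A) (n : ℕ) (hn : 1 ≤ n) (k : ℕ) :
    ∃ (κ₀ : ℝ) (E : ℕ), 1 ≤ κ₀ ∧ ∀ κ : ℝ, κ₀ ≤ κ → ∃ C : ℝ, 0 ≤ C ∧
    ∀ (R T H P a : ℝ) (S : Finset (Ideal (𝓞 K) →*₀ ℂ)) (ψ₀ : Ideal (𝓞 K) →*₀ ℂ)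
      (F Mo : (Ideal (𝓞 K) →*₀ ℂ) → ℂ → ℂ), 4 * κ ≤ R → 1 ≤ T → 0 ≤ H → H ≤ T → S.card * H ≤ P →
      0 ≤ a → (∀ lam, Continuous (F lam)) → (∀ lam, Continuous (Mo lam)) →
      (∀ lam ∈ S, GLf A T R n (pr ψ₀ lam) (F lam)) →
      (∀ lam ∈ S, ∀ t : ℝ, ‖Mo lam (pt (1 / 2 + κ / R) t)‖ ≤ Real.exp R) →
      (∀ t₀ v₁ : ℝ, JJ S (fun lam => Gd (fun _ => 1) φ R ⌊Real.exp (α₂ * R)⌋₊ ψ₀ lam) Mo
        (1 / 2 + κ / R) (1 / 2 + κ / R) H t₀ v₁ ≤ ENNReal.ofReal (P * a * (1 + R * |v₁|) ^ k)) →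
      (∀ t₀ v₁ : ℝ, JJ S (fun lam => Gd (fun _ => 1) φ R ⌊Real.exp (α₂ * R)⌋₊ ψ₀ lam) Mo
        (1 / 2 - κ / R) (1 / 2 + κ / R) H t₀ v₁ ≤ ENNReal.ofReal (P * a * (1 + R * |v₁|) ^ k)) →
      (∀ t₀ v₁ : ℝ, JJ S (fun lam => Gd (fun _ => 1) φ R ⌊Real.exp (α₂ * R)⌋₊ ψ₀ lam) Mo
        (1 / 2) (1 / 2 + κ / R) H t₀ v₁ ≤ ENNReal.ofReal (P * a * (1 + R * |v₁|) ^ k)) →
      ∀ t₀ v₀ : ℝ, JJ S F Mo (1 / 2) (1 / 2 + κ / R) H t₀ v₀ ≤
        ENNReal.ofReal (P * (C * (a + 1)) * wt T R k E t₀ v₀) := by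
  obtain ⟨ε, hε⟩ : ∃ ε : ℝ, ε = 2 * α' - 1 := ⟨_, rfl⟩
  have hε0 : 0 < ε := by rw [hε]; linarith
  obtain ⟨E₁, hE₁⟩ : ∃ E₁ : ℕ, 8 * (n : ℝ) / ε ≤ E₁ := ⟨_, Nat.le_ceil _⟩
  obtain ⟨E, hE⟩ : ∃ E : ℕ, E = 2 * n + E₁ := ⟨_, rfl⟩
  obtain ⟨B, hB⟩ : ∃ B : ℕ, B = k + (n + E) + 2 := ⟨_, rfl⟩
  obtain ⟨κ₀, hκ1, hκ₀⟩ := kappa_all (4 * cB B 0 * cB B (k + (n + E)) * A ^ 2) ε k hε0
  refine ⟨κ₀, E + n, hκ1, fun κ hκκ => ?_⟩
  have hκ := hκ₀ κ hκκ
  obtain ⟨G, hG⟩ : ∃ G : ℝ, G = A ^ 2 * 4 ^ n := ⟨_, rfl⟩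
  have hG0 : 0 ≤ G := by rw [hG]; positivity
  obtain ⟨Γ, hΓ⟩ : ∃ Γ : ℝ, Γ = 4 * cB B 0 * ((1 + 2 * κ) ^ k * cB B (k + (n + E))) := ⟨_, rfl⟩
  have hκ1' : 1 ≤ κ := hκ1.trans hκκ
  have hΓ0 : 0 ≤ Γ := by
    rw [hΓ]
    have := cB_nn B 0
    have := cB_nn B (k + (n + E))
    positivity
  refine ⟨2 + Γ * (1 + A ^ 2 * Real.exp (2 * κ) * (5 + 2 * G + 1)), by positivity, ?_⟩
  intro R T H P a S ψ₀ F Mo hR hT hH hHT hP ha0 hFc hMc hF hMo hls1 hls2 hls3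
  have hR0 : 0 < R := by linarith
  have hT0 : 0 < T := by linarith
  obtain ⟨δ, hδ⟩ : ∃ δ : ℝ, δ = κ / R := ⟨_, rfl⟩
  have hδ0 : 0 < δ := by rw [hδ]; positivity
  have hRδ : R * δ = κ := by rw [hδ]; field_simp
  have hδ1 : δ ≤ 1 / 4 := by
    rw [hδ, div_le_iff₀ hR0]
    linarith
  have hP0 : 0 ≤ P := le_trans (by positivity) hP
  rw [← hδ] at hMo hls1 hls2 hls3 ⊢
  have hα₁ : 0 < α₁ := by linarith
  -- the structure
  obtain ⟨s₀, hs₀⟩ : ∃ s₀ : ℝ, s₀ = Real.exp (-(α' * R * (2 * δ))) := ⟨_, rfl⟩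
  have hs2 : s₀ ^ 2 = Real.exp (-(4 * (α' * κ))) := by
    rw [hs₀, ← Real.exp_nat_mul, ← hRδ]; congr 1; push_cast; ring
  have hSH : SH S F (fun lam => Gd (fun _ => 1) φ R ⌊Real.exp (α₂ * R)⌋₊ ψ₀ lam)
      Mo T H R δ P a A s₀ n k B := by
    refine ⟨hT, hH, hHT, hR0, hδ0, by linarith, hP0, ha0, by linarith,
      by rw [hs₀]; exact (Real.exp_pos _).le, hFc, fun lam => ?_, hMc, ?_, hls1, hls2, ?_⟩
    · exact (dpo_diff _ _ _).continuous
    · intro lam hl τ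
      exact (hF lam hl).fe δ hδ0 hδ1 τ
    · intro lam hl t
      simp only [Gd_one]
      obtain ⟨G', hG'⟩ := grow_diff (α₂ := α₂) hφ hα₁ hR0 hT hA (hF lam hl)
      have hg : Differentiable ℂ fun z => Dp φ R ⌊Real.exp (α₂ * R)⌋₊ ψ₀ lam z - F lam z :=
        (dpo_diff _ _ _).sub (hF lam hl).diff
      obtain ⟨i1, i2⟩ := cauchy_le (a := 1 / 2 - δ) (μ := α' * R) (lam := α₁ * R) (m := n) (B := B)
        hg (by omega) (by nlinarith) (fun z hz => hG' z (by linarith))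
        (s := pt (1 / 2 + δ) t) (by rw [pt_re]; linarith)
      have e0 : (pt (1 / 2 + δ) t).re - (1 / 2 - δ) = 2 * δ := by rw [pt_re]; ring
      rw [e0, pt_im] at i1 i2
      refine ⟨i1, ?_⟩
      rw [← hs₀] at i2
      have h4 : ‖F lam (pt (1 / 2 + δ) t)‖ ≤
          ‖Dp φ R ⌊Real.exp (α₂ * R)⌋₊ ψ₀ lam (pt (1 / 2 + δ) t)‖ +
          ‖Dp φ R ⌊Real.exp (α₂ * R)⌋₊ ψ₀ lam (pt (1 / 2 + δ) t) -
            F lam (pt (1 / 2 + δ) t)‖ := by
        have := norm_sub_norm_le (F lam (pt (1 / 2 + δ) t))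
          (Dp φ R ⌊Real.exp (α₂ * R)⌋₊ ψ₀ lam (pt (1 / 2 + δ) t))
        rw [norm_sub_rev] at this
        linarith
      linarith
  have hJ := JJ_triv2 hT hA hHT hP hF hδ0 hMo
  rw [← hG] at hJ
  have hBk : k + (n + E) + 2 ≤ 2 * B := by omega
  have hfin : ∀ t₀ v₀ : ℝ, JJ S F Mo (1 / 2 + δ) (1 / 2 + δ) H t₀ v₀ ≤
      ENNReal.ofReal (P * (5 * a + 2 * G + 1) * wt T R k E t₀ v₀) := by
    refine hSH.bound hBk (S₀ := G * Real.exp (4 * R)) (G := G) (X := Real.exp (ε * κ)) (E := E)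
      (by positivity) hG0 hA (Real.one_le_exp (by positivity)) ?_ ?_ ?_
    · intro t₀ v₀
      refine (hJ t₀ v₀).trans (ENNReal.ofReal_le_ofReal ?_)
      have h1 : (1 + |t₀| / T) ^ (2 * n) ≤ wt T R k E t₀ v₀ := by
        unfold wt
        have h2 : 1 ≤ 1 + |t₀| / T := by
          have : 0 ≤ |t₀| / T := by positivity
          linarith
        have h3 : (1 + |t₀| / T) ^ (2 * n) ≤ (1 + |t₀| / T) ^ E :=
          pow_le_pow_right₀ h2 (by omega)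
        have h4 : 1 ≤ (1 + R * |v₀|) ^ k := by
          refine one_le_pow₀ ?_
          have : 0 ≤ R * |v₀| := by positivity
          linarith
        refine h3.trans (le_mul_of_one_le_left (by positivity) h4)
      calc P * G * Real.exp (4 * R) * (1 + |t₀| / T) ^ (2 * n) ≤
          P * G * Real.exp (4 * R) * wt T R k E t₀ v₀ := by gcongr
        _ = _ := by ring
    · intro t₀ v₀ hX
      refine (hJ t₀ v₀).trans (ENNReal.ofReal_le_ofReal ?_)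
      obtain ⟨Θ, hΘ⟩ : ∃ Θ : ℝ, Θ = 1 + |t₀| / T := ⟨_, rfl⟩
      have hΘ1 : 1 ≤ Θ := by
        rw [hΘ]
        have : 0 ≤ |t₀| / T := by positivity
        linarith
      rw [← hΘ] at hX ⊢
      have hn0 : (0 : ℝ) < n := by exact_mod_cast hn
      -- `Θ` is large
      have h1 : ε * κ < 2 * (n * δ) * Real.log Θ := by
        have h2 := Real.log_lt_log (Real.exp_pos _) hX
        rw [Real.log_exp, Real.log_rpow (by linarith)] at h2
        exact h2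
      have h3 : Real.exp (4 * R) ≤ Θ ^ E₁ := by
        rw [← Real.log_le_log_iff (Real.exp_pos _) (by positivity), Real.log_exp, Real.log_pow]
        have hl0 : 0 ≤ Real.log Θ := Real.log_nonneg hΘ1
        have h4 : ε * R ≤ 2 * n * Real.log Θ := by
          have h5 : ε * κ * R ≤ 2 * (n * δ) * Real.log Θ * R :=
            mul_le_mul_of_nonneg_right h1.le hR0.le
          have e1 : 2 * (n * δ) * Real.log Θ * R = 2 * n * Real.log Θ * (R * δ) := by ring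
          rw [e1, hRδ] at h5
          have hκ0 : 0 < κ := by linarith
          have h6 : (ε * R) * κ ≤ (2 * n * Real.log Θ) * κ := by linarith
          exact le_of_mul_le_mul_right h6 hκ0
        have h7 : 8 * (n : ℝ) / ε * Real.log Θ ≤ E₁ * Real.log Θ :=
          mul_le_mul_of_nonneg_right hE₁ hl0
        have h8 : 4 * R ≤ 8 * (n : ℝ) / ε * Real.log Θ := by
          rw [div_mul_eq_mul_div, le_div_iff₀ hε0]
          linarith
        linarith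
      have h9 : 1 ≤ (1 + R * |v₀|) ^ k := by
        refine one_le_pow₀ ?_
        have : 0 ≤ R * |v₀| := by positivity
        linarith
      unfold wt
      rw [← hΘ]
      calc P * G * Real.exp (4 * R) * Θ ^ (2 * n) ≤ P * G * Θ ^ E₁ * Θ ^ (2 * n) := by gcongr
        _ = P * G * (1 * Θ ^ E) := by rw [hE, pow_add]; ring
        _ ≤ P * G * ((1 + R * |v₀|) ^ k * Θ ^ E) := by gcongr
    · rw [hs2, hRδ]
      have e1 : 4 * Real.exp (-(4 * (α' * κ))) * cB B 0 * ((1 + 2 * κ) ^ k * cB B (k + (n + E))) *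
          (A ^ 2 * Real.exp (2 * κ) * Real.exp (ε * κ)) =
          4 * cB B 0 * cB B (k + (n + E)) * A ^ 2 * ((1 + 2 * κ) ^ k *
            (Real.exp (-(4 * (α' * κ))) * (Real.exp (2 * κ) * Real.exp (ε * κ)))) := by ring
      rw [e1, ← Real.exp_add, ← Real.exp_add]
      have e2 : -(4 * (α' * κ)) + (2 * κ + ε * κ) = -(ε * κ) := by rw [hε]; ring
      rw [e2]
      exact hκ
  -- the step to the critical line
  obtain ⟨s₁, hs₁⟩ : ∃ s₁ : ℝ, s₁ = Real.exp (-(α' * R * δ)) := ⟨_, rfl⟩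
  have hs₁0 : 0 ≤ s₁ := by rw [hs₁]; exact (Real.exp_pos _).le
  have hs₁1 : s₁ ^ 2 ≤ 1 := by
    rw [hs₁, ← Real.exp_nat_mul]
    rw [Real.exp_le_one_iff]
    have : 0 ≤ α' * R * δ := by positivity
    push_cast
    linarith
  have hcm : ∀ lam ∈ S, ∀ t : ℝ, Integrable (fun v : ℝ =>
      ‖Gd (fun _ => 1) φ R ⌊Real.exp (α₂ * R)⌋₊ ψ₀ lam (pt (1 / 2 - δ) (t + v)) -
        F lam (pt (1 / 2 - δ) (t + v))‖ * kap B δ v) ∧
      ‖F lam (pt (1 / 2) t)‖ ≤ ‖Gd (fun _ => 1) φ R ⌊Real.exp (α₂ * R)⌋₊ ψ₀ lam (pt (1 / 2) t)‖ +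
        s₁ * ∫ v : ℝ, ‖Gd (fun _ => 1) φ R ⌊Real.exp (α₂ * R)⌋₊ ψ₀ lam (pt (1 / 2 - δ) (t + v)) -
          F lam (pt (1 / 2 - δ) (t + v))‖ * kap B δ v := by
    intro lam hl t
    simp only [Gd_one]
    obtain ⟨G', hG'⟩ := grow_diff (α₂ := α₂) hφ hα₁ hR0 hT hA (hF lam hl)
    have hg : Differentiable ℂ fun z => Dp φ R ⌊Real.exp (α₂ * R)⌋₊ ψ₀ lam z - F lam z :=
      (dpo_diff _ _ _).sub (hF lam hl).diff
    obtain ⟨i1, i2⟩ := cauchy_le (a := 1 / 2 - δ) (μ := α' * R) (lam := α₁ * R) (m := n) (B := B)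
      hg (by omega) (by nlinarith) (fun z hz => hG' z (by linarith))
      (s := pt (1 / 2) t) (by rw [pt_re]; linarith)
    have e0 : (pt (1 / 2) t).re - (1 / 2 - δ) = δ := by rw [pt_re]; ring
    rw [e0, pt_im] at i1 i2
    refine ⟨i1, ?_⟩
    rw [← hs₁] at i2
    have h4 : ‖F lam (pt (1 / 2) t)‖ ≤
        ‖Dp φ R ⌊Real.exp (α₂ * R)⌋₊ ψ₀ lam (pt (1 / 2) t)‖ +
        ‖Dp φ R ⌊Real.exp (α₂ * R)⌋₊ ψ₀ lam (pt (1 / 2) t) -
          F lam (pt (1 / 2) t)‖ := by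
      have := norm_sub_norm_le (F lam (pt (1 / 2) t))
        (Dp φ R ⌊Real.exp (α₂ * R)⌋₊ ψ₀ lam (pt (1 / 2) t))
      rw [norm_sub_rev] at this
      linarith
    linarith
  intro t₀ v₀
  have hstep := SH_line hSH hs₁0 hls3 hcm hBk (S := 5 * a + 2 * G + 1) (by positivity) hfin t₀ v₀
    (X := (1 + |t₀| / T) ^ (2 * ((n : ℝ) * δ))) le_rfl
  refine hstep.trans (ENNReal.ofReal_le_ofReal ?_)
  rw [hRδ]
  obtain ⟨Θ, hΘ⟩ : ∃ Θ : ℝ, Θ = 1 + |t₀| / T := ⟨_, rfl⟩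
  have hΘ1 : 1 ≤ Θ := by
    rw [hΘ]
    have : 0 ≤ |t₀| / T := by positivity
    linarith
  rw [← hΘ]
  have hX1 : Θ ^ (2 * ((n : ℝ) * δ)) ≤ Θ ^ n := by
    rw [← Real.rpow_natCast]
    refine Real.rpow_le_rpow_of_exponent_le hΘ1 ?_
    have : (0 : ℝ) ≤ n := Nat.cast_nonneg n
    nlinarith
  have hΘn : 1 ≤ Θ ^ n := one_le_pow₀ hΘ1
  have hw : wt T R k (E + n) t₀ v₀ = wt T R k E t₀ v₀ * Θ ^ n := by
    unfold wt
    rw [← hΘ, pow_add]
    ring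
  have hw1 := wt_one hT hR0.le k E t₀ v₀
  rw [hw]
  obtain ⟨w, hwd⟩ : ∃ w : ℝ, w = wt T R k E t₀ v₀ := ⟨_, rfl⟩
  rw [← hwd] at hw1 ⊢
  obtain ⟨X, hXd⟩ : ∃ X : ℝ, X = Θ ^ (2 * ((n : ℝ) * δ)) := ⟨_, rfl⟩
  rw [← hXd] at hX1 ⊢
  have hX0 : 0 ≤ X := by rw [hXd]; positivity
  obtain ⟨Z, hZ⟩ : ∃ Z : ℝ, Z = Θ ^ n := ⟨_, rfl⟩
  rw [← hZ] at hX1 hΘn ⊢
  have hc0 := cB_nn B 0
  have hc1 := cB_nn B (k + (n + E))
  have hA2 : 0 ≤ A ^ 2 * Real.exp (2 * κ) := by positivity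
  have b1 : 4 * s₁ ^ 2 * cB B 0 * ((1 + 2 * κ) ^ k * cB B (k + (n + E))) ≤ Γ := by
    rw [hΓ]
    have : 4 * s₁ ^ 2 * cB B 0 ≤ 4 * 1 * cB B 0 := by gcongr
    rw [mul_one] at this
    gcongr
  have b2 : a + A ^ 2 * Real.exp (2 * κ) * X * (5 * a + 2 * G + 1) ≤
      (1 + A ^ 2 * Real.exp (2 * κ) * (5 + 2 * G + 1)) * (a + 1) * Z := by
    have b3 : A ^ 2 * Real.exp (2 * κ) * X * (5 * a + 2 * G + 1) ≤
        A ^ 2 * Real.exp (2 * κ) * Z * ((5 + 2 * G + 1) * (a + 1)) := by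
      have : 5 * a + 2 * G + 1 ≤ (5 + 2 * G + 1) * (a + 1) := by nlinarith
      gcongr
    have b4 : a ≤ (a + 1) * Z := by nlinarith
    nlinarith
  have b0 : 0 ≤ a + A ^ 2 * Real.exp (2 * κ) * X * (5 * a + 2 * G + 1) := by positivity
  have b5 : 2 * a ≤ 2 * (a + 1) * Z := by nlinarith
  have b6 : 2 * a + 4 * s₁ ^ 2 * cB B 0 * ((1 + 2 * κ) ^ k * cB B (k + (n + E))) *
      (a + A ^ 2 * Real.exp (2 * κ) * X * (5 * a + 2 * G + 1)) ≤
      (2 + Γ * (1 + A ^ 2 * Real.exp (2 * κ) * (5 + 2 * G + 1))) * (a + 1) * Z := by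
    have b7 := mul_le_mul b1 b2 b0 hΓ0
    calc _ ≤ 2 * (a + 1) * Z + Γ * ((1 + A ^ 2 * Real.exp (2 * κ) * (5 + 2 * G + 1)) *
        (a + 1) * Z) := add_le_add b5 b7
      _ = _ := by ring
  calc P * (2 * a + 4 * s₁ ^ 2 * cB B 0 * ((1 + 2 * κ) ^ k * cB B (k + (n + E))) *
      (a + A ^ 2 * Real.exp (2 * κ) * X * (5 * a + 2 * G + 1))) * w ≤
      P * ((2 + Γ * (1 + A ^ 2 * Real.exp (2 * κ) * (5 + 2 * G + 1))) * (a + 1) * Z) * w := by
        gcongr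
    _ = _ := by ring

end Pool.Agent.N786.F
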