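import Pool.Agent.N786.F.Wts

/-!
# The moments of a family: the general theorem (owner helper786)
-/

set_option autoImplicit false
set_option linter.unusedSectionVars false

open NumberField NumberField.Units MeasureTheory Complex Filter Topology Set

namespace Pool.Agent.N786.F

open Pool.Agent.N786
open Pool.Agent.N786.D
open Pool.Agent.N786.E
open Pool.Agent.Y773 (LI)
open Pool.Agent.Y767
open Pool.Agent.Y772.DK (nr nr_nonneg nr_summable absNorm_pos')
open Pool.Agent.R399.TW (pt pt_re pt_im pt_cont)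

/-- the blocks have the required properties -/
lemma bc_v {R : ℝ} (hR : 0 < R) {q I v : ℕ} (hq : 1 ≤ q) (hqv : q ≤ v) {s : ℝ} (hs : |s| ≤ 1)
    {γ : ℕ → ℂ} :
    BC (bI R I) (fun j => R / 16 ^ j) (fun j => 30 * 8 ^ j) (NN v) (Jv q I v) (Av v) (Bv v)
      (αα v s) γ := by
  have hJ1 : ∀ j ∈ Jv q I v, 1 ≤ j := by
    intro j hj
    unfold Jv at hj
    split_ifs at hj
    · have := (Finset.mem_Icc.mp hj).1
      omega
    · have := (Finset.mem_Icc.mp hj).1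
      omega
  refine ⟨fun j hj y hy => bI_le hy (by have := hJ1 j hj; omega), fun j _ => by positivity,
    fun j _ => ?_, fun j _ n hn => ?_, fun j => ?_, fun j _ => ?_, fun j _ => ?_, ?_⟩
  · have : 1 ≤ 8 ^ j := Nat.one_le_pow _ _ (by norm_num)
    omega
  · unfold NN at hn
    split_ifs at hn with h
    · rw [Finset.mem_singleton] at hn
      rw [hn, h]
      omega
    · have := Finset.mem_range.mp hn
      omega
  · unfold αα
    split_ifs
    · simp
    · exact hs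
  · unfold Av
    split_ifs
    · exact le_rfl
    · positivity
  · unfold Bv
    split_ifs
    · positivity
    · positivity
  · intro j _ ι _ c y e
    unfold NN Av Bv
    by_cases h : j = v
    · rw [if_pos h, if_pos h, if_pos h, zero_mul, zero_add]
      have h1 := UN_pow_sq (8 ^ v) c γ y e
      push_cast at h1
      rw [h]
      exact h1
    · rw [if_neg h, if_neg h, if_neg h]
      have h1 := UN_sq (30 * 8 ^ j) c γ y e
      push_cast at h1
      exact h1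

lemma TN_norm {N : Finset ℕ} {D : ℕ} (hN : ∀ n ∈ N, n ≤ D) (w : ℂ) : ‖TN N w‖ ≤ (1 + ‖w‖) ^ D := by
  unfold TN
  refine (norm_sum_le _ _).trans ?_
  have e1 : (1 + ‖w‖) ^ D = ∑ n ∈ Finset.range (D + 1), ‖w‖ ^ n * (Nat.choose D n : ℝ) := by
    rw [add_comm, add_pow]
    refine Finset.sum_congr rfl fun n _ => ?_
    rw [one_pow, mul_one]
  rw [e1]
  have hsub : N ⊆ Finset.range (D + 1) := fun n hn => by
    rw [Finset.mem_range]
    have := hN n hn
    omega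
  refine le_trans (Finset.sum_le_sum fun n hn => ?_) (Finset.sum_le_sum_of_subset_of_nonneg hsub
    fun n _ _ => by positivity)
  rw [norm_div, norm_pow, Complex.norm_natCast]
  rw [div_eq_mul_inv]
  refine mul_le_mul_of_nonneg_left ?_ (by positivity)
  have h1 : 1 ≤ Nat.choose D n := Nat.choose_pos (hN n hn)
  have h2 : (1 : ℝ) ≤ Nat.choose D n := by exact_mod_cast h1
  refine le_trans ?_ h2
  refine inv_le_one_of_one_le₀ ?_
  exact_mod_cast Nat.one_le_iff_ne_zero.mpr (Nat.factorial_ne_zero n)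

section

variable {K : Type} [Field K] [NumberField K]

open Classical in
lemma Pb_le {bi : ℝ → ℕ} {Y : ℕ → ℝ} {j : ℕ} {χ : Ideal (𝓞 K) →*₀ ℂ} (h1 : ∀ 𝔞, ‖χ 𝔞‖ ≤ 1)
    {s : ℂ} (hs : 1 / 2 ≤ s.re) : ‖Pb bi Y j χ s‖ ≤ Real.exp (Y j) * ZK K := by
  unfold Pb
  refine (norm_sum_le _ _).trans ?_
  have hE : 0 ≤ Real.exp (Y j) := (Real.exp_pos _).le
  have h2 : ∀ 𝔞 ∈ (SI K ⌊Real.exp (Y j)⌋₊).filter (fun 𝔭 => Prime 𝔭 ∧ bi (lN 𝔭) = j),
      ‖χ 𝔞 * cexp (-(s * (lN 𝔞 : ℂ)))‖ ≤ Real.exp (Y j) * nr K (3 / 2) 𝔞 := by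
    intro 𝔞 h𝔞'
    have h𝔞 := (Finset.mem_filter.mp h𝔞').1
    have ha := SI_ne h𝔞
    have hN : 0 < (Ideal.absNorm 𝔞 : ℝ) := by exact_mod_cast absNorm_pos' ha
    rw [norm_mul, Complex.norm_exp]
    have h4 : (-(s * (lN 𝔞 : ℂ))).re = -(s.re * lN 𝔞) := by simp
    rw [h4]
    have h5 : Real.exp (-(s.re * lN 𝔞)) ≤ Real.exp (Y j) * nr K (3 / 2) 𝔞 := by
      unfold nr
      rw [Real.rpow_def_of_pos hN, ← Real.exp_add]
      refine Real.exp_le_exp.mpr ?_
      have h6 : lN 𝔞 ≤ Y j := (lN_le_iff ha (Y j)).mpr (mem_SI.mp h𝔞).2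
      have h9 := lN_nonneg 𝔞
      have h10 : Real.log (Ideal.absNorm 𝔞 : ℝ) = lN 𝔞 := rfl
      rw [h10]
      nlinarith
    calc _ ≤ 1 * Real.exp (-(s.re * lN 𝔞)) :=
          mul_le_mul_of_nonneg_right (h1 _) (Real.exp_pos _).le
      _ ≤ _ := by rw [one_mul]; exact h5
  refine (Finset.sum_le_sum h2).trans ?_
  rw [← Finset.mul_sum]
  refine mul_le_mul_of_nonneg_left ?_ hE
  exact (nr_summable K (by norm_num)).sum_le_tsum _ fun 𝔞 _ => nr_nonneg K _ 𝔞

/-- the lengths of the blocks -/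
lemma sum_len {R g : ℝ} (hR : 0 ≤ R) {q I v : ℕ} (hqv : q ≤ v) (hq : 60 / 2 ^ q ≤ g) :
    ∑ j ∈ Jv q I v, ((30 * 8 ^ j : ℕ) : ℝ) * (R / 16 ^ j) ≤ g * R := by
  have h1 : ∀ j : ℕ, ((30 * 8 ^ j : ℕ) : ℝ) * (R / 16 ^ j) = 30 * R * (1 / 2) ^ j := by
    intro j
    have e : (16 : ℝ) ^ j = 8 ^ j * 2 ^ j := by rw [← mul_pow]; norm_num
    push_cast
    rw [e, one_div, inv_pow]
    field_simp
  rw [Finset.sum_congr rfl fun j _ => h1 j, ← Finset.mul_sum]
  have hsub : Jv q I v ⊆ (Finset.range (I + 1 - q)).image (fun j => q + j) := by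
    intro j hj
    rw [Finset.mem_image]
    unfold Jv at hj
    split_ifs at hj
    · have := Finset.mem_Icc.mp hj
      exact ⟨j - q, by rw [Finset.mem_range]; omega, by omega⟩
    · have := Finset.mem_Icc.mp hj
      exact ⟨j - q, by rw [Finset.mem_range]; omega, by omega⟩
  have h2 : ∑ j ∈ Jv q I v, (1 / 2 : ℝ) ^ j ≤ (1 / 2) ^ q * 2 := by
    refine (Finset.sum_le_sum_of_subset_of_nonneg hsub fun j _ _ => by positivity).trans ?_
    rw [Finset.sum_image fun a _ b _ hab => by omega]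
    simp only [pow_add]
    rw [← Finset.mul_sum]
    refine mul_le_mul_of_nonneg_left ?_ (by positivity)
    have h3 := (summable_geometric_two).sum_le_tsum (Finset.range (I + 1 - q))
      (fun j _ => by positivity)
    rwa [tsum_geometric_two] at h3
  have h3 : 60 * (1 / 2 : ℝ) ^ q ≤ g := by
    rw [one_div, inv_pow, ← div_eq_mul_inv]
    exact hq
  calc 30 * R * ∑ j ∈ Jv q I v, (1 / 2 : ℝ) ^ j ≤ 30 * R * ((1 / 2) ^ q * 2) :=
        mul_le_mul_of_nonneg_left h2 (by positivity)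
    _ = (60 * (1 / 2) ^ q) * R := by ring
    _ ≤ g * R := mul_le_mul_of_nonneg_right h3 hR

lemma sum_deg {q I v : ℕ} : ∑ j ∈ Jv q I v, ((30 * 8 ^ j : ℕ) : ℝ) ≤ 35 * 8 ^ I := by
  have hsub : Jv q I v ⊆ Finset.range (I + 1) := by
    intro j hj
    rw [Finset.mem_range]
    unfold Jv at hj
    split_ifs at hj
    · have := Finset.mem_Icc.mp hj
      omega
    · have := Finset.mem_Icc.mp hj
      omega
  refine (Finset.sum_le_sum_of_subset_of_nonneg hsub fun j _ _ => by positivity).trans ?_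
  push_cast
  rw [← Finset.mul_sum, geom_sum_eq (by norm_num)]
  have : (0 : ℝ) < 8 ^ I := by positivity
  rw [pow_succ]
  linarith

/-- the supremum of the multipliers -/
lemma Mo_sup {R g : ℝ} (hR : 0 < R) {q I v : ℕ} (hq1 : 1 ≤ q) (hqv : q ≤ v) (hq : 60 / 2 ^ q ≤ g)
    (hg : g ≤ 1 / 4) (hI : 35 * 8 ^ I * Real.log (1 + ZK K) ≤ R / 4) {s : ℝ} (hs : |s| ≤ 1)
    {χ : Ideal (𝓞 K) →*₀ ℂ} (h1 : ∀ 𝔞, ‖χ 𝔞‖ ≤ 1) {z : ℂ} (hz : 1 / 2 ≤ z.re) :
    ‖Mo (bI R I) (fun j => R / 16 ^ j) (NN v) (Jv q I v) (αα v s) χ z‖ ≤ Real.exp (R / 2) := by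
  have hZ := ZK_nonneg (K := K)
  have hbc : BC (bI R I) (fun j => R / 16 ^ j) (fun j => 30 * 8 ^ j) (NN v) (Jv q I v) (Av v) (Bv v)
      (αα v s) (fun _ => 1) := bc_v hR hq1 hqv hs
  unfold Mo
  rw [_root_.norm_prod]
  have h2 : ∀ j ∈ Jv q I v, ‖TN (NN v j) ((αα v s j : ℂ) * Pb (bI R I) (fun j => R / 16 ^ j) j χ z)‖ ≤
      Real.exp (((30 * 8 ^ j : ℕ) : ℝ) * (R / 16 ^ j) +
        ((30 * 8 ^ j : ℕ) : ℝ) * Real.log (1 + ZK K)) := by
    intro j hj
    refine (TN_norm (hbc.ND j hj) _).trans ?_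
    have h3 : ‖(αα v s j : ℂ) * Pb (bI R I) (fun j => R / 16 ^ j) j χ z‖ ≤
        Real.exp (R / 16 ^ j) * ZK K := by
      rw [norm_mul, Complex.norm_real, Real.norm_eq_abs]
      calc _ ≤ 1 * ‖Pb (bI R I) (fun j => R / 16 ^ j) j χ z‖ :=
            mul_le_mul_of_nonneg_right (hbc.αle j) (norm_nonneg _)
        _ ≤ _ := by
            rw [one_mul]
            exact Pb_le h1 hz
    have h4 : 1 + ‖(αα v s j : ℂ) * Pb (bI R I) (fun j => R / 16 ^ j) j χ z‖ ≤
        Real.exp (R / 16 ^ j) * (1 + ZK K) := by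
      have : 1 ≤ Real.exp (R / 16 ^ j) := Real.one_le_exp (by positivity)
      linarith
    refine (pow_le_pow_left₀ (by positivity) h4 _).trans (le_of_eq ?_)
    rw [mul_pow, Real.exp_add, Real.exp_nat_mul, Real.exp_nat_mul, Real.exp_log (by linarith)]
  refine (Finset.prod_le_prod (fun j _ => norm_nonneg _) h2).trans ?_
  rw [← Real.exp_sum, Finset.sum_add_distrib, ← Finset.sum_mul]
  refine Real.exp_le_exp.mpr ?_
  have h3 := sum_len (I := I) hR.le hqv hq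
  have h4 : (∑ j ∈ Jv q I v, ((30 * 8 ^ j : ℕ) : ℝ)) * Real.log (1 + ZK K) ≤ R / 4 := by
    refine le_trans ?_ hI
    exact mul_le_mul_of_nonneg_right sum_deg (Real.log_nonneg (by linarith))
  have h5 : g * R ≤ 1 / 4 * R := mul_le_mul_of_nonneg_right hg hR.le
  linarith

/-- the length of the Dirichlet polynomials -/
lemma len_le {R g α₂ α₃ : ℝ} (hR : 0 < R) {q I v : ℕ} (hqv : q ≤ v) (hq : 60 / 2 ^ q ≤ g)
    (hα : α₂ + g ≤ α₃) :
    ⌊Real.exp (α₂ * R)⌋₊ * ∏ j ∈ Jv q I v, ⌊Real.exp (((30 * 8 ^ j : ℕ) : ℝ) * (R / 16 ^ j))⌋₊ ≤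
      ⌊Real.exp (α₃ * R)⌋₊ := by
  refine Nat.le_floor ?_
  push_cast
  have h1 : ((⌊Real.exp (α₂ * R)⌋₊ : ℕ) : ℝ) ≤ Real.exp (α₂ * R) :=
    Nat.floor_le (Real.exp_pos _).le
  have h2 : ∏ j ∈ Jv q I v, ((⌊Real.exp (30 * 8 ^ j * (R / 16 ^ j))⌋₊ : ℕ) : ℝ) ≤
      Real.exp (∑ j ∈ Jv q I v, ((30 * 8 ^ j : ℕ) : ℝ) * (R / 16 ^ j)) := by
    rw [Real.exp_sum]
    refine Finset.prod_le_prod (fun j _ => Nat.cast_nonneg _) fun j _ => ?_
    push_cast
    exact Nat.floor_le (Real.exp_pos _).le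
  have h3 := sum_len (I := I) hR.le hqv hq
  refine (mul_le_mul h1 h2 (Finset.prod_nonneg fun j _ => Nat.cast_nonneg _)
    (Real.exp_pos _).le).trans ?_
  rw [← Real.exp_add]
  refine Real.exp_le_exp.mpr ?_
  have h4 : (α₂ + g) * R ≤ α₃ * R := mul_le_mul_of_nonneg_right hα hR.le
  linarith

end

/-- the sum of the weights -/
lemma sum_U (c : ℝ) (hc : 0 ≤ c) (q : ℕ) : ∃ C : ℝ, 0 ≤ C ∧ ∀ I : ℕ,
    ∑ v ∈ Finset.Icc q (I + 1), Uv c q I v ≤ C := by
  refine ⟨Real.exp (c * q) + 2 * Real.exp ((c + 1) ^ 2), by positivity, fun I => ?_⟩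
  have h1 : ∀ v ∈ Finset.Icc q (I + 1), Uv c q I v ≤
      (if v = I + 1 then Real.exp (c * q) else 0) + Real.exp ((c + 1) ^ 2) * (1 / 2) ^ v := by
    intro v _
    unfold Uv
    split_ifs with h
    · have : 0 ≤ Real.exp ((c + 1) ^ 2) * (1 / 2 : ℝ) ^ v := by positivity
      linarith
    · rw [zero_add]
      have h2 : (1 / 2 : ℝ) ^ v = Real.exp (-(Real.log 2 * v)) := by
        rw [← mul_neg, ← Real.rpow_def_of_pos (by norm_num), Real.rpow_neg (by norm_num),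
          Real.rpow_natCast, one_div, inv_pow]
      rw [h2, ← Real.exp_add]
      refine Real.exp_le_exp.mpr ?_
      have h3 : (v : ℝ) ^ 2 ≤ 8 ^ v := by
        have h4 : (v : ℝ) ≤ 2 ^ v := by
          have := (Nat.lt_two_pow_self (n := v)).le
          exact_mod_cast this
        calc (v : ℝ) ^ 2 ≤ (2 ^ v) ^ 2 := pow_le_pow_left₀ (Nat.cast_nonneg _) h4 2
          _ = 4 ^ v := by rw [← pow_mul, mul_comm, pow_mul]; norm_num
          _ ≤ 8 ^ v := pow_le_pow_left₀ (by norm_num) (by norm_num) v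
      have h5 : Real.log 2 ≤ 1 := by linarith [Real.log_two_lt_d9]
      have h6 : (0 : ℝ) ≤ v := Nat.cast_nonneg v
      have h7 : Real.log 2 * v ≤ v := by nlinarith
      nlinarith [sq_nonneg ((v : ℝ) - (c + 1))]
  refine (Finset.sum_le_sum h1).trans ?_
  rw [Finset.sum_add_distrib, ← Finset.mul_sum]
  have h2 : ∑ v ∈ Finset.Icc q (I + 1), (if v = I + 1 then Real.exp (c * q) else 0) ≤
      Real.exp (c * q) := by
    rw [Finset.sum_ite_eq']
    split_ifs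
    · exact le_rfl
    · exact (Real.exp_pos _).le
  have h3 : ∑ v ∈ Finset.Icc q (I + 1), (1 / 2 : ℝ) ^ v ≤ 2 := by
    have h3 := (summable_geometric_two).sum_le_tsum (Finset.Icc q (I + 1))
      (fun j _ => by positivity)
    rwa [tsum_geometric_two] at h3
  have h4 : Real.exp ((c + 1) ^ 2) * ∑ v ∈ Finset.Icc q (I + 1), (1 / 2 : ℝ) ^ v ≤
      Real.exp ((c + 1) ^ 2) * 2 := mul_le_mul_of_nonneg_left h3 (Real.exp_pos _).le
  linarith

/-- large parameters -/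
lemma log_sq_le (A : ℝ) : ∃ R₀ : ℝ, 1 ≤ R₀ ∧ ∀ R : ℝ, R₀ ≤ R →
    A * (1 + Real.log R) ^ 2 ≤ R ∧ A * (1 + Real.log R) ≤ R := by
  have h1 := (Real.isLittleO_pow_log_id_atTop (n := 2)).bound
    (show (0 : ℝ) < 1 / (4 * (|A| + 1)) by positivity)
  obtain ⟨R₁, hR₁⟩ := h1.exists_forall_of_atTop
  refine ⟨max R₁ (Real.exp 1), le_max_of_le_right (by
    have := Real.add_one_le_exp (1 : ℝ)
    linarith), fun R hR => ?_⟩
  have he : Real.exp 1 ≤ R := (le_max_right _ _).trans hR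
  have he1 : 1 ≤ R := by
    have := Real.add_one_le_exp (1 : ℝ)
    linarith
  have hR0 : 0 < R := by linarith
  have hlog : 1 ≤ Real.log R := by
    rw [Real.le_log_iff_exp_le hR0]
    exact he
  have h2 := hR₁ R ((le_max_left _ _).trans hR)
  simp only [id] at h2
  rw [Real.norm_of_nonneg (by positivity), Real.norm_of_nonneg hR0.le, div_mul_eq_mul_div,
    one_mul, le_div_iff₀ (by positivity)] at h2
  have h3 : (1 + Real.log R) ^ 2 ≤ 4 * Real.log R ^ 2 := by nlinarith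
  have h4 : 1 + Real.log R ≤ (1 + Real.log R) ^ 2 := by nlinarith
  have h5 : |A| * (1 + Real.log R) ^ 2 ≤ R := by
    have h6 : |A| * (1 + Real.log R) ^ 2 ≤ |A| * (4 * Real.log R ^ 2) :=
      mul_le_mul_of_nonneg_left h3 (abs_nonneg _)
    have h7 : 0 ≤ Real.log R ^ 2 := by positivity
    linarith
  have h6 : A * (1 + Real.log R) ^ 2 ≤ |A| * (1 + Real.log R) ^ 2 :=
    mul_le_mul_of_nonneg_right (le_abs_self _) (by positivity)
  have h7 : A * (1 + Real.log R) ≤ |A| * (1 + Real.log R) ^ 2 := by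
    calc A * (1 + Real.log R) ≤ |A| * (1 + Real.log R) :=
          mul_le_mul_of_nonneg_right (le_abs_self _) (by positivity)
      _ ≤ _ := mul_le_mul_of_nonneg_left h4 (abs_nonneg _)
  exact ⟨by linarith, by linarith⟩

end Pool.Agent.N786.F
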