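import Pool.Agent.N786.F.Cfm

/-!
# The product with parts of the exponential series (owner helper786)
-/

set_option autoImplicit false
set_option linter.unusedSectionVars false

open UniqueFactorizationMonoid MeasureTheory

namespace Pool.Agent.N786.F

open Pool.Agent.N786.D
open Pool.Agent.N786.E

section

variable {ι : Type} [Fintype ι]

open Classical in
lemma TN_sum (N : Finset ℕ) (K : ℕ) (hNK : ∀ n ∈ N, n ≤ K) (w : ι → ℂ) :
    TN N (∑ i, w i) = ∑ k ∈ bn N (fun _ : ι => K), ∏ i, (w i ^ k i / ((k i).factorial : ℂ)) := by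
  have hfib := Finset.sum_fiberwise_of_maps_to (s := bn N (fun _ : ι => K))
    (t := N) (g := fun k => ∑ i, k i) (fun k hk => (mem_bn.mp hk).2)
    (fun k => ∏ i, (w i ^ k i / ((k i).factorial : ℂ)))
  rw [← hfib]
  unfold TN
  refine Finset.sum_congr rfl fun n hn => ?_
  have hset : (bn N (fun _ : ι => K)).filter (fun k => ∑ i, k i = n) =
      Finset.piAntidiag (Finset.univ : Finset ι) n := by
    ext k
    rw [Finset.mem_filter, mem_bn, Finset.mem_piAntidiag]
    have hnK : n ≤ K := hNK n hn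
    constructor
    · rintro ⟨-, h⟩
      exact ⟨h, fun i _ => Finset.mem_univ i⟩
    · rintro ⟨h, -⟩
      refine ⟨⟨fun i => ?_, by rw [h]; exact hn⟩, h⟩
      have h5 : k i ≤ ∑ i, k i :=
        Finset.single_le_sum (f := k) (fun i _ => Nat.zero_le _) (Finset.mem_univ i)
      exact h5.trans (h.le.trans hnK)
  rw [hset, Finset.sum_pow_eq_sum_piAntidiag, Finset.sum_div]
  refine Finset.sum_congr rfl fun k hk => ?_
  have hk1 : ∑ i, k i = n := (Finset.mem_piAntidiag.mp hk).1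
  have hsp := Nat.multinomial_spec Finset.univ k
  rw [hk1] at hsp
  have h1 : ((n.factorial : ℕ) : ℂ) = (∏ i, ((k i).factorial : ℂ)) *
      (Nat.multinomial Finset.univ k : ℂ) := by
    rw [← hsp]
    push_cast
    rfl
  have h2 : (n.factorial : ℂ) ≠ 0 := by exact_mod_cast Nat.factorial_ne_zero n
  have h3 : (∏ i, ((k i).factorial : ℂ)) ≠ 0 :=
    Finset.prod_ne_zero_iff.mpr fun i _ => by exact_mod_cast Nat.factorial_ne_zero _
  rw [Finset.prod_div_distrib, div_eq_div_iff h2 h3, h1]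
  ring

variable {M : Type} [CommMonoidWithZero M] [NormalizationMonoid M] [UniqueFactorizationMonoid M]
  [Subsingleton Mˣ] [Nontrivial M]

/-- the coefficients of the product -/
noncomputable def uN (N : Finset ℕ) (p : ι → M) (c : ι → ℂ) (G : M → ℂ) (a : M) : ℂ :=
  ∑ k ∈ bn N (fun i => ex (p i) a), (∏ i, (c i ^ k i / ((k i).factorial : ℂ))) *
    G (pe p (fun i => ex (p i) a - k i))

open Classical in
/-- **the product with a part of the exponential series** -/
theorem prod_TN {p : ι → M} (hp : ∀ i, Prime (p i)) (hinj : Function.Injective p)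
    (N : Finset ℕ) (K : ℕ) (hNK : ∀ n ∈ N, n ≤ K)
    (c : ι → ℂ) (G Z : M → ℂ) (hZ1 : Z 1 = 1)
    (hZ : ∀ a b, a ≠ 0 → b ≠ 0 → Z (a * b) = Z a * Z b) (S₁ S₃ : Finset M)
    (h1 : ∀ b ∈ S₁, Sp p b) (h2 : ∀ b, Sp p b → b ∉ S₁ → G b = 0)
    (h3 : ∀ b ∈ S₁, ∀ k ∈ bn N (fun _ : ι => K), (∀ i, k i ≠ 0 → c i ≠ 0) → b * pe p k ∈ S₃)
    (h4 : ∀ a ∈ S₃, Sp p a) :
    (∑ b ∈ S₁, G b * Z b) * TN N (∑ i, c i * Z (p i)) = ∑ a ∈ S₃, uN N p c G a * Z a := by
  rw [TN_sum N K hNK, Finset.sum_mul_sum, ← Finset.sum_product']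
  have hr : ∑ a ∈ S₃, uN N p c G a * Z a = ∑ q ∈ S₃.sigma (fun a => bn N (fun i => ex (p i) a)),
      (∏ i, (c i ^ q.2 i / ((q.2 i).factorial : ℂ))) *
        G (pe p (fun i => ex (p i) q.1 - q.2 i)) * Z q.1 := by
    rw [Finset.sum_sigma]
    refine Finset.sum_congr rfl fun a _ => ?_
    unfold uN
    rw [Finset.sum_mul]
  rw [hr]
  have hexm : ∀ b : M, Sp p b → ∀ k : ι → ℕ, ∀ i, ex (p i) (b * pe p k) = ex (p i) b + k i := by
    intro b hb k i
    rw [ex_mul hb.1 (pe_ne hp k), ex_pe hp hinj]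
  refine Finset.sum_bij_ne_zero (fun q _ _ => ⟨q.1 * pe p q.2, q.2⟩) ?_ ?_ ?_ ?_
  · intro q hq hne
    rw [Finset.mem_product] at hq
    rw [Finset.mem_sigma]
    refine ⟨h3 q.1 hq.1 q.2 hq.2 fun i hi hci => ?_, ?_⟩
    · apply hne
      have : ∏ i, (((c i * Z (p i)) ^ q.2 i) / ((q.2 i).factorial : ℂ)) = 0 := by
        refine Finset.prod_eq_zero (Finset.mem_univ i) ?_
        rw [hci, zero_mul, zero_pow hi, zero_div]
      rw [this, mul_zero]
    · rw [mem_bn]
      refine ⟨fun i => ?_, (mem_bn.mp hq.2).2⟩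
      simp only
      rw [hexm q.1 (h1 q.1 hq.1)]
      omega
  · intro q hq _ q' hq' _ he
    rw [Finset.mem_product] at hq hq'
    simp only [Sigma.mk.injEq, heq_eq_eq] at he
    obtain ⟨e1, e2⟩ := he
    rw [e2] at e1
    exact Prod.ext (mul_right_cancel₀ (pe_ne hp _) e1) e2
  · rintro ⟨a, k⟩ hq hne
    rw [Finset.mem_sigma] at hq
    obtain ⟨ha, hk⟩ := hq
    simp only at ha hk hne
    have hSa := h4 a ha
    rw [mem_bn] at hk
    have hmul : pe p (fun i => ex (p i) a - k i) * pe p k = a := by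
      conv_rhs => rw [← hSa.eq_pe hp hinj]
      unfold pe
      rw [← Finset.prod_mul_distrib]
      refine Finset.prod_congr rfl fun i _ => ?_
      rw [← pow_add]
      congr 1
      exact Nat.sub_add_cancel (hk.1 i)
    refine ⟨(pe p (fun i => ex (p i) a - k i), k), ?_, ?_, ?_⟩
    · rw [Finset.mem_product]
      refine ⟨?_, ?_⟩
      · by_contra h
        apply hne
        rw [h2 _ (Sp_pe hp _) h]
        simp
      · rw [mem_bn]
        refine ⟨fun i => ?_, hk.2⟩
        have h5 : k i ≤ ∑ i, k i :=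
          Finset.single_le_sum (f := k) (fun i _ => Nat.zero_le _) (Finset.mem_univ i)
        exact h5.trans (hNK _ hk.2)
    · intro h0
      apply hne
      simp only at h0
      have e3 : Z a = Z (pe p (fun i => ex (p i) a - k i)) * Z (pe p k) := by
        rw [← hZ _ _ (pe_ne hp _) (pe_ne hp _), hmul]
      rw [e3, Z_pe hp hZ1 hZ k]
      have e4 : ∏ i, ((c i * Z (p i)) ^ k i / ((k i).factorial : ℂ)) =
          (∏ i, (c i ^ k i / ((k i).factorial : ℂ))) * ∏ i, Z (p i) ^ k i := by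
        rw [← Finset.prod_mul_distrib]
        refine Finset.prod_congr rfl fun i _ => ?_
        rw [mul_pow]
        ring
      rw [e4] at h0
      rw [← h0]
      ring
    · simp only
      rw [hmul]
  · intro q hq hne
    rw [Finset.mem_product] at hq
    simp only
    have e4 : ∏ i, ((c i * Z (p i)) ^ q.2 i / ((q.2 i).factorial : ℂ)) =
        (∏ i, (c i ^ q.2 i / ((q.2 i).factorial : ℂ))) * ∏ i, Z (p i) ^ q.2 i := by
      rw [← Finset.prod_mul_distrib]
      refine Finset.prod_congr rfl fun i _ => ?_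
      rw [mul_pow]
      ring
    have e5 : pe p (fun i => ex (p i) (q.1 * pe p q.2) - q.2 i) = q.1 := by
      have : (fun i => ex (p i) (q.1 * pe p q.2) - q.2 i) = fun i => ex (p i) q.1 := by
        funext i
        rw [hexm q.1 (h1 q.1 hq.1)]
        omega
      rw [this]
      exact (h1 q.1 hq.1).eq_pe hp hinj
    rw [e4, e5, hZ _ _ (h1 q.1 hq.1).1 (pe_ne hp _), Z_pe hp hZ1 hZ]
    ring

/-- the phases -/
noncomputable def yy (L : M → ℝ) (p : ι → M) (R u : ℝ) (i : ι) : ℂ :=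
  Complex.exp (((2 * Real.pi * u / R * L (p i) : ℝ) : ℂ) * Complex.I)

/-- the coefficients with the smooth cut-off -/
noncomputable def CJ (L : M → ℝ) (p : ι → M) (R x : ℝ) (gh : ℝ → ℂ) (blk : ι → ℕ)
    (N : ℕ → Finset ℕ) (c : ι → ℂ) (γ : ℕ → ℂ) (J : Finset ℕ) (a : M) : ℂ :=
  (Real.exp (-(x * L a)) : ℂ) * ∫ u, gh u * FJ blk N c γ (yy L p R u) J (fun i => ex (p i) a)

lemma FJ_cont (L : M → ℝ) (p : ι → M) (R : ℝ) (blk : ι → ℕ)
    (N : ℕ → Finset ℕ) (c : ι → ℂ) (γ : ℕ → ℂ) (J : Finset ℕ) (e : ι → ℕ) :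
    Continuous fun u => FJ blk N c γ (yy L p R u) J e := by
  unfold FJ UN lc yy
  refine Continuous.mul ?_ ?_
  · refine continuous_finsetProd _ fun j _ => continuous_finsetSum _ fun k _ =>
      continuous_finsetProd _ fun i _ => ?_
    fun_prop
  · refine continuous_finsetProd _ fun i _ => ?_
    split_ifs
    · exact continuous_const
    · fun_prop

lemma FJ_bdd (L : M → ℝ) (p : ι → M) (R : ℝ) (blk : ι → ℕ)
    (N : ℕ → Finset ℕ) {c : ι → ℂ} (hc : ∀ i, ‖c i‖ ≤ 1) {γ : ℕ → ℂ} (hγ : ∀ e, ‖γ e‖ ≤ 1)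
    (J : Finset ℕ) (e : ι → ℕ) : ∃ B, ∀ u, ‖FJ blk N c γ (yy L p R u) J e‖ ≤ B := by
  classical
  refine ⟨(∏ j ∈ J, ∑ _k ∈ bn (N j) (rs blk j e), (1 : ℝ)) * ∏ _i : ι, (1 : ℝ), fun u => ?_⟩
  unfold FJ
  rw [norm_mul, norm_prod, norm_prod]
  refine mul_le_mul (Finset.prod_le_prod (fun _ _ => norm_nonneg _) fun j _ => ?_)
    (Finset.prod_le_prod (fun _ _ => norm_nonneg _) fun i _ => ?_)
    (Finset.prod_nonneg fun _ _ => norm_nonneg _) (Finset.prod_nonneg fun j _ =>
      Finset.sum_nonneg fun _ _ => zero_le_one)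
  · unfold UN
    refine (norm_sum_le _ _).trans (Finset.sum_le_sum fun k _ => ?_)
    rw [norm_prod]
    refine Finset.prod_le_one (fun _ _ => norm_nonneg _) fun i _ => ?_
    refine (lc_norm hγ (Complex.norm_exp_ofReal_mul_I _) (hc i) _ _).trans ?_
    refine inv_le_one_of_one_le₀ ?_
    exact_mod_cast Nat.one_le_iff_ne_zero.mpr (Nat.factorial_ne_zero _)
  · split_ifs
    · simp
    · unfold yy
      rw [norm_mul, norm_pow, Complex.norm_exp_ofReal_mul_I, one_pow, mul_one]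
      exact hγ _

lemma FJ_int {f gh : ℝ → ℂ} (h : Fr f gh) (L : M → ℝ) (p : ι → M) (R : ℝ) (blk : ι → ℕ)
    (N : ℕ → Finset ℕ) {c : ι → ℂ} (hc : ∀ i, ‖c i‖ ≤ 1) {γ : ℕ → ℂ} (hγ : ∀ e, ‖γ e‖ ≤ 1)
    (J : Finset ℕ) (e : ι → ℕ) :
    Integrable fun u => gh u * FJ blk N c γ (yy L p R u) J e := by
  obtain ⟨hgc, hi, hf⟩ := h
  have hi0 : Integrable fun u => ‖gh u‖ := by
    refine (hi 0).congr (Filter.Eventually.of_forall fun u => ?_)
    simp
  obtain ⟨B, hB⟩ := FJ_bdd L p R blk N hc hγ J e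
  have hi1 : Integrable gh := (integrable_norm_iff hgc.aestronglyMeasurable).mp hi0
  exact hi1.mul_bdd (c := B) (FJ_cont L p R blk N c γ J e).aestronglyMeasurable
    (Filter.Eventually.of_forall hB)

/-- one more block -/
lemma CJ_step {L : M → ℝ} {B₀ : ℝ} (hL : LNorm L B₀) {f gh : ℝ → ℂ} (h : Fr f gh)
    {p : ι → M} (hp : ∀ i, Prime (p i)) (hinj : Function.Injective p) (R x : ℝ)
    (blk : ι → ℕ) (N : ℕ → Finset ℕ) {c : ι → ℂ} (hc : ∀ i, ‖c i‖ ≤ 1) {γ : ℕ → ℂ}
    (hγ0 : γ 0 = 1) (hγ : ∀ e, ‖γ e‖ ≤ 1) (J : Finset ℕ) (j : ℕ) (hj : j ∉ J) {a : M}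
    (ha : Sp p a) :
    uN (N j) p (fun i => (Real.exp (-(x * L (p i))) : ℂ) * cb blk c j i)
      (CJ L p R x gh blk N c γ J) a = CJ L p R x gh blk N c γ (insert j J) a := by
  unfold CJ uN
  simp_rw [← FJ_step blk N c hγ0 _ J j hj (fun i => ex (p i) a), Finset.mul_sum]
  rw [integral_finsetSum]
  · rw [Finset.mul_sum]
    refine Finset.sum_congr rfl fun k hk => ?_
    have e0 : ∀ u : ℝ, gh u * ((∏ i, (cb blk c j i ^ k i / ((k i).factorial : ℂ))) *
        FJ blk N c γ (yy L p R u) J (fun i => ex (p i) a - k i)) =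
        (∏ i, (cb blk c j i ^ k i / ((k i).factorial : ℂ))) * (gh u *
          FJ blk N c γ (yy L p R u) J (fun i => ex (p i) a - k i)) := fun u => by ring
    simp_rw [e0]
    rw [integral_const_mul]
    have e2 : (fun i => ex (p i) (pe p fun i => ex (p i) a - k i)) = fun i => ex (p i) a - k i := by
      funext i
      rw [ex_pe hp hinj]
    rw [e2]
    have e3 : ∏ i, (((Real.exp (-(x * L (p i))) : ℂ) * cb blk c j i) ^ k i /
        ((k i).factorial : ℂ)) = (Real.exp (-(x * ∑ i, k i * L (p i))) : ℂ) *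
        ∏ i, (cb blk c j i ^ k i / ((k i).factorial : ℂ)) := by
      rw [Finset.mul_sum, ← Finset.sum_neg_distrib, Real.exp_sum, Complex.ofReal_prod,
        ← Finset.prod_mul_distrib]
      refine Finset.prod_congr rfl fun i _ => ?_
      rw [mul_pow, ← Complex.ofReal_pow, ← Real.exp_nat_mul]
      have : (k i : ℝ) * -(x * L (p i)) = -(x * (k i * L (p i))) := by ring
      rw [this]
      ring
    have e4 : (Real.exp (-(x * L a)) : ℂ) = (Real.exp (-(x * ∑ i, k i * L (p i))) : ℂ) *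
        (Real.exp (-(x * L (pe p fun i => ex (p i) a - k i))) : ℂ) := by
      rw [← Complex.ofReal_mul, ← Real.exp_add]
      congr 2
      rw [ha.L_eq hL hp hinj, L_pe hL hp]
      have : ∑ i, (ex (p i) a : ℝ) * L (p i) = ∑ i, (k i : ℝ) * L (p i) +
          ∑ i, ((ex (p i) a - k i : ℕ) : ℝ) * L (p i) := by
        rw [← Finset.sum_add_distrib]
        refine Finset.sum_congr rfl fun i _ => ?_
        have := (mem_bn.mp hk).1 i
        rw [Nat.cast_sub this]
        ring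
      rw [this]
      ring
    rw [e3, e4]
    ring
  · intro k _
    refine ((FJ_int h L p R blk N hc hγ J (fun i => ex (p i) a - k i)).const_mul
      (∏ i, (cb blk c j i ^ k i / ((k i).factorial : ℂ)))).congr
      (Filter.Eventually.of_forall fun u => ?_)
    simp only
    ring

/-- no block -/
lemma CJ_empty {L : M → ℝ} {B₀ : ℝ} (hL : LNorm L B₀) {f gh : ℝ → ℂ} (h : Fr f gh)
    {p : ι → M} (hp : ∀ i, Prime (p i)) (hinj : Function.Injective p) (R x : ℝ)
    (blk : ι → ℕ) (N : ℕ → Finset ℕ) (c : ι → ℂ) {γ : ℕ → ℂ} {g : M → ℂ}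
    (hg : ∀ b, Sp p b → g b = ∏ i, γ (ex (p i) b)) {a : M} (ha : Sp p a) :
    CJ L p R x gh blk N c γ ∅ a = g a * (f (L a / R) * (Real.exp (-(x * L a)) : ℂ)) := by
  obtain ⟨hgc, hi, hf⟩ := h
  unfold CJ
  have e1 : ∀ u : ℝ, gh u * FJ blk N c γ (yy L p R u) ∅ (fun i => ex (p i) a) =
      g a * (gh u * Complex.exp (((2 * Real.pi * u * (L a / R) : ℝ) : ℂ) * Complex.I)) := by
    intro u
    rw [FJ_empty, Finset.prod_mul_distrib, ← hg a ha]
    have e2 : ∏ i, yy L p R u i ^ ex (p i) a =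
        Complex.exp (((2 * Real.pi * u * (L a / R) : ℝ) : ℂ) * Complex.I) := by
      unfold yy
      rw [ha.L_eq hL hp hinj]
      simp only [← Complex.exp_nat_mul]
      rw [← Complex.exp_sum]
      congr 1
      push_cast
      rw [Finset.sum_div, Finset.mul_sum, Finset.sum_mul]
      refine Finset.sum_congr rfl fun i _ => ?_
      ring
    rw [e2]
    ring
  simp_rw [e1]
  rw [integral_const_mul, ← hf]
  ring

end

end Pool.Agent.N786.F
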