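import Pool.Agent.N786.F.Ptw
import Pool.Agent.N786.E.Prm

/-!
# Sums over the primes of the blocks (owner helper786)
-/

set_option autoImplicit false
set_option linter.unusedSectionVars false

open NumberField Filter Topology Set UniqueFactorizationMonoid

namespace Pool.Agent.N786.F

open Pool.Agent.N786
open Pool.Agent.N786.D
open Pool.Agent.N786.E

lemma one_sub_exp {u : ℝ} (h : 1 ≤ u) : 1 ≤ 8 / 5 * (1 - Real.exp (-u)) := by
  have h1 : Real.exp (-u) ≤ Real.exp (-1) := Real.exp_le_exp.mpr (by linarith)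
  have h2 : Real.exp (-1) ≤ 3 / 8 := by
    rw [Real.exp_neg, inv_le_comm₀ (Real.exp_pos _) (by norm_num)]
    have := Real.exp_one_gt_d9
    norm_num
    linarith
  linarith

section

variable {ι : Type} [Fintype ι]
variable {M : Type} [CommMonoidWithZero M] [NormalizationMonoid M] [UniqueFactorizationMonoid M]
  [Subsingleton Mˣ] [Nontrivial M]

/-- the tail -/
lemma prs_tail {L : M → ℝ} {B₀ : ℝ} (hL : LNorm L B₀) {p : ι → M} (hp : ∀ i, Prime (p i))
    (hinj : Function.Injective p) {a σ : ℝ} (ha : 2 ≤ a) (h1 : 1 < σ) (h2 : σ ≤ 3 / 2)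
    (S : Finset ι) (hS : ∀ i ∈ S, a ≤ L (p i)) :
    ∑ i ∈ S, Real.exp (-(σ * L (p i))) ≤ 2 * (B₀ * Real.log (1 + 1 / (a * (σ - 1)))) := by
  have hB := hL.B0
  have ha0 : 0 < a := by linarith
  have hs : 0 < σ - 1 := by linarith
  have h3 := psum_w hL hp hinj h1 h2 (w := 1 / a) (by positivity) (by
    rw [div_le_div_iff₀ ha0 (by norm_num)]
    linarith)
  have e1 : 1 / a / (σ - 1) = 1 / (a * (σ - 1)) := by rw [div_div]
  rw [e1] at h3
  have h0 : ∀ i, 0 ≤ (1 - Real.exp (-(1 / a * L (p i)))) * Real.exp (-(σ * L (p i))) := by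
    intro i
    have h4 : Real.exp (-(1 / a * L (p i))) ≤ 1 := by
      rw [Real.exp_le_one_iff]
      have := lp_pos hL (hp i)
      have : 0 ≤ 1 / a * L (p i) := by positivity
      linarith
    exact mul_nonneg (by linarith) (Real.exp_pos _).le
  have h4 : ∀ i ∈ S, Real.exp (-(σ * L (p i))) ≤
      8 / 5 * ((1 - Real.exp (-(1 / a * L (p i)))) * Real.exp (-(σ * L (p i)))) := by
    intro i hi
    have h5 := one_sub_exp (u := 1 / a * L (p i)) (by
      rw [div_mul_eq_mul_div, one_mul, le_div_iff₀ ha0, one_mul]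
      exact hS i hi)
    calc Real.exp (-(σ * L (p i))) = 1 * Real.exp (-(σ * L (p i))) := (one_mul _).symm
      _ ≤ 8 / 5 * (1 - Real.exp (-(1 / a * L (p i)))) * Real.exp (-(σ * L (p i))) :=
          mul_le_mul_of_nonneg_right h5 (Real.exp_pos _).le
      _ = _ := by ring
  have h5 : ∑ i ∈ S, Real.exp (-(σ * L (p i))) ≤
      8 / 5 * ∑ i, (1 - Real.exp (-(1 / a * L (p i)))) * Real.exp (-(σ * L (p i))) := by
    rw [Finset.mul_sum]
    refine (Finset.sum_le_sum h4).trans ?_
    exact Finset.sum_le_sum_of_subset_of_nonneg (Finset.subset_univ _) fun i _ _ => by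
      have := h0 i
      positivity
  have h6 : 0 ≤ B₀ * Real.log (1 + 1 / (a * (σ - 1))) := by
    refine mul_nonneg hB (Real.log_nonneg ?_)
    have : 0 ≤ 1 / (a * (σ - 1)) := by positivity
    linarith
  linarith

/-- a block -/
lemma prs_block {L : M → ℝ} {B₀ : ℝ} (hL : LNorm L B₀) {p : ι → M} (hp : ∀ i, Prime (p i))
    (hinj : Function.Injective p) {a b σ : ℝ} (ha : 2 ≤ a) (hb : 2 ≤ b) (h1 : 1 ≤ σ)
    (S : Finset ι) (hS : ∀ i ∈ S, a ≤ L (p i) ∧ L (p i) ≤ b) :
    ∑ i ∈ S, Real.exp (-(σ * L (p i))) ≤ 6 * (B₀ * Real.log (1 + b / a)) := by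
  have hb0 : 0 < b := by linarith
  have ha0 : 0 < a := by linarith
  have h3 := prs_tail hL hp hinj ha (σ := 1 + 1 / b) (by
    have : 0 < 1 / b := by positivity
    linarith) (by
    have : 1 / b ≤ 1 / 2 := one_div_le_one_div_of_le (by norm_num) hb
    linarith) S fun i hi => (hS i hi).1
  have e1 : 1 / (a * (1 + 1 / b - 1)) = b / a := by
    field_simp
    ring
  rw [e1] at h3
  have h4 : ∀ i ∈ S, Real.exp (-(σ * L (p i))) ≤
      3 * Real.exp (-((1 + 1 / b) * L (p i))) := by
    intro i hi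
    have h5 := (hS i hi).2
    have h6 := lp_pos hL (hp i)
    have h7 : Real.exp (-(σ * L (p i))) ≤ Real.exp 1 * Real.exp (-((1 + 1 / b) * L (p i))) := by
      rw [← Real.exp_add]
      refine Real.exp_le_exp.mpr ?_
      have h8 : 1 / b * L (p i) ≤ 1 := by
        rw [div_mul_eq_mul_div, one_mul, div_le_one hb0]
        exact h5
      nlinarith
    have h8 : Real.exp 1 ≤ 3 := by
      have := Real.exp_one_lt_d9
      linarith
    exact h7.trans (mul_le_mul_of_nonneg_right h8 (Real.exp_pos _).le)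
  refine (Finset.sum_le_sum h4).trans ?_
  rw [← Finset.mul_sum]
  linarith

end

section

variable (K : Type) [Field K] [NumberField K]

/-- the primes up to a bound -/
theorem prs_init : ∃ C : ℝ, 0 ≤ C ∧ ∀ (M : ℕ) (b σ : ℝ), 2 ≤ b → 1 ≤ σ → ∀ S : Finset (PT K M),
    (∀ i ∈ S, lN i.1 ≤ b) → ∑ i ∈ S, Real.exp (-(σ * lN i.1)) ≤ Real.log b + C := by
  classical
  obtain ⟨C₁, hC₁, hup⟩ := psum_up K
  have hL := lN_norm K
  have hB := hL.B0
  refine ⟨C₁ + 3 * ((24 * Module.finrank ℚ K) * Real.log 2), by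
    have : 0 ≤ Real.log 2 := Real.log_nonneg (by norm_num)
    positivity, ?_⟩
  intro M b σ hb hσ S hS
  have hb0 : 0 < b := by linarith
  have hb1 : 0 < 1 / b := by positivity
  have hb2 : 1 / b ≤ 1 / 2 := one_div_le_one_div_of_le (by norm_num) hb
  have hp : ∀ i : PT K M, Prime i.1 := fun i => i.2.2
  have hinj : Function.Injective (fun i : PT K M => i.1) := Subtype.val_injective
  have h1 : ∑ i ∈ S, Real.exp (-((1 + 1 / b) * lN i.1)) ≤ Real.log b + C₁ := by
    have h2 := hup (1 / b) hb1 (by linarith) (S.image fun i => i.1) (fun 𝔭 h𝔭 => by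
      obtain ⟨i, -, rfl⟩ := Finset.mem_image.mp h𝔭
      exact hp i)
    rw [Finset.sum_image fun i _ j _ hij => hinj hij, one_div_one_div] at h2
    exact h2
  have h3 := psum_w hL hp hinj (σ := 1 + 1 / b) (by linarith) (by linarith) hb1.le hb2
  have e1 : 1 / b / (1 + 1 / b - 1) = 1 := by
    field_simp
    ring
  rw [e1] at h3
  have h4 : ∀ i : PT K M, 0 ≤ (1 - Real.exp (-(1 / b * lN i.1))) *
      Real.exp (-((1 + 1 / b) * lN i.1)) := by
    intro i
    have h4 : Real.exp (-(1 / b * lN i.1)) ≤ 1 := by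
      rw [Real.exp_le_one_iff]
      have := lp_pos hL (hp i)
      have : 0 ≤ 1 / b * lN i.1 := by positivity
      linarith
    exact mul_nonneg (by linarith) (Real.exp_pos _).le
  have h5 : ∀ i ∈ S, Real.exp (-(σ * lN i.1)) ≤ Real.exp (-((1 + 1 / b) * lN i.1)) +
      3 * ((1 - Real.exp (-(1 / b * lN i.1))) * Real.exp (-((1 + 1 / b) * lN i.1))) := by
    intro i hi
    have h6 := lp_pos hL (hp i)
    have h7 : Real.exp (-(σ * lN i.1)) ≤ Real.exp (-(lN i.1)) :=
      Real.exp_le_exp.mpr (by nlinarith)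
    obtain ⟨u, hu⟩ : ∃ u : ℝ, u = 1 / b * lN i.1 := ⟨_, rfl⟩
    have hu1 : u ≤ 1 := by
      rw [hu, div_mul_eq_mul_div, one_mul, div_le_one hb0]
      exact hS i hi
    have e2 : Real.exp (-((1 + 1 / b) * lN i.1)) = Real.exp (-(lN i.1)) * Real.exp (-u) := by
      rw [← Real.exp_add]
      congr 1
      rw [hu]
      ring
    have h8 := h4 i
    rw [e2, ← hu] at h8 ⊢
    have h9 : Real.exp (-(lN i.1)) * (1 - Real.exp (-u)) ≤
        3 * ((1 - Real.exp (-u)) * (Real.exp (-(lN i.1)) * Real.exp (-u))) := by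
      have h10 : 1 ≤ 3 * Real.exp (-u) := by
        have h11 : Real.exp (-1) ≤ Real.exp (-u) := Real.exp_le_exp.mpr (by linarith)
        have h12 : 1 / 3 ≤ Real.exp (-1) := by
          rw [Real.exp_neg, one_div]
          refine inv_anti₀ (Real.exp_pos _) ?_
          have := Real.exp_one_lt_d9
          linarith
        linarith
      have h11 : 0 ≤ Real.exp (-(lN i.1)) * (1 - Real.exp (-u)) := by
        have : 0 ≤ lN i.1 := h6.le
        have hu0 : 0 ≤ u := by rw [hu]; positivity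
        have : Real.exp (-u) ≤ 1 := by rw [Real.exp_le_one_iff]; linarith
        exact mul_nonneg (Real.exp_pos _).le (by linarith)
      calc Real.exp (-(lN i.1)) * (1 - Real.exp (-u)) ≤
          Real.exp (-(lN i.1)) * (1 - Real.exp (-u)) * (3 * Real.exp (-u)) :=
            le_mul_of_one_le_right h11 h10
        _ = _ := by ring
    nlinarith
  refine (Finset.sum_le_sum h5).trans ?_
  rw [Finset.sum_add_distrib, ← Finset.mul_sum]
  have h6 : ∑ i ∈ S, (1 - Real.exp (-(1 / b * lN i.1))) * Real.exp (-((1 + 1 / b) * lN i.1)) ≤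
      ∑ i : PT K M, (1 - Real.exp (-(1 / b * lN i.1))) * Real.exp (-((1 + 1 / b) * lN i.1)) :=
    Finset.sum_le_sum_of_subset_of_nonneg (Finset.subset_univ _) fun i _ _ => h4 i
  have e3 : Real.log (1 + 1) = Real.log 2 := by norm_num
  rw [e3] at h3
  linarith

end

end Pool.Agent.N786.F
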