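import Pool.Agent.N786.F.Mbk

/-!
# The pointwise inequality (owner helper786)
-/

set_option autoImplicit false
set_option linter.unusedSectionVars false

open NumberField NumberField.Units MeasureTheory Complex Filter Topology Set

namespace Pool.Agent.N786.F

open Pool.Agent.N786
open Pool.Agent.N786.D
open Pool.Agent.N786.E

/-- interpolation -/
lemma young {ℓ k : ℝ} (S : ℝ) (hℓ : 0 ≤ ℓ) (h0 : 0 ≤ k) (h1 : k ≤ 1) :
    ℓ ^ (2 * k) ≤ ℓ ^ 2 * Real.exp (2 * (k - 1) * S) + Real.exp (2 * k * S) := by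
  have hX : 0 ≤ ℓ ^ 2 * Real.exp (2 * (k - 1) * S) := by positivity
  have hY : 0 ≤ Real.exp (2 * k * S) := (Real.exp_pos _).le
  have h := Real.geom_mean_le_arith_mean2_weighted h0 (by linarith : 0 ≤ 1 - k) hX hY (by ring)
  have e1 : (ℓ ^ 2 * Real.exp (2 * (k - 1) * S)) ^ k * Real.exp (2 * k * S) ^ (1 - k) =
      ℓ ^ (2 * k) := by
    rw [Real.mul_rpow (by positivity) (Real.exp_pos _).le, ← Real.exp_mul, ← Real.exp_mul,
      mul_assoc, ← Real.exp_add]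
    have e2 : 2 * (k - 1) * S * k + 2 * k * S * (1 - k) = 0 := by ring
    rw [e2, Real.exp_zero, mul_one, ← Real.rpow_natCast, ← Real.rpow_mul hℓ]
    norm_num
  rw [e1] at h
  refine h.trans ?_
  have h2 : k * (ℓ ^ 2 * Real.exp (2 * (k - 1) * S)) ≤ 1 * (ℓ ^ 2 * Real.exp (2 * (k - 1) * S)) :=
    mul_le_mul_of_nonneg_right h1 hX
  have h3 : (1 - k) * Real.exp (2 * k * S) ≤ 1 * Real.exp (2 * k * S) :=
    mul_le_mul_of_nonneg_right (by linarith) hY
  linarith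

/-- the truncated exponential -/
lemma exp_TN {K : ℕ} (hK : 1 ≤ K) {w : ℂ} (hw : ‖w‖ ≤ K) :
    ‖cexp w‖ ≤ (1 + 2 * Real.exp (-(30 * K : ℝ))) * ‖TN (Finset.range (30 * K + 1)) w‖ := by
  have hK0 : (1 : ℝ) ≤ K := by exact_mod_cast hK
  set n : ℕ := 30 * K + 1 with hn
  have hb := Complex.exp_bound' (x := w) (n := n) (by
    rw [div_le_iff₀ (by positivity), hn]
    push_cast
    linarith)
  have hTN : TN (Finset.range n) w = ∑ m ∈ Finset.range n, w ^ m / (m.factorial : ℂ) := rfl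
  rw [← hTN] at hb
  -- the size of the error
  have h1 : ‖w‖ ^ n / n.factorial * 2 ≤ Real.exp (-(30 * K : ℝ)) * Real.exp (-(K : ℝ)) := by
    have h2 := Real.pow_div_factorial_le_exp (30 * (K : ℝ)) (by positivity) n
    have h3 : ‖w‖ ^ n / n.factorial ≤ Real.exp (30 * K) / 30 ^ n := by
      rw [le_div_iff₀ (by positivity)]
      refine le_trans ?_ h2
      rw [mul_pow]
      have h4 : ‖w‖ ^ n ≤ (K : ℝ) ^ n := pow_le_pow_left₀ (norm_nonneg _) hw n
      calc ‖w‖ ^ n / n.factorial * 30 ^ n ≤ (K : ℝ) ^ n / n.factorial * 30 ^ n := by gcongr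
        _ = _ := by ring
    have h5 : Real.exp (30 * K) / 30 ^ n * 2 ≤ Real.exp (-(30 * K : ℝ)) * Real.exp (-(K : ℝ)) := by
      rw [div_mul_eq_mul_div, div_le_iff₀ (by positivity), ← Real.exp_add]
      have h6 : Real.exp (61 * K) ≤ (30 ^ 30) ^ K := by
        have e1 : Real.exp (61 * K) = (Real.exp 1 ^ 61) ^ K := by
          rw [← pow_mul, ← Real.exp_nat_mul, mul_one]
          push_cast
          rfl
        rw [e1]
        refine pow_le_pow_left₀ (by positivity) ?_ K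
        have h7 : Real.exp 1 ≤ 3 := by
          have := Real.exp_one_lt_d9
          linarith
        refine (pow_le_pow_left₀ (Real.exp_pos _).le h7 61).trans ?_
        norm_num
      have e2 : (30 : ℝ) ^ n = 30 * (30 ^ 30) ^ K := by
        rw [hn, pow_succ, ← pow_mul, mul_comm]
      rw [e2]
      have e3 : Real.exp (30 * K) * 2 = Real.exp (-(30 * K : ℝ) + -(K : ℝ)) *
          (2 * Real.exp (61 * K)) := by
        rw [mul_comm (2 : ℝ), ← mul_assoc, ← Real.exp_add]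
        congr 2
        ring
      rw [e3]
      refine mul_le_mul_of_nonneg_left ?_ (Real.exp_pos _).le
      have h8 : (0 : ℝ) ≤ (30 ^ 30) ^ K := by positivity
      have h9 := Real.exp_pos (61 * (K : ℝ))
      linarith
    calc _ ≤ Real.exp (30 * K) / 30 ^ n * 2 := mul_le_mul_of_nonneg_right h3 (by norm_num)
      _ ≤ _ := h5
  have h2 : Real.exp (-(K : ℝ)) ≤ ‖cexp w‖ := by
    rw [Complex.norm_exp]
    refine Real.exp_le_exp.mpr ?_
    have := Complex.abs_re_le_norm w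
    have := neg_abs_le w.re
    linarith
  have h3 : ‖cexp w‖ ≤ ‖TN (Finset.range n) w‖ + Real.exp (-(30 * K : ℝ)) * ‖cexp w‖ := by
    have h4 : ‖cexp w‖ ≤ ‖TN (Finset.range n) w‖ + ‖cexp w - TN (Finset.range n) w‖ := by
      have := norm_add_le (TN (Finset.range n) w) (cexp w - TN (Finset.range n) w)
      rwa [add_sub_cancel] at this
    have h5 := mul_le_mul_of_nonneg_left h2 (Real.exp_pos (-(30 * K : ℝ))).le
    linarith [hb.trans h1]
  obtain ⟨ε, hε⟩ : ∃ ε : ℝ, ε = Real.exp (-(30 * K : ℝ)) := ⟨_, rfl⟩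
  rw [← hε] at h3 ⊢
  have hε0 : 0 < ε := by rw [hε]; exact Real.exp_pos _
  have hε1 : ε ≤ 1 / 2 := by
    rw [hε]
    have h4 : Real.exp (-(30 * K : ℝ)) ≤ Real.exp (-1) := Real.exp_le_exp.mpr (by linarith)
    have h5 : Real.exp (-1) ≤ 1 / 2 := by
      rw [Real.exp_neg]
      have : 2 ≤ Real.exp 1 := by
        have := Real.exp_one_gt_d9
        linarith
      rw [one_div]
      exact inv_anti₀ (by norm_num) this
    linarith
  have h4 : ‖cexp w‖ * (1 - ε) ≤ ‖TN (Finset.range n) w‖ := by linarith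
  have h5 : (1 + 2 * ε) * (1 - ε) ≥ 1 := by nlinarith
  have h6 : 0 ≤ ‖cexp w‖ := norm_nonneg _
  calc ‖cexp w‖ ≤ ‖cexp w‖ * ((1 + 2 * ε) * (1 - ε)) := le_mul_of_one_le_right h6 h5
    _ = (1 + 2 * ε) * (‖cexp w‖ * (1 - ε)) := by ring
    _ ≤ _ := mul_le_mul_of_nonneg_left h4 (by linarith)

/-- sums of `exp (-D j)` -/
lemma sum_D (J : Finset ℕ) : ∑ j ∈ J, Real.exp (-(30 * 8 ^ j : ℝ)) ≤ 1 := by
  have h1 : ∀ j ∈ J, Real.exp (-(30 * 8 ^ j : ℝ)) ≤ 1 / 2 * (1 / 2 : ℝ) ^ j := by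
    intro j _
    have h2 : (2 : ℝ) * 2 ^ j ≤ Real.exp (30 * 8 ^ j) := by
      have h3 := Real.add_one_le_exp (30 * 8 ^ j : ℝ)
      have h4 : (2 : ℝ) ^ j ≤ 8 ^ j := pow_le_pow_left₀ (by norm_num) (by norm_num) j
      have h5 : (0 : ℝ) < 2 ^ j := by positivity
      linarith
    rw [Real.exp_neg]
    calc (Real.exp (30 * 8 ^ j))⁻¹ ≤ (2 * 2 ^ j : ℝ)⁻¹ := inv_anti₀ (by positivity) h2
      _ = _ := by rw [mul_inv, one_div, inv_pow]
  refine (Finset.sum_le_sum h1).trans ?_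
  rw [← Finset.mul_sum]
  have h2 : ∑ j ∈ J, (1 / 2 : ℝ) ^ j ≤ 2 := by
    have h3 := (summable_geometric_two).sum_le_tsum J (fun j _ => by positivity)
    rwa [tsum_geometric_two] at h3
  linarith

/-- the product of the exponentials of the good blocks -/
lemma good_prod (J : Finset ℕ) (z : ℕ → ℂ) (hz : ∀ j ∈ J, ‖z j‖ ≤ 8 ^ j) {s : ℝ} (hs : |s| ≤ 1) :
    Real.exp (2 * s * ∑ j ∈ J, (z j).re) ≤
      Real.exp 4 * ‖∏ j ∈ J, TN (Finset.range (30 * 8 ^ j + 1)) ((s : ℂ) * z j)‖ ^ 2 := by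
  have h1 : ∀ j ∈ J, Real.exp (s * (z j).re) ≤ (1 + 2 * Real.exp (-(30 * 8 ^ j : ℝ))) *
      ‖TN (Finset.range (30 * 8 ^ j + 1)) ((s : ℂ) * z j)‖ := by
    intro j hj
    have h2 := exp_TN (K := 8 ^ j) (Nat.one_le_pow _ _ (by norm_num)) (w := (s : ℂ) * z j) (by
      rw [norm_mul, Complex.norm_real, Real.norm_eq_abs]
      push_cast
      calc |s| * ‖z j‖ ≤ 1 * ‖z j‖ := mul_le_mul_of_nonneg_right hs (norm_nonneg _)
        _ = ‖z j‖ := one_mul _
        _ ≤ _ := hz j hj)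
    rw [Complex.norm_exp, Complex.re_ofReal_mul] at h2
    push_cast at h2
    exact h2
  have h2 : Real.exp (s * ∑ j ∈ J, (z j).re) ≤ Real.exp 2 *
      ‖∏ j ∈ J, TN (Finset.range (30 * 8 ^ j + 1)) ((s : ℂ) * z j)‖ := by
    rw [Finset.mul_sum, Real.exp_sum, _root_.norm_prod]
    refine (Finset.prod_le_prod (fun j _ => (Real.exp_pos _).le) h1).trans ?_
    rw [Finset.prod_mul_distrib]
    refine mul_le_mul_of_nonneg_right ?_ (Finset.prod_nonneg fun j _ => norm_nonneg _)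
    calc ∏ j ∈ J, (1 + 2 * Real.exp (-(30 * 8 ^ j : ℝ))) ≤
        ∏ j ∈ J, Real.exp (2 * Real.exp (-(30 * 8 ^ j : ℝ))) := by
          refine Finset.prod_le_prod (fun j _ => by positivity) fun j _ => ?_
          rw [add_comm]
          exact Real.add_one_le_exp _
      _ = Real.exp (2 * ∑ j ∈ J, Real.exp (-(30 * 8 ^ j : ℝ))) := by
          rw [← Real.exp_sum, Finset.mul_sum]
      _ ≤ Real.exp 2 := by
          refine Real.exp_le_exp.mpr ?_
          have := sum_D J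
          linarith
  have h3 := pow_le_pow_left₀ (Real.exp_pos _).le h2 2
  rw [mul_pow, ← Real.exp_nat_mul, ← Real.exp_nat_mul] at h3
  norm_num at h3
  calc Real.exp (2 * s * ∑ j ∈ J, (z j).re) = Real.exp (2 * (s * ∑ j ∈ J, (z j).re)) := by
        congr 1
        ring
    _ ≤ _ := by
        refine h3.trans (le_of_eq ?_)
        rw [_root_.norm_prod]

/-- the exponents: a power in the block `v`, truncated exponentials in the others -/
def NN (v j : ℕ) : Finset ℕ := if j = v then {8 ^ v} else Finset.range (30 * 8 ^ j + 1)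

/-- the factor in the block `v` is one -/
noncomputable def αα (v : ℕ) (s : ℝ) (j : ℕ) : ℝ := if j = v then 1 else s

/-- the blocks -/
def Jv (q I v : ℕ) : Finset ℕ := if v = I + 1 then Finset.Icc q I else Finset.Icc v I

lemma good_two (J : Finset ℕ) (z : ℕ → ℂ) (hz : ∀ j ∈ J, ‖z j‖ ≤ 8 ^ j) {ℓ k : ℝ} (hℓ : 0 ≤ ℓ)
    (h0 : 0 ≤ k) (h1 : k ≤ 1) :
    ℓ ^ (2 * k) ≤ Real.exp 4 *
      (ℓ ^ 2 * ‖∏ j ∈ J, TN (Finset.range (30 * 8 ^ j + 1)) (((k - 1 : ℝ) : ℂ) * z j)‖ ^ 2 +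
        ‖∏ j ∈ J, TN (Finset.range (30 * 8 ^ j + 1)) ((k : ℂ) * z j)‖ ^ 2) := by
  have a1 := good_prod J z hz (s := k - 1) (by rw [abs_le]; constructor <;> linarith)
  have a2 := good_prod J z hz (s := k) (by rw [abs_le]; constructor <;> linarith)
  have a3 := young (∑ j ∈ J, (z j).re) hℓ h0 h1
  have a4 := mul_le_mul_of_nonneg_left a1 (sq_nonneg ℓ)
  calc ℓ ^ (2 * k) ≤ _ := a3
    _ ≤ _ := add_le_add a4 a2
    _ = _ := by ring

/-- **the pointwise inequality** -/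
theorem ptw {q I : ℕ} (hqI : q ≤ I) (z : ℕ → ℂ) {ℓ k : ℝ} (hℓ : 0 ≤ ℓ) (h0 : 0 ≤ k) (h1 : k ≤ 1) :
    ℓ ^ (2 * k) ≤ Real.exp 4 * ∑ v ∈ Finset.Icc q (I + 1),
      (ℓ ^ 2 * ‖∏ j ∈ Jv q I v, TN (NN v j) ((αα v (k - 1) j : ℂ) * z j)‖ ^ 2 +
        ‖∏ j ∈ Jv q I v, TN (NN v j) ((αα v k j : ℂ) * z j)‖ ^ 2) := by
  classical
  have hterm : ∀ v ∈ Finset.Icc q (I + 1), ℓ ^ (2 * k) ≤ Real.exp 4 *
      (ℓ ^ 2 * ‖∏ j ∈ Jv q I v, TN (NN v j) ((αα v (k - 1) j : ℂ) * z j)‖ ^ 2 +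
        ‖∏ j ∈ Jv q I v, TN (NN v j) ((αα v k j : ℂ) * z j)‖ ^ 2) →
      ℓ ^ (2 * k) ≤ Real.exp 4 * ∑ v ∈ Finset.Icc q (I + 1),
      (ℓ ^ 2 * ‖∏ j ∈ Jv q I v, TN (NN v j) ((αα v (k - 1) j : ℂ) * z j)‖ ^ 2 +
        ‖∏ j ∈ Jv q I v, TN (NN v j) ((αα v k j : ℂ) * z j)‖ ^ 2) := by
    intro v hv h
    refine h.trans (mul_le_mul_of_nonneg_left ?_ (Real.exp_pos _).le)
    exact Finset.single_le_sum (f := fun v => ℓ ^ 2 * ‖∏ j ∈ Jv q I v, TN (NN v j)
      ((αα v (k - 1) j : ℂ) * z j)‖ ^ 2 + ‖∏ j ∈ Jv q I v, TN (NN v j)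
        ((αα v k j : ℂ) * z j)‖ ^ 2) (fun i _ => by positivity) hv
  by_cases hgood : ∀ j ∈ Finset.Icc q I, ‖z j‖ ≤ 8 ^ j
  · refine hterm (I + 1) (Finset.mem_Icc.mpr ⟨by omega, le_rfl⟩) ?_
    refine (good_two _ z hgood hℓ h0 h1).trans (le_of_eq ?_)
    unfold Jv
    rw [if_pos rfl]
    have e : ∀ s : ℝ, ∏ j ∈ Finset.Icc q I, TN (NN (I + 1) j) ((αα (I + 1) s j : ℂ) * z j) =
        ∏ j ∈ Finset.Icc q I, TN (Finset.range (30 * 8 ^ j + 1)) ((s : ℂ) * z j) := by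
      intro s
      refine Finset.prod_congr rfl fun j hj => ?_
      have hj2 : j ≠ I + 1 := by
        have := (Finset.mem_Icc.mp hj).2
        omega
      unfold NN αα
      rw [if_neg hj2, if_neg hj2]
    rw [e, e]
  · push Not at hgood
    obtain ⟨j₀, hj₀, hj₀b⟩ := hgood
    set Bd := (Finset.Icc q I).filter (fun j => (8 : ℝ) ^ j < ‖z j‖) with hBd
    have hne : Bd.Nonempty := ⟨j₀, Finset.mem_filter.mpr ⟨hj₀, hj₀b⟩⟩
    obtain ⟨v, hv⟩ : ∃ v, v = Bd.max' hne := ⟨_, rfl⟩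
    have hvB : v ∈ Bd := by rw [hv]; exact Finset.max'_mem _ _
    have hvI := Finset.mem_Icc.mp (Finset.mem_filter.mp hvB).1
    have hvb : (8 : ℝ) ^ v < ‖z v‖ := (Finset.mem_filter.mp hvB).2
    have hrest : ∀ j ∈ Finset.Ioc v I, ‖z j‖ ≤ 8 ^ j := by
      intro j hj
      by_contra hcon
      push Not at hcon
      have h3 := Finset.mem_Ioc.mp hj
      have h4 : j ∈ Bd := Finset.mem_filter.mpr ⟨Finset.mem_Icc.mpr ⟨by omega, h3.2⟩, hcon⟩
      have h5 := Finset.le_max' _ _ h4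
      rw [← hv] at h5
      omega
    refine hterm v (Finset.mem_Icc.mpr ⟨hvI.1, by omega⟩) ?_
    have hJ : Jv q I v = insert v (Finset.Ioc v I) := by
      unfold Jv
      rw [if_neg (by omega), Finset.Ioc_insert_left hvI.2]
    have hnot : v ∉ Finset.Ioc v I := by simp
    have hpow : 1 ≤ ‖TN (NN v v) ((1 : ℝ) * z v)‖ ^ 2 := by
      refine one_le_pow₀ ?_
      unfold NN TN
      rw [if_pos rfl, Finset.sum_singleton, Complex.ofReal_one, one_mul, norm_div, norm_pow,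
        Complex.norm_natCast, le_div_iff₀ (by positivity), one_mul]
      have h3 : (((8 ^ v).factorial : ℕ) : ℝ) ≤ ((8 ^ v : ℕ) : ℝ) ^ (8 ^ v) := by
        exact_mod_cast Nat.factorial_le_pow (8 ^ v)
      refine h3.trans (pow_le_pow_left₀ (by positivity) ?_ _)
      push_cast
      exact hvb.le
    have e : ∀ s : ℝ, ∏ j ∈ Jv q I v, TN (NN v j) ((αα v s j : ℂ) * z j) =
        TN (NN v v) ((1 : ℝ) * z v) *
        ∏ j ∈ Finset.Ioc v I, TN (Finset.range (30 * 8 ^ j + 1)) ((s : ℂ) * z j) := by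
      intro s
      rw [hJ, Finset.prod_insert hnot]
      have e1 : αα v s v = 1 := by
        unfold αα
        rw [if_pos rfl]
      rw [e1]
      congr 1
      refine Finset.prod_congr rfl fun j hj => ?_
      have hj2 : j ≠ v := by
        have := (Finset.mem_Ioc.mp hj).1
        omega
      unfold NN αα
      rw [if_neg hj2, if_neg hj2]
    rw [e, e, norm_mul, norm_mul, mul_pow, mul_pow]
    have h3 := good_two _ z hrest hℓ h0 h1
    refine h3.trans (mul_le_mul_of_nonneg_left ?_ (Real.exp_pos _).le)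
    have h4 : 0 ≤ ‖∏ j ∈ Finset.Ioc v I, TN (Finset.range (30 * 8 ^ j + 1))
      (((k - 1 : ℝ) : ℂ) * z j)‖ ^ 2 := by positivity
    have h5 : 0 ≤ ‖∏ j ∈ Finset.Ioc v I, TN (Finset.range (30 * 8 ^ j + 1))
      ((k : ℂ) * z j)‖ ^ 2 := by positivity
    refine add_le_add (mul_le_mul_of_nonneg_left ?_ (sq_nonneg ℓ)) ?_
    · exact le_mul_of_one_le_left h4 hpow
    · exact le_mul_of_one_le_left h5 hpow

end Pool.Agent.N786.F
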