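import Pool.Agent.N786.F.Prs

/-!
# The weights of the blocks (owner helper786)
-/

set_option autoImplicit false
set_option linter.unusedSectionVars false

open NumberField Filter Topology Set UniqueFactorizationMonoid

namespace Pool.Agent.N786.F

open Pool.Agent.N786
open Pool.Agent.N786.D
open Pool.Agent.N786.E

open Classical in
/-- the block of a prime -/
noncomputable def bI (R : ℝ) (I : ℕ) (ℓ : ℝ) : ℕ := Nat.findGreatest (fun j => ℓ ≤ R / 16 ^ j) I

lemma bI_le {R : ℝ} {I : ℕ} {ℓ : ℝ} {j : ℕ} (h : bI R I ℓ = j) (hj : j ≠ 0) : ℓ ≤ R / 16 ^ j := by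
  classical
  unfold bI at h
  rw [Nat.findGreatest_eq_iff] at h
  exact h.2.1 hj

lemma bI_lt {R : ℝ} {I : ℕ} {ℓ : ℝ} {j : ℕ} (h : bI R I ℓ = j) (hj : j < I) :
    R / 16 ^ (j + 1) ≤ ℓ := by
  classical
  unfold bI at h
  rw [Nat.findGreatest_eq_iff] at h
  have := h.2.2 (Nat.lt_succ_self j) hj
  push Not at this
  exact this.le

lemma bI_not {R : ℝ} {I : ℕ} {ℓ : ℝ} {v : ℕ} (hv : v ≤ I) (h : bI R I ℓ ∉ Finset.Icc v I) :
    R / 16 ^ v ≤ ℓ := by
  classical
  by_contra hcon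
  push Not at hcon
  apply h
  rw [Finset.mem_Icc]
  unfold bI
  exact ⟨Nat.le_findGreatest hv hcon.le, Nat.findGreatest_le _⟩

/-- the coefficients -/
noncomputable def Av (v j : ℕ) : ℝ := if j = v then 0 else 1 + Real.exp (-(30 * 8 ^ j : ℝ))

/-- the coefficients -/
noncomputable def Bv (v j : ℕ) : ℝ :=
  if j = v then Real.exp (-(2 * 8 ^ j : ℝ)) else 2 * Real.exp (-(30 * 8 ^ j : ℝ))

/-- the weight -/
noncomputable def Uv (c : ℝ) (q I v : ℕ) : ℝ :=
  if v = I + 1 then Real.exp (c * q) else Real.exp (c * v - 8 ^ v)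

lemma sum_D2 (J : Finset ℕ) : ∑ j ∈ J, Real.exp (-(29 * 8 ^ j : ℝ)) ≤ 1 := by
  have h1 : ∀ j ∈ J, Real.exp (-(29 * 8 ^ j : ℝ)) ≤ 1 / 2 * (1 / 2 : ℝ) ^ j := by
    intro j _
    have h2 : (2 : ℝ) * 2 ^ j ≤ Real.exp (29 * 8 ^ j) := by
      have h3 := Real.add_one_le_exp (29 * 8 ^ j : ℝ)
      have h4 : (2 : ℝ) ^ j ≤ 8 ^ j := pow_le_pow_left₀ (by norm_num) (by norm_num) j
      have h5 : (0 : ℝ) < 2 ^ j := by positivity
      linarith
    rw [Real.exp_neg]
    calc (Real.exp (29 * 8 ^ j))⁻¹ ≤ (2 * 2 ^ j : ℝ)⁻¹ := inv_anti₀ (by positivity) h2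
      _ = _ := by rw [mul_inv, one_div, inv_pow]
  refine (Finset.sum_le_sum h1).trans ?_
  rw [← Finset.mul_sum]
  have h2 : ∑ j ∈ J, (1 / 2 : ℝ) ^ j ≤ 2 := by
    have h3 := (summable_geometric_two).sum_le_tsum J (fun j _ => by positivity)
    rwa [tsum_geometric_two] at h3
  linarith

/-- **the weights** -/
theorem Wt_bd (K : Type) [Field K] [NumberField K] : ∃ C c c₀ : ℝ, 1 ≤ C ∧ 0 ≤ c ∧ 1 ≤ c₀ ∧
    ∀ (M q I v : ℕ) (R κ k g₁ s : ℝ), 1 ≤ q → q ≤ v → v ≤ I + 1 → q ≤ I → 2 ≤ R / 16 ^ I → 1 ≤ κ →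
      4 * κ ≤ R → c₀ * (1 + Real.log R) ≤ 8 ^ I → (g₁ + s) ^ 2 = k ^ 2 → g₁ ^ 2 ≤ 1 → k ^ 2 ≤ 1 →
      Wt lN (fun i : PT K M => i.1) (bk K M (bI R I)) (Jv q I v) (Av v) (Bv v) (αα v s) g₁
        (2 * (1 / 2 + κ / R)) ≤ C * R ^ (k ^ 2) * Uv c q I v := by
  classical
  obtain ⟨C₁, hC₁, hinit⟩ := prs_init K
  have hL := lN_norm K
  obtain ⟨B₀, hB₀⟩ : ∃ B₀ : ℝ, B₀ = 24 * Module.finrank ℚ K := ⟨_, rfl⟩
  rw [← hB₀] at hL
  have hB := hL.B0
  obtain ⟨c₂, hc₂⟩ : ∃ c₂ : ℝ, c₂ = 800 * (6 * (B₀ * Real.log 17)) := ⟨_, rfl⟩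
  have hc₂0 : 0 ≤ c₂ := by
    rw [hc₂]
    have : 0 ≤ Real.log 17 := Real.log_nonneg (by norm_num)
    positivity
  refine ⟨Real.exp (c₂ + C₁ + 3 * Real.exp c₂), 6 * B₀, 800 * (1 + C₁),
    Real.one_le_exp (by positivity), by positivity, by linarith, ?_⟩
  intro M q I v R κ k g₁ s hq hqv hvI hqI hI hκ hκR hc₀ hgs hg hk
  have hR : 0 < R := by linarith
  have hR4 : 4 ≤ R := by linarith
  have hlogR : 0 ≤ Real.log R := Real.log_nonneg (by linarith)
  have hp : ∀ i : PT K M, Prime i.1 := fun i => i.2.2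
  have hinj : Function.Injective (fun i : PT K M => i.1) := Subtype.val_injective
  obtain ⟨σ, hσ⟩ : ∃ σ : ℝ, σ = 2 * (1 / 2 + κ / R) := ⟨_, rfl⟩
  rw [← hσ]
  have hκR' : κ / R ≤ 1 / 4 := by rw [div_le_iff₀ hR]; linarith
  have hκR0 : 0 < κ / R := by positivity
  have hσ1 : 1 < σ := by rw [hσ]; linarith
  have hσ2 : σ ≤ 3 / 2 := by rw [hσ]; linarith
  set blk := bk K M (bI R I) with hblk
  set x : PT K M → ℝ := fun i => Real.exp (-(σ * lN i.1)) with hx
  have hx0 : ∀ i, 0 ≤ x i := fun i => (Real.exp_pos _).le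
  have h16 : ∀ j ≤ I, 2 ≤ R / 16 ^ j := by
    intro j hj
    refine hI.trans ?_
    have : (16 : ℝ) ^ j ≤ 16 ^ I := pow_le_pow_right₀ (by norm_num) hj
    exact div_le_div_of_nonneg_left hR.le (by positivity) this
  have hblkle : ∀ i j, blk i = j → j ≠ 0 → lN i.1 ≤ R / 16 ^ j := fun i j h hj => bI_le h hj
  have hleR : ∀ j : ℕ, R / 16 ^ j ≤ R := fun j =>
    div_le_self hR.le (one_le_pow₀ (by norm_num))
  -- the sums of the blocks
  have hQ : ∀ j, 1 ≤ j → j ≤ I → 800 * ∑ i with blk i = j, x i ≤ 8 ^ j + c₂ := by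
    intro j hj1 hjI
    have h8 : (0 : ℝ) < 8 ^ j := by positivity
    rcases hjI.lt_or_eq with h | h
    · have h1 := prs_block hL hp hinj (a := R / 16 ^ (j + 1)) (b := R / 16 ^ j) (σ := σ)
        (h16 _ h) (h16 _ hjI) hσ1.le (Finset.univ.filter fun i => blk i = j) (fun i hi => by
          have h2 := (Finset.mem_filter.mp hi).2
          exact ⟨bI_lt h2 h, hblkle i j h2 (by omega)⟩)
      have e1 : R / 16 ^ j / (R / 16 ^ (j + 1)) = 16 := by
        rw [pow_succ]
        field_simp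
      rw [e1] at h1
      have e2 : Real.log (1 + 16) = Real.log 17 := by norm_num
      rw [e2] at h1
      have h2 : 800 * ∑ i with blk i = j, x i ≤ c₂ := by
        rw [hc₂]
        simp only [hx]
        linarith
      linarith
    · have h1 := hinit M (R / 16 ^ j) σ (h16 _ hjI) hσ1.le
        (Finset.univ.filter fun i => blk i = j) (fun i hi =>
          hblkle i j (Finset.mem_filter.mp hi).2 (by omega))
      have h2 : Real.log (R / 16 ^ j) ≤ Real.log R :=
        Real.log_le_log (by positivity) (hleR j)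
      rw [h]
      rw [h] at h1 h2
      simp only [hx]
      nlinarith
  -- the good blocks
  have hgood : ∀ G : Finset ℕ, (∀ j ∈ G, 1 ≤ j ∧ j ≤ I) →
      ∏ j ∈ G, ((1 + Real.exp (-(30 * 8 ^ j : ℝ))) *
        Real.exp (∑ i with blk i = j, (g₁ + s) ^ 2 * x i) +
        2 * Real.exp (-(30 * 8 ^ j : ℝ)) * Real.exp (∑ i with blk i = j, 800 * x i)) ≤
      R ^ (k ^ 2) * Real.exp (C₁ + 3 * Real.exp c₂) := by
    intro G hG
    have h1 : ∀ j ∈ G, ((1 + Real.exp (-(30 * 8 ^ j : ℝ))) *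
        Real.exp (∑ i with blk i = j, (g₁ + s) ^ 2 * x i) +
        2 * Real.exp (-(30 * 8 ^ j : ℝ)) * Real.exp (∑ i with blk i = j, 800 * x i)) ≤
        Real.exp (∑ i with blk i = j, k ^ 2 * x i) *
          Real.exp (3 * Real.exp c₂ * Real.exp (-(29 * 8 ^ j : ℝ))) := by
      intro j hj
      obtain ⟨hj1, hj2⟩ := hG j hj
      have h2 := hQ j hj1 hj2
      rw [hgs, ← Finset.mul_sum, ← Finset.mul_sum]
      obtain ⟨Q, hQd⟩ : ∃ Q : ℝ, Q = ∑ i with blk i = j, x i := ⟨_, rfl⟩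
      rw [← hQd] at h2 ⊢
      have hQ0 : 0 ≤ Q := by rw [hQd]; exact Finset.sum_nonneg fun i _ => hx0 i
      have h3 : 1 ≤ Real.exp (k ^ 2 * Q) := Real.one_le_exp (by positivity)
      have h4 : Real.exp (-(30 * 8 ^ j : ℝ)) * Real.exp (800 * Q) ≤
          Real.exp c₂ * Real.exp (-(29 * 8 ^ j : ℝ)) := by
        rw [← Real.exp_add, ← Real.exp_add]
        exact Real.exp_le_exp.mpr (by linarith)
      have h5 : Real.exp (-(30 * 8 ^ j : ℝ)) ≤ Real.exp c₂ * Real.exp (-(29 * 8 ^ j : ℝ)) := by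
        rw [← Real.exp_add]
        refine Real.exp_le_exp.mpr ?_
        have : (0 : ℝ) < 8 ^ j := by positivity
        linarith
      have h6 := Real.add_one_le_exp (3 * Real.exp c₂ * Real.exp (-(29 * 8 ^ j : ℝ)))
      have h7 : 0 < Real.exp c₂ * Real.exp (-(29 * 8 ^ j : ℝ)) := by positivity
      calc (1 + Real.exp (-(30 * 8 ^ j : ℝ))) * Real.exp (k ^ 2 * Q) +
          2 * Real.exp (-(30 * 8 ^ j : ℝ)) * Real.exp (800 * Q) ≤
          (1 + Real.exp c₂ * Real.exp (-(29 * 8 ^ j : ℝ))) * Real.exp (k ^ 2 * Q) +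
          2 * (Real.exp c₂ * Real.exp (-(29 * 8 ^ j : ℝ))) * Real.exp (k ^ 2 * Q) := by
            refine add_le_add (mul_le_mul_of_nonneg_right (by linarith) (by positivity)) ?_
            rw [mul_assoc 2]
            have h8 : 2 * (Real.exp c₂ * Real.exp (-(29 * 8 ^ j : ℝ))) ≤
                2 * (Real.exp c₂ * Real.exp (-(29 * 8 ^ j : ℝ))) * Real.exp (k ^ 2 * Q) :=
              le_mul_of_one_le_right (by positivity) h3
            linarith
        _ = Real.exp (k ^ 2 * Q) * (3 * Real.exp c₂ * Real.exp (-(29 * 8 ^ j : ℝ)) + 1) := by ring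
        _ ≤ _ := mul_le_mul_of_nonneg_left h6 (Real.exp_pos _).le
    refine (Finset.prod_le_prod (fun j _ => by positivity) h1).trans ?_
    rw [Finset.prod_mul_distrib, ← Real.exp_sum, ← Real.exp_sum,
      Finset.sum_fiberwise_eq_sum_filter, ← Finset.mul_sum, ← Finset.mul_sum]
    have h2 := sum_D2 G
    have h3 := hinit M R σ (by linarith) hσ1.le (Finset.univ.filter fun i => blk i ∈ G)
      (fun i hi => by
        have h4 := (Finset.mem_filter.mp hi).2
        have h5 := hG _ h4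
        exact (hblkle i _ rfl (by omega)).trans (hleR _))
    have h4 : k ^ 2 * ∑ i with blk i ∈ G, x i ≤ k ^ 2 * Real.log R + C₁ := by
      have h5 := mul_le_mul_of_nonneg_left h3 (sq_nonneg k)
      have h6 : k ^ 2 * C₁ ≤ 1 * C₁ := mul_le_mul_of_nonneg_right hk hC₁
      simp only [hx]
      linarith
    rw [Real.rpow_def_of_pos hR, ← Real.exp_add, ← Real.exp_add]
    refine Real.exp_le_exp.mpr ?_
    have h7 : 3 * Real.exp c₂ * ∑ j ∈ G, Real.exp (-(29 * 8 ^ j : ℝ)) ≤ 3 * Real.exp c₂ * 1 :=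
      mul_le_mul_of_nonneg_left h2 (by positivity)
    linarith
  -- the rest
  have hrest : ∀ (w : ℕ) (J : Finset ℕ), 1 ≤ w → w ≤ I → J = Finset.Icc w I →
      Real.exp (∑ i with blk i ∉ J, g₁ ^ 2 * x i) ≤ Real.exp (6 * B₀ * w) := by
    intro w J hw1 hwI hJ
    refine Real.exp_le_exp.mpr ?_
    rw [← Finset.mul_sum]
    have h1 := prs_tail hL hp hinj (a := R / 16 ^ w) (σ := σ) (h16 _ hwI) hσ1 hσ2
      (Finset.univ.filter fun i => blk i ∉ J) (fun i hi => by
        have h2 := (Finset.mem_filter.mp hi).2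
        rw [hJ] at h2
        exact bI_not hwI h2)
    have h2 : Real.log (1 + 1 / (R / 16 ^ w * (σ - 1))) ≤ 3 * w := by
      have e1 : 1 / (R / 16 ^ w * (σ - 1)) = 16 ^ w / (2 * κ) := by
        rw [hσ]
        field_simp
        ring
      rw [e1]
      have h3 : (1 : ℝ) + 16 ^ w / (2 * κ) ≤ 16 ^ w := by
        have h4 : (16 : ℝ) ^ w / (2 * κ) ≤ 16 ^ w / 2 :=
          div_le_div_of_nonneg_left (by positivity) (by norm_num) (by linarith)
        have h5 : (16 : ℝ) ≤ 16 ^ w := by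
          calc (16 : ℝ) = 16 ^ 1 := (pow_one _).symm
            _ ≤ _ := pow_le_pow_right₀ (by norm_num) hw1
        linarith
      refine (Real.log_le_log (by positivity) h3).trans ?_
      rw [Real.log_pow]
      have h4 : Real.log 16 ≤ 3 := by
        have e2 : (16 : ℝ) = 2 ^ 4 := by norm_num
        rw [e2, Real.log_pow]
        have := Real.log_two_lt_d9
        push_cast
        linarith
      have h5 : (0 : ℝ) ≤ w := Nat.cast_nonneg w
      nlinarith
    have h3 : ∑ i with blk i ∉ J, x i ≤ 6 * B₀ * w := by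
      have h4 := mul_le_mul_of_nonneg_left h2 hB
      simp only [hx]
      linarith
    have h4 : 0 ≤ ∑ i with blk i ∉ J, x i := Finset.sum_nonneg fun i _ => hx0 i
    calc g₁ ^ 2 * ∑ i with blk i ∉ J, x i ≤ 1 * ∑ i with blk i ∉ J, x i :=
          mul_le_mul_of_nonneg_right hg h4
      _ ≤ _ := by rw [one_mul]; exact h3
  unfold Wt
  rcases Nat.lt_or_ge I v with hv | hv
  · -- all blocks are good
    have hv' : v = I + 1 := by omega
    have hJ : Jv q I v = Finset.Icc q I := by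
      unfold Jv
      rw [if_pos hv']
    have hU : Uv (6 * B₀) q I v = Real.exp (6 * B₀ * q) := by
      unfold Uv
      rw [if_pos hv']
    have h1 := hgood (Finset.Icc q I) (fun j hj => by
      have := Finset.mem_Icc.mp hj
      omega)
    have h2 := hrest q (Jv q I v) hq hqI hJ
    have e1 : ∏ j ∈ Jv q I v, (Av v j * Real.exp (∑ i with blk i = j,
        (g₁ + αα v s j) ^ 2 * x i) + Bv v j * Real.exp (∑ i with blk i = j, 800 * x i)) =
        ∏ j ∈ Finset.Icc q I, ((1 + Real.exp (-(30 * 8 ^ j : ℝ))) *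
        Real.exp (∑ i with blk i = j, (g₁ + s) ^ 2 * x i) +
        2 * Real.exp (-(30 * 8 ^ j : ℝ)) * Real.exp (∑ i with blk i = j, 800 * x i)) := by
      rw [hJ]
      refine Finset.prod_congr rfl fun j hj => ?_
      have hj2 : j ≠ v := by
        have := (Finset.mem_Icc.mp hj).2
        omega
      unfold Av Bv αα
      rw [if_neg hj2, if_neg hj2, if_neg hj2]
    rw [e1, hU]
    refine (mul_le_mul h1 h2 (Real.exp_pos _).le (by positivity)).trans ?_
    have h3 : Real.exp (C₁ + 3 * Real.exp c₂) ≤ Real.exp (c₂ + C₁ + 3 * Real.exp c₂) :=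
      Real.exp_le_exp.mpr (by linarith)
    calc R ^ (k ^ 2) * Real.exp (C₁ + 3 * Real.exp c₂) * Real.exp (6 * B₀ * q) ≤
        R ^ (k ^ 2) * Real.exp (c₂ + C₁ + 3 * Real.exp c₂) * Real.exp (6 * B₀ * q) := by gcongr
      _ = _ := by ring
  · -- the block `v` is bad
    have hv' : v ≠ I + 1 := by omega
    have hJ : Jv q I v = Finset.Icc v I := by
      unfold Jv
      rw [if_neg hv']
    have hU : Uv (6 * B₀) q I v = Real.exp (6 * B₀ * v - 8 ^ v) := by
      unfold Uv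
      rw [if_neg hv']
    have h1 := hgood (Finset.Ioc v I) (fun j hj => by
      have := Finset.mem_Ioc.mp hj
      omega)
    have h2 := hrest v (Jv q I v) (by omega) hv hJ
    have hnot : v ∉ Finset.Ioc v I := by simp
    have e1 : ∏ j ∈ Jv q I v, (Av v j * Real.exp (∑ i with blk i = j,
        (g₁ + αα v s j) ^ 2 * x i) + Bv v j * Real.exp (∑ i with blk i = j, 800 * x i)) =
        (Real.exp (-(2 * 8 ^ v : ℝ)) * Real.exp (∑ i with blk i = v, 800 * x i)) *
        ∏ j ∈ Finset.Ioc v I, ((1 + Real.exp (-(30 * 8 ^ j : ℝ))) *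
        Real.exp (∑ i with blk i = j, (g₁ + s) ^ 2 * x i) +
        2 * Real.exp (-(30 * 8 ^ j : ℝ)) * Real.exp (∑ i with blk i = j, 800 * x i)) := by
      rw [hJ, ← Finset.Ioc_insert_left hv, Finset.prod_insert hnot]
      congr 1
      · unfold Av Bv
        rw [if_pos rfl, if_pos rfl, zero_mul, zero_add]
      · refine Finset.prod_congr rfl fun j hj => ?_
        have hj2 : j ≠ v := by
          have := (Finset.mem_Ioc.mp hj).1
          omega
        unfold Av Bv αα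
        rw [if_neg hj2, if_neg hj2, if_neg hj2]
    rw [e1, hU]
    have h3 : Real.exp (-(2 * 8 ^ v : ℝ)) * Real.exp (∑ i with blk i = v, 800 * x i) ≤
        Real.exp (c₂ - 8 ^ v) := by
      rw [← Real.exp_add, ← Finset.mul_sum]
      refine Real.exp_le_exp.mpr ?_
      have := hQ v (by omega) hv
      linarith
    have h4 := mul_le_mul h3 h1 (Finset.prod_nonneg fun j _ => by positivity) (Real.exp_pos _).le
    refine (mul_le_mul h4 h2 (Real.exp_pos _).le (by positivity)).trans (le_of_eq ?_)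
    have e2 : Real.exp (c₂ + C₁ + 3 * Real.exp c₂) * Real.exp (6 * B₀ * v - 8 ^ v) =
        Real.exp (c₂ - 8 ^ v) * Real.exp (C₁ + 3 * Real.exp c₂) * Real.exp (6 * B₀ * v) := by
      rw [← Real.exp_add, ← Real.exp_add, ← Real.exp_add]
      congr 1
      ring
    calc _ = R ^ (k ^ 2) * (Real.exp (c₂ - 8 ^ v) * Real.exp (C₁ + 3 * Real.exp c₂) *
          Real.exp (6 * B₀ * v)) := by ring
      _ = _ := by rw [← e2]; ring

end Pool.Agent.N786.F
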